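import Pool.Agent.MTR.Defs

/-!
Montesinos knots, recovery part: statements of the modules. See PAPER.md in this folder.
-/

open scoped BigOperators

namespace Pool.Agent.MTR

open Pool.Agent.TB

/-- CHNO: the vector of a word. -/
def CHNO_Stmt : Prop :=
  ∀ x : List ℤ, IsCoprime (lastv x).1 (lastv x).2 ∧
    (Even x.length → Even (lastv x).1 ∧ Odd (lastv x).2) ∧
    (Odd x.length → Odd (lastv x).1 ∧ Even (lastv x).2) ∧
    ((∀ a ∈ x, a ≠ 0) → |(lastv x).1| < |(lastv x).2| ∧ (x ≠ [] → 2 ≤ |(lastv x).2|))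

/-- CFUO: uniqueness of the even continued fraction, both parities of the length. -/
def CFUO_Stmt : Prop :=
  ∀ x y : List ℤ, (Even x.length ↔ Even y.length) → (∀ a ∈ x, a ≠ 0) → (∀ a ∈ y, a ≠ 0) →
    (lastv x).1 * (lastv y).2 = (lastv y).1 * (lastv x).2 → x = y

/-- ADV: elementary facts on `totv`. -/
def ADV_Stmt : Prop :=
  (∀ (e : ℤ) (ws ws' : List (List ℤ)), ws.Perm ws' → totv e ws = totv e ws') ∧
  (∀ (e : ℤ) (x : List ℤ) (rest : List (List ℤ)),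
    totv e (x :: rest) = addv (lastv x) (totv e rest) ∧
    det2 (lv e rest) (lastv x) = DD e (x :: rest) ∧
    det2 (lv e rest) (0, 1) = DD e rest) ∧
  (∀ (e : ℤ) (ws : List (List ℤ)), (totv e ws).2 = (ws.map fun x => (lastv x).2).prod) ∧
  (∀ (e : ℤ) (ws : List (List ℤ)), (∀ x ∈ ws, (lastv x).2 ≠ 0) →
    ((totv e ws).1 : ℚ) = (totv e ws).2 *
      (-(e : ℚ) + (ws.map fun x => ((lastv x).1 : ℚ) / (lastv x).2).sum)) ∧
  (∀ (e : ℤ) (ws : List (List ℤ)), NF e ws → Odd (DD e ws) ∧ (totv e ws).2 ≠ 0 ∧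
    ∀ x ∈ ws, ws.Perm (x :: ws.erase x) ∧ det2 (lv e (ws.erase x)) (lastv x) = DD e ws ∧
      (lv e (ws.erase x)).2 ≠ 0 ∧ (lastv x).2 ≠ 0 ∧ IsCoprime (lastv x).1 (lastv x).2)

/-- INVO: the inversion of triples. -/
def INVO_Stmt : Prop :=
  ∀ x : Tri, x.ok → x.inv.ok ∧ x.inv.inv = x ∧ x.inv.1 = x.1 ∧ x.inv.2.2 = x.2.2⁻¹ ∧
    (x.1 : ℤ) ∣ x.2.1 * x.inv.2.1 - 1 ∧
    (∀ c : ℤ, 0 ≤ c → c < x.1 → (x.1 : ℤ) ∣ x.2.1 * c - 1 → x.inv.2.1 = c) ∧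
    x.inv.ht = 1 / (|x.2.2| * x.1)

/-- SITE: the triple of a site. -/
def SITE_Stmt : Prop :=
  ∀ l V : ℤ × ℤ, IsCoprime V.1 V.2 → Odd (det2 l V) → l.2 ≠ 0 → V.2 ≠ 0 →
    (tri l V).ok ∧ 0 < Int.gcd l.1 l.2 ∧
    (tri l V).1 * Int.gcd l.1 l.2 = (det2 l V).natAbs ∧
    (∀ u w : ℤ, ((tri l V).1 : ℤ) ∣ w - (tri l V).2.1 * u ↔
      ∃ R : ℤ × ℤ, det2 R V = u ∧ Int.sign (det2 l V) * det2 l R = Int.gcd l.1 l.2 * w)

/-- SITZ: the site sum is the function of the triple. -/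
def SITZ_Stmt : Prop :=
  ∀ l V : ℤ × ℤ, IsCoprime V.1 V.2 → Odd (det2 l V) → l.2 ≠ 0 → V.2 ≠ 0 →
    ∀ c M : ℤ, c ≠ 0 → zsum c l V M = (tri l V).T ((M : ℚ) / (c * det2 l V))

/-- PF: uniqueness of partial fractions. -/
def PF_Stmt : Prop :=
  ∀ (B : Finset ℚ) (a : ℚ → ℚ) (S : Set ℕ), S.Infinite →
    (∀ l ∈ S, ∑ b ∈ B, a b / ((l : ℚ) + b) = 0) → ∀ b ∈ B, a b = 0

/-- TVAL: the values at `q / Δ_0`, `q` a large prime. -/
def TVAL_Stmt : Prop :=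
  ∀ (x : Tri), x.ok → ∀ Δ0 : ℕ, Odd Δ0 → ∃ L : ℕ, ∀ q : ℕ, q.Prime → L < q →
    (¬ Δ0 ∣ x.1 → x.T ((q : ℚ) / Δ0) = 0) ∧
    (Δ0 = x.1 → x.T ((q : ℚ) / Δ0) = -(2 * (x.1 : ℚ)) *
      ((if (x.1 : ℤ) ∣ q - x.2.1 then 1 / ((q : ℚ) + x.2.2) else 0) +
        (if (x.1 : ℤ) ∣ x.2.1 * q - 1 then 1 / (q : ℚ) - 1 / ((q : ℚ) + x.2.2⁻¹) else 0)))

/-- TINV: the sum of the functions of `x` and of its inverse depends only on `(Δ, c)`. -/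
def TINV_Stmt : Prop :=
  ∀ (x y : Tri), x.ok → y.ok → x.1 = y.1 → x.2.1 = y.2.1 → ∀ Δ0 : ℕ, Odd Δ0 →
    ∃ L : ℕ, ∀ q : ℕ, q.Prime → L < q →
      x.T ((q : ℚ) / Δ0) + x.inv.T ((q : ℚ) / Δ0) = y.T ((q : ℚ) / Δ0) + y.inv.T ((q : ℚ) / Δ0)

/-- REC: the functions of the triples determine the measure up to the obvious relations. -/
def REC_Stmt : Prop :=
  ∀ m : Tri →₀ ℤ, (∀ x ∈ m.support, x.ok) →
    (∀ x0 ∈ m.support, ∃ L : ℕ, ∀ q : ℕ, q.Prime → L < q →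
      ∑ x ∈ m.support, (m x : ℚ) * x.T ((q : ℚ) / x0.1) = 0) →
    (∀ x : Tri, x.ok → m x = m x.inv) ∧
    ∀ p : ℕ × ℤ, ∑ x ∈ m.support.filter (fun x => (x.1, x.2.1) = p), m x = 0

/-- COMBA: the combinatorial argument, first case. -/
def COMBA_Stmt : Prop :=
  ∀ (σ : ℚ) (x0 : Tri) (X : List Tri) (σ' : ℚ) (x0' : Tri) (X' : List Tri),
    Dat σ x0 X → Dat σ' x0' X' → 3 ≤ X.length → NDT X → x0.inv = x0 →
    (∀ x : Tri, x.ok → mz x0 X x - mz x0 X x.inv = mz x0' X' x - mz x0' X' x.inv) →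
    (∀ p : ℕ × ℤ, mc x0 X p = mc x0' X' p) →
    x0 = x0' ∧ X.Perm X'

/-- COMBB: the combinatorial argument, second case, the empty site. -/
def COMBB_Stmt : Prop :=
  ∀ (σ : ℚ) (x0 : Tri) (X : List Tri) (σ' : ℚ) (x0' : Tri) (X' : List Tri),
    Dat σ x0 X → Dat σ' x0' X' → 3 ≤ X.length → x0.inv ≠ x0 →
    (∀ x : Tri, x.ok → mz x0 X x - mz x0 X x.inv = mz x0' X' x - mz x0' X' x.inv) →
    x0 = x0' ∧ σ = σ' ∧ 3 ≤ X'.length

/-- COMBC: the combinatorial argument, second case, the counting. -/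
def COMBC_Stmt : Prop :=
  ∀ (σ : ℚ) (x0 : Tri) (X : List Tri) (X' : List Tri),
    Dat σ x0 X → Dat σ x0 X' → NDT X → (X'.length ≤ X.length ∨ NDT X') → x0.inv ≠ x0 →
    (∀ x : Tri, x.ok → mz x0 X x - mz x0 X x.inv = mz x0 X' x - mz x0 X' x.inv) →
    (∀ p : ℕ × ℤ, mc x0 X p = mc x0 X' p) →
    X.Perm X'

/-- COMB: the combinatorial argument. -/
def COMB_Stmt : Prop :=
  ∀ (σ : ℚ) (x0 : Tri) (X : List Tri) (σ' : ℚ) (x0' : Tri) (X' : List Tri),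
    Dat σ x0 X → Dat σ' x0' X' → 3 ≤ X.length → NDT X → (X'.length ≤ X.length ∨ NDT X') →
    (∀ x : Tri, x.ok → mz x0 X x - mz x0 X x.inv = mz x0' X' x - mz x0' X' x.inv) →
    (∀ p : ℕ × ℤ, mc x0 X p = mc x0' X' p) →
    x0 = x0' ∧ X.Perm X'

/-- DATA: the triples of a knot in normal form, sizes and signs. -/
def DATA_Stmt : Prop :=
  ∀ (e : ℤ) (ws : List (List ℤ)), NF e ws →
    ∀ σ : ℚ, σ = (Int.sign (DD e ws) * Int.sign (totv e ws).2 : ℤ) →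
    (σ = 1 ∨ σ = -1) ∧ (tr0 e ws).ok ∧ (∀ x ∈ trs e ws, x.ok) ∧
    0 < (tr0 e ws).2.2 * σ ∧ (∀ x ∈ trs e ws, 0 < x.2.2 * σ) ∧
    (∀ x ∈ trs e ws, x.ht < (tr0 e ws).ht) ∧
    (tr0 e ws).ht = |((totv e ws).2 : ℚ)| / |(DD e ws : ℚ)| ∧
    |(tr0 e ws).2.2| * Int.gcd (DD e ws) (totv e ws).2 = |((totv e ws).2 : ℚ)| ∧
    ∀ x ∈ ws, (tri (lv e (ws.erase x)) (lastv x)).ht =
        |((totv e ws).2 : ℚ)| / (|(DD e ws : ℚ)| * ((lastv x).2 : ℚ) ^ 2) ∧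
      |(tri (lv e (ws.erase x)) (lastv x)).2.2| *
          (Int.gcd (lv e (ws.erase x)).1 (lv e (ws.erase x)).2 * ((lastv x).2 : ℚ) ^ 2) =
        |((totv e ws).2 : ℚ)|

/-- DATB: comparison with the empty site. -/
def DATB_Stmt : Prop :=
  ∀ (e : ℤ) (ws : List (List ℤ)), NF e ws →
    (∀ x ∈ trs e ws, x.inv.ht ≤ (tr0 e ws).ht ∧ (x.inv.ht = (tr0 e ws).ht → x.inv = tr0 e ws)) ∧
    ((tr0 e ws).inv.ht ≤ (tr0 e ws).ht ∧
      ((tr0 e ws).inv.ht = (tr0 e ws).ht → (tr0 e ws).inv = tr0 e ws)) ∧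
    (|(tr0 e ws).2.2| = 1 → (tr0 e ws).inv = tr0 e ws)

/-- DATC: the case of an integral total slope. -/
def DATC_Stmt : Prop :=
  ∀ (e : ℤ) (ws : List (List ℤ)), NF e ws → (tr0 e ws).inv = tr0 e ws →
    ∀ x ∈ trs e ws, |x.2.2| = 1 ∧ (tr0 e ws).1 < x.1 ∧ x.inv ≠ x

/-- DATD: at most two tangles. -/
def DATD_Stmt : Prop :=
  ∀ (e : ℤ) (ws : List (List ℤ)), NF e ws → (trs e ws).length ≤ 2 →
    ∀ x : Tri, x.ok → mz (tr0 e ws) (trs e ws) x = mz (tr0 e ws) (trs e ws) x.inv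

/-- DAT: the triples of a knot in normal form. -/
def DAT_Stmt : Prop :=
  ∀ (e : ℤ) (ws : List (List ℤ)), NF e ws →
    Dat (Int.sign (DD e ws) * Int.sign (totv e ws).2 : ℤ) (tr0 e ws) (trs e ws)

/-- NDG: nondegenerate knots have nondegenerate triples. -/
def NDG_Stmt : Prop :=
  ∀ (e : ℤ) (ws : List (List ℤ)), NF e ws → ND e ws → NDT (trs e ws)

/-- LAT: the triple and `|p|` determine `A` modulo `p`. -/
def LAT_Stmt : Prop :=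
  ∀ l V l' V' : ℤ × ℤ, IsCoprime V.1 V.2 → Odd (det2 l V) → l.2 ≠ 0 → V.2 ≠ 0 →
    IsCoprime V'.1 V'.2 → Odd (det2 l' V') → l'.2 ≠ 0 → V'.2 ≠ 0 →
    tri l V = tri l' V' → |V.2| = |V'.2| →
    ∃ s : ℤ, (s = 1 ∨ s = -1) ∧ V'.2 = s * V.2 ∧ V.2 ∣ V'.1 - s * V.1

/-- PLIFT: lifting of a permutation of the triples. -/
def PLIFT_Stmt : Prop :=
  (∀ (α β : Type) (f : α → β) (l : List α) (m : List β), m.Perm (l.map f) →
    ∃ l' : List α, l'.Perm l ∧ l'.map f = m) ∧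
  (∀ (e : ℤ) (ws ws' : List (List ℤ)), ws.Perm ws' → ∀ x : List ℤ,
    tri (lv e (ws.erase x)) (lastv x) = tri (lv e (ws'.erase x)) (lastv x)) ∧
  (∀ (e : ℤ) (ws ws' : List (List ℤ)), ws.Perm ws' → (trs e ws).Perm (trs e ws') ∧
    tr0 e ws = tr0 e ws')

/-- FINR: recovery of the data from the triples. -/
def FINR_Stmt : Prop :=
  ∀ (e : ℤ) (ws : List (List ℤ)) (e' : ℤ) (ws' : List (List ℤ)), NF e ws → NF e' ws' →
    tr0 e ws = tr0 e' ws' → (trs e ws).Perm (trs e' ws') → e = e' ∧ ws.Perm ws'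

/-- MEAS: from the identity of the limit functions to the identity of the measures. -/
def MEAS_Stmt : Prop :=
  ∀ (e : ℤ) (ws : List (List ℤ)) (e' : ℤ) (ws' : List (List ℤ)), NF e ws → NF e' ws' →
    PhiEq e ws e' ws' →
    (∀ x : Tri, x.ok → mz (tr0 e ws) (trs e ws) x - mz (tr0 e ws) (trs e ws) x.inv =
      mz (tr0 e' ws') (trs e' ws') x - mz (tr0 e' ws') (trs e' ws') x.inv) ∧
    ∀ p : ℕ × ℤ, mc (tr0 e ws) (trs e ws) p = mc (tr0 e' ws') (trs e' ws') p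

/-- RECM: the limit function determines a nondegenerate Montesinos knot. -/
def RECM_Stmt : Prop :=
  ∀ (e : ℤ) (ws : List (List ℤ)) (e' : ℤ) (ws' : List (List ℤ)), NF e ws → NF e' ws' →
    3 ≤ ws.length → ND e ws → (ws'.length ≤ ws.length ∨ ND e' ws') →
    PhiEq e ws e' ws' → e = e' ∧ ws.Perm ws'

end Pool.Agent.MTR
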