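import Pool.Agent.MTR.Stmts

/-!
SITE: the triple of a site (backup version).
-/

open scoped BigOperators

namespace Pool.Agent.MTR

open Pool.Agent.TB

theorem siteB : SITE_Stmt := by
  rintro ⟨B, Q⟩ ⟨A, p⟩ hco hodd hQ hp
  simp only at hco hQ hp
  have hD0 : det2 (B, Q) (A, p) ≠ 0 := by
    intro h
    rw [h] at hodd
    simp at hodd
  have hg : 0 < Int.gcd B Q := Int.gcd_pos_of_ne_zero_right _ hQ
  obtain ⟨b, hb⟩ : ((Int.gcd B Q : ℕ) : ℤ) ∣ B := Int.gcd_dvd_left _ _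
  obtain ⟨q, hq⟩ : ((Int.gcd B Q : ℕ) : ℤ) ∣ Q := Int.gcd_dvd_right _ _
  set g : ℕ := Int.gcd B Q with hgdef
  have hg0 : (g : ℤ) ≠ 0 := by exact_mod_cast hg.ne'
  have hbq : ∃ r s : ℤ, b * r + q * s = 1 := by
    refine ⟨Int.gcdA B Q, Int.gcdB B Q, ?_⟩
    have h := Int.gcd_eq_gcd_ab B Q
    rw [← hgdef] at h
    apply mul_left_cancel₀ hg0
    calc (g : ℤ) * (b * Int.gcdA B Q + q * Int.gcdB B Q) =
        ((g : ℤ) * b) * Int.gcdA B Q + ((g : ℤ) * q) * Int.gcdB B Q := by ring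
      _ = B * Int.gcdA B Q + Q * Int.gcdB B Q := by rw [← hb, ← hq]
      _ = (g : ℤ) * 1 := by rw [← h]; ring
  set D : ℤ := det2 (B, Q) (A, p) with hD
  have hDg : D = g * (b * p - q * A) := by
    rw [hD]
    show B * p - Q * A = _
    rw [hb, hq]
    ring
  set E : ℤ := b * p - q * A with hE
  have hE0 : E ≠ 0 := by
    intro h
    rw [h, mul_zero] at hDg
    exact hD0 hDg
  have habs : D.natAbs = g * E.natAbs := by
    rw [hDg, Int.natAbs_mul, Int.natAbs_natCast]
  have hDel : D.natAbs / g = E.natAbs := by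
    rw [habs, Nat.mul_div_cancel_left _ hg]
  have hsD : Int.sign D * Int.sign D = 1 := by
    rcases lt_or_gt_of_ne hD0 with h | h
    · rw [Int.sign_eq_neg_one_of_neg h]; norm_num
    · rw [Int.sign_eq_one_of_pos h]; norm_num
  have hsE : Int.sign D * E = (E.natAbs : ℤ) := by
    have h1 : Int.sign D = Int.sign E := by
      rw [hDg, Int.sign_mul, Int.sign_natCast_of_ne_zero hg.ne', one_mul]
    rw [h1, Int.sign_mul_self_eq_abs, Int.natCast_natAbs]
  -- the base vector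
  set R0 : ℤ × ℤ := (Int.gcdA p A, -Int.gcdB p A) with hR0
  have hR1 : det2 R0 (A, p) = 1 := by
    have h1 : Int.gcd p A = 1 := Int.isCoprime_iff_gcd_eq_one.1 hco.symm
    have h2 := Int.gcd_eq_gcd_ab p A
    rw [h1] at h2
    show Int.gcdA p A * p - -Int.gcdB p A * A = 1
    push_cast at h2
    linarith
  have hdl : ∀ R : ℤ × ℤ, det2 (B, Q) R = g * (b * R.2 - q * R.1) := by
    intro R
    show B * R.2 - Q * R.1 = _
    rw [hb, hq]
    ring
  set w0 : ℤ := Int.sign D * (b * R0.2 - q * R0.1) with hw0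
  have hquot : Int.sign D * det2 (B, Q) R0 / (g : ℤ) = w0 := by
    rw [hdl, hw0]
    rw [show Int.sign D * ((g : ℤ) * (b * R0.2 - q * R0.1)) =
      (g : ℤ) * (Int.sign D * (b * R0.2 - q * R0.1)) by ring]
    exact Int.mul_ediv_cancel_left _ hg0
  have htri : tri (B, Q) (A, p) = (E.natAbs, w0 % (E.natAbs : ℤ),
      (Int.sign D : ℚ) * Q / (g * p)) := by
    show (D.natAbs / g, (Int.sign D * det2 (B, Q) R0 / (g : ℤ)) % ((D.natAbs / g : ℕ) : ℤ),
      (Int.sign D : ℚ) * Q / (g * p)) = _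
    rw [hDel, hquot]
  have hpos : (0 : ℤ) < E.natAbs := by
    have := Int.natAbs_pos.2 hE0
    exact_mod_cast this
  have hlat : ∀ u w : ℤ, (E.natAbs : ℤ) ∣ w - (w0 % (E.natAbs : ℤ)) * u ↔
      ∃ R : ℤ × ℤ, det2 R (A, p) = u ∧ Int.sign D * det2 (B, Q) R = g * w := by
    intro u w
    have hmod : (E.natAbs : ℤ) ∣ w - (w0 % (E.natAbs : ℤ)) * u ↔ (E.natAbs : ℤ) ∣ w - w0 * u := by
      have h1 : (E.natAbs : ℤ) ∣ (w - (w0 % (E.natAbs : ℤ)) * u) - (w - w0 * u) := by
        have h2 := Int.emod_add_mul_ediv w0 (E.natAbs : ℤ)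
        refine ⟨w0 / (E.natAbs : ℤ) * u, ?_⟩
        linear_combination (-u) * h2
      exact dvd_iff_dvd_of_dvd_sub h1
    rw [hmod]
    constructor
    · rintro ⟨z, hz⟩
      refine ⟨(u * R0.1 + z * A, u * R0.2 + z * p), ?_, ?_⟩
      · have : det2 R0 (A, p) = R0.1 * p - R0.2 * A := rfl
        show (u * R0.1 + z * A) * p - (u * R0.2 + z * p) * A = u
        rw [this] at hR1
        linear_combination u * hR1
      · rw [hdl]
        show Int.sign D * ((g : ℤ) * (b * (u * R0.2 + z * p) - q * (u * R0.1 + z * A))) = g * w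
        have h3 : w = w0 * u + E.natAbs * z := by linarith
        rw [h3, hw0, ← hsE, hE]
        ring
    · rintro ⟨R, h1, h2⟩
      rw [hdl] at h2
      have h3 : Int.sign D * (b * R.2 - q * R.1) = w := by
        apply mul_left_cancel₀ hg0
        linear_combination h2
      have h4 : R.1 * p - R.2 * A = u := h1
      have h5 : R0.1 * p - R0.2 * A = 1 := hR1
      have h6 : (R.1 - u * R0.1) * p = (R.2 - u * R0.2) * A := by
        linear_combination h4 - u * h5
      obtain ⟨r, t, hrt⟩ := hco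
      have e1 : R.1 = u * R0.1 + A * (r * (R.1 - u * R0.1) + t * (R.2 - u * R0.2)) := by
        linear_combination (-(R.1 - u * R0.1)) * hrt + t * h6
      have e2 : R.2 = u * R0.2 + (r * (R.1 - u * R0.1) + t * (R.2 - u * R0.2)) * p := by
        linear_combination (-(R.2 - u * R0.2)) * hrt - r * h6
      set z := r * (R.1 - u * R0.1) + t * (R.2 - u * R0.2) with hz
      refine ⟨z, ?_⟩
      rw [← hsE, hE, ← h3, hw0]
      rw [e1, e2]
      ring
  have h1 : (tri (B, Q) (A, p)).1 = E.natAbs := by rw [htri]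
  have h2 : (tri (B, Q) (A, p)).2.1 = w0 % (E.natAbs : ℤ) := by rw [htri]
  have h3 : (tri (B, Q) (A, p)).2.2 = (Int.sign D : ℚ) * Q / (g * p) := by rw [htri]
  refine ⟨⟨?_, ?_, ?_, ?_, ?_⟩, hg, ?_, ?_⟩
  · rw [h1]
    have h4 : Odd D.natAbs := Int.natAbs_odd.2 hodd
    rw [habs] at h4
    exact (Nat.odd_mul.1 h4).2
  · rw [h2]; exact Int.emod_nonneg _ hpos.ne'
  · rw [h1, h2]; exact Int.emod_lt_of_pos _ hpos
  · rw [h1, h2]
    obtain ⟨r, t, hrt⟩ := hbq
    have h4 : (E.natAbs : ℤ) ∣ 1 - (w0 % (E.natAbs : ℤ)) *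
        det2 (-(Int.sign D * t), Int.sign D * r) (A, p) := by
      rw [hlat]
      refine ⟨(-(Int.sign D * t), Int.sign D * r), rfl, ?_⟩
      rw [hdl]
      show Int.sign D * ((g : ℤ) * (b * (Int.sign D * r) - q * (-(Int.sign D * t)))) = g * 1
      linear_combination ((g : ℤ) * (b * r + q * t)) * hsD + (g : ℤ) * hrt
    obtain ⟨k, hk⟩ := h4
    exact ⟨det2 (-(Int.sign D * t), Int.sign D * r) (A, p), k, by linear_combination -hk⟩
  · rw [h3]
    have h5 : (Int.sign D : ℚ) ≠ 0 := by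
      intro h
      have h6 : Int.sign D = 0 := by exact_mod_cast h
      rw [h6] at hsD
      norm_num at hsD
    have h6 : (Q : ℚ) ≠ 0 := by exact_mod_cast hQ
    have h7 : (g : ℚ) ≠ 0 := by exact_mod_cast hg.ne'
    have h8 : (p : ℚ) ≠ 0 := by exact_mod_cast hp
    exact div_ne_zero (mul_ne_zero h5 h6) (mul_ne_zero h7 h8)
  · rw [h1]
    show E.natAbs * g = D.natAbs
    rw [habs, mul_comm]
  · intro u w
    rw [h1, h2]
    exact hlat u w

end Pool.Agent.MTR
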