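import Pool.Agent.MTR.Stmts

/-!
Montesinos knots, recovery part: module ADV. Elementary facts on `totv`.
-/

set_option autoImplicit false

namespace Pool.Agent.MTR.ADV

open Pool.Agent.TB

theorem addv_left_comm (u v w : ℤ × ℤ) : addv u (addv v w) = addv v (addv u w) := by
  unfold addv
  ext
  · simp only
    ring
  · simp only
    ring

theorem totv_cons (e : ℤ) (x : List ℤ) (rest : List (List ℤ)) :
    totv e (x :: rest) = addv (lastv x) (totv e rest) := rfl

theorem totv_nil (e : ℤ) : totv e [] = (-e, 1) := rfl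

theorem totv_perm (e : ℤ) {ws ws' : List (List ℤ)} (h : ws.Perm ws') :
    totv e ws = totv e ws' := by
  induction h with
  | nil => rfl
  | cons x _ ih => rw [totv_cons, totv_cons, ih]
  | swap x y l => rw [totv_cons, totv_cons, totv_cons, totv_cons, addv_left_comm]
  | trans _ _ ih1 ih2 => exact ih1.trans ih2

theorem det_cons (e : ℤ) (x : List ℤ) (rest : List (List ℤ)) :
    det2 (lv e rest) (lastv x) = DD e (x :: rest) := by
  unfold DD lv det2
  rw [totv_cons]
  unfold addv
  simp only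
  ring

theorem det_zero (e : ℤ) (rest : List (List ℤ)) : det2 (lv e rest) (0, 1) = DD e rest := by
  unfold DD lv det2
  simp only
  ring

theorem totv_snd (e : ℤ) (ws : List (List ℤ)) :
    (totv e ws).2 = (ws.map fun x => (lastv x).2).prod := by
  induction ws with
  | nil => rfl
  | cons x ws ih =>
    rw [totv_cons, List.map_cons, List.prod_cons, ← ih]
    rfl

theorem totv_fst (e : ℤ) (ws : List (List ℤ)) (h : ∀ x ∈ ws, (lastv x).2 ≠ 0) :
    ((totv e ws).1 : ℚ) = (totv e ws).2 *
      (-(e : ℚ) + (ws.map fun x => ((lastv x).1 : ℚ) / (lastv x).2).sum) := by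
  induction ws with
  | nil =>
    rw [totv_nil]
    simp
  | cons x ws ih =>
    have hx : (lastv x).2 ≠ 0 := h x List.mem_cons_self
    have hx' : ((lastv x).2 : ℚ) ≠ 0 := by exact_mod_cast hx
    have ih' := ih (fun y hy => h y (List.mem_cons_of_mem _ hy))
    rw [totv_cons, List.map_cons, List.sum_cons]
    unfold addv
    simp only
    push_cast
    rw [ih']
    field_simp
    ring

theorem even_list (hn : CHNO_Stmt) (e : ℤ) (ws : List (List ℤ))
    (h : ∀ x ∈ ws, Even x.length) :
    Odd (totv e ws).2 ∧ (Odd e → Odd (totv e ws).1) ∧ (Even e → Even (totv e ws).1) := by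
  induction ws with
  | nil =>
    rw [totv_nil]
    refine ⟨odd_one, fun he => he.neg, fun he => he.neg⟩
  | cons x ws ih =>
    obtain ⟨i1, i2, i3⟩ := ih (fun y hy => h y (List.mem_cons_of_mem _ hy))
    obtain ⟨_, h1, _, _⟩ := hn x
    obtain ⟨a1, a2⟩ := h1 (h x List.mem_cons_self)
    rw [totv_cons]
    unfold addv
    simp only
    refine ⟨a2.mul i1, fun he => ?_, fun he => ?_⟩
    · exact (a1.mul_right _).add_odd ((i2 he).mul a2)
    · exact (a1.mul_right _).add ((i3 he).mul_right _)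

theorem snd_ne (hn : CHNO_Stmt) (x : List ℤ) (h : x ≠ [] ∧ ∀ a ∈ x, a ≠ 0) :
    (lastv x).2 ≠ 0 := by
  obtain ⟨_, _, _, h4⟩ := hn x
  obtain ⟨_, h5⟩ := h4 h.2
  intro h0
  have := h5 h.1
  rw [h0] at this
  norm_num at this

theorem totv_snd_ne (hn : CHNO_Stmt) (e : ℤ) (ws : List (List ℤ))
    (h : ∀ x ∈ ws, x ≠ [] ∧ ∀ a ∈ x, a ≠ 0) : (totv e ws).2 ≠ 0 := by
  rw [totv_snd]
  intro h0
  rw [List.prod_eq_zero_iff, List.mem_map] at h0
  obtain ⟨x, hx, hx0⟩ := h0
  exact snd_ne hn x (h x hx) hx0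

theorem odd_DD (hn : CHNO_Stmt) (e : ℤ) (ws : List (List ℤ)) (h : NF e ws) : Odd (DD e ws) := by
  unfold DD
  rw [odd_neg]
  obtain ⟨_, ⟨he, h1⟩ | ⟨he, h1⟩⟩ := h
  · exact (even_list hn e ws h1).2.1 he
  · have hpos : 0 < ws.countP (fun x => decide (x.length % 2 = 1)) := by omega
    rw [List.countP_pos_iff] at hpos
    obtain ⟨x, hx, hxo⟩ := hpos
    have hp : ws.Perm (x :: ws.erase x) := List.perm_cons_erase hx
    have hc := hp.countP_eq (fun x => decide (x.length % 2 = 1))
    rw [h1, List.countP_cons, if_pos hxo] at hc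
    have hc0 : (ws.erase x).countP (fun x => decide (x.length % 2 = 1)) = 0 := by omega
    rw [List.countP_eq_zero] at hc0
    have hev : ∀ y ∈ ws.erase x, Even y.length := by
      intro y hy
      have h2 := hc0 y hy
      rw [Nat.even_iff]
      have h3 : ¬ (y.length % 2 = 1) := fun h4 => h2 (decide_eq_true h4)
      omega
    have hxo' : Odd x.length := by
      rw [Nat.odd_iff]
      exact of_decide_eq_true hxo
    obtain ⟨i1, _, i3⟩ := even_list hn e (ws.erase x) hev
    obtain ⟨_, _, h2, _⟩ := hn x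
    obtain ⟨a1, a2⟩ := h2 hxo'
    rw [totv_perm e hp, totv_cons]
    unfold addv
    simp only
    exact (a1.mul i1).add_even ((i3 he).mul_right _)

end Pool.Agent.MTR.ADV

namespace Pool.Agent.MTR

open Pool.Agent.TB

theorem adv (hn : CHNO_Stmt) : ADV_Stmt := by
  refine ⟨fun e ws ws' h => ADV.totv_perm e h,
    fun e x rest => ⟨ADV.totv_cons e x rest, ADV.det_cons e x rest, ADV.det_zero e rest⟩,
    ADV.totv_snd, ADV.totv_fst, ?_⟩
  intro e ws h
  refine ⟨ADV.odd_DD hn e ws h, ADV.totv_snd_ne hn e ws h.1, ?_⟩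
  intro x hx
  have hp : ws.Perm (x :: ws.erase x) := List.perm_cons_erase hx
  refine ⟨hp, ?_, ?_, ADV.snd_ne hn x (h.1 x hx), (hn x).1⟩
  · rw [ADV.det_cons]
    unfold DD
    rw [ADV.totv_perm e hp]
  · unfold lv
    exact ADV.totv_snd_ne hn e (ws.erase x) (fun y hy => h.1 y (List.mem_of_mem_erase hy))

end Pool.Agent.MTR
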