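import Pool.Agent.MTR.Stmts
import Pool.Agent.TB.Cfu

/-!
# Module MTR_CFUO: uniqueness of the even continued fraction, both parities of the length

For even lengths this is `Pool.Agent.TB.cfu`. The same induction, with the base
`lastv [a] = (1, 2 a)`, proves the statement for odd lengths.
-/

namespace Pool.Agent.MTR

open Pool.Agent.TB

namespace CFUO

theorem lastv_one (a : ℤ) : lastv [a] = (1, 2 * a) := by
  simp [lastv, chain]

theorem lt_all : ∀ x : List ℤ, (∀ a ∈ x, a ≠ 0) → |(lastv x).1| < |(lastv x).2|
  | [], _ => by simp [CFU.lastv_nil]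
  | [a], h0 => by
      have h1 : 1 ≤ |a| := Int.one_le_abs (h0 a (by simp))
      rw [lastv_one]
      simp only [abs_one, abs_mul]
      norm_num
      linarith
  | a :: b :: l, h0 => by
      have ih := lt_all l (fun c hc => h0 c (by simp [hc]))
      rw [CFU.lastv_cons2]
      exact CFU.grow' a _ _ (h0 a (by simp)) (CFU.grow b _ _ (h0 b (by simp)) ih)

/-- a word with one letter and a longer one of odd length -/
theorem one_cons2 (a a' b' : ℤ) (l' : List ℤ) (h0' : ∀ c ∈ a' :: b' :: l', c ≠ 0)
    (e : (lastv [a]).1 * (lastv (a' :: b' :: l')).2 =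
      (lastv (a' :: b' :: l')).1 * (lastv [a]).2) : False := by
  have ih' := lt_all l' (fun c hc => h0' c (by simp [hc]))
  have g' := CFU.grow b' _ _ (h0' b' (by simp)) ih'
  rw [CFU.lastv_cons2, lastv_one] at e
  simp only at e
  have ea : a = a' := by
    refine CFU.eq_of_small a a' 1 _ 0 _ (by simp) g' ?_
    linear_combination e
  subst ea
  have hd : (lastv l').2 = 0 := by linear_combination e
  rw [hd, abs_zero] at ih'
  exact absurd ih' (not_lt.2 (abs_nonneg _))

theorem main : ∀ x y : List ℤ, (Even x.length ↔ Even y.length) → (∀ a ∈ x, a ≠ 0) →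
    (∀ a ∈ y, a ≠ 0) → (lastv x).1 * (lastv y).2 = (lastv y).1 * (lastv x).2 → x = y
  | [], [], _, _, _, _ => rfl
  | [], [_], h, _, _, _ => by simp at h
  | [_], [], h, _, _, _ => by simp at h
  | [], a :: b :: l, h, h0, h0', e => by
      have h1 : Even (a :: b :: l).length := h.1 (by simp)
      exact CFU.main [] (a :: b :: l) (by simp) h1 h0 h0' e
  | a :: b :: l, [], h, h0, h0', e => by
      have h1 : Even (a :: b :: l).length := h.2 (by simp)
      exact CFU.main (a :: b :: l) [] h1 (by simp) h0 h0' e
  | [a], [a'], _, _, _, e => by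
      rw [lastv_one, lastv_one] at e
      simp only [one_mul] at e
      have : a = a' := by linarith
      rw [this]
  | [a], a' :: b' :: l', _, _, h0', e => (one_cons2 a a' b' l' h0' e).elim
  | a' :: b' :: l', [a], _, h0', _, e =>
      (one_cons2 a a' b' l' h0' (by linear_combination (-1 : ℤ) * e)).elim
  | a :: b :: l, a' :: b' :: l', h, h0, h0', e => by
      have hl : Even l.length ↔ Even l'.length := by
        simp only [List.length_cons] at h
        constructor
        · rintro ⟨k, hk⟩
          obtain ⟨m, hm⟩ := h.1 ⟨k + 1, by omega⟩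
          exact ⟨m - 1, by omega⟩
        · rintro ⟨k, hk⟩
          obtain ⟨m, hm⟩ := h.2 ⟨k + 1, by omega⟩
          exact ⟨m - 1, by omega⟩
      have ih := lt_all l (fun c hc => h0 c (by simp [hc]))
      have ih' := lt_all l' (fun c hc => h0' c (by simp [hc]))
      have g := CFU.grow b _ _ (h0 b (by simp)) ih
      have g' := CFU.grow b' _ _ (h0' b' (by simp)) ih'
      rw [CFU.lastv_cons2, CFU.lastv_cons2] at e
      simp only at e
      have ea : a = a' := by
        refine CFU.eq_of_small a a' _ _ _ _ g g' ?_
        linear_combination e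
      subst ea
      have eb : b' = b := by
        refine CFU.eq_of_small b' b _ _ _ _ ih ih' ?_
        linear_combination (-1 : ℤ) * e
      subst eb
      have el : l = l' := by
        refine main l l' hl (fun c hc => h0 c (by simp [hc]))
          (fun c hc => h0' c (by simp [hc])) ?_
        linear_combination e
      rw [el]

end CFUO

theorem cfuo (_hn : CHNO_Stmt) : CFUO_Stmt := CFUO.main

end Pool.Agent.MTR
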