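import Pool.Agent.MTR.Stmts
import Pool.Agent.TB.Chn

/-!
Montesinos knots, recovery part: the vector of a word (CHNO).
-/

namespace Pool.Agent.MTR

open Pool.Agent.TB

namespace CHNO

/-- the vector of a word is primitive -/
lemma coprime (x : List ℤ) : IsCoprime (lastv x).1 (lastv x).2 := by
  have h := CHN.det_chain x x.length
  have h' : (chain x x.length).1 * (lastv x).2 - (chain x x.length).2 * (lastv x).1 =
      (-1) ^ x.length := h
  have hε : ((-1 : ℤ) ^ x.length) * (-1) ^ x.length = 1 := by
    rw [← mul_pow]; simp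
  refine ⟨-((-1) ^ x.length * (chain x x.length).2), (-1) ^ x.length * (chain x x.length).1, ?_⟩
  linear_combination ((-1 : ℤ) ^ x.length) * h' + hε

/-- for a nonempty word with nonzero letters the second coordinate is at least two -/
lemma two_le (x : List ℤ) (hx : ∀ a ∈ x, a ≠ 0) (hne : x ≠ []) : 2 ≤ |(lastv x).2| := by
  have hlen : 0 < x.length := List.length_pos_iff.2 hne
  obtain ⟨k, hk⟩ : ∃ k, x.length = k + 1 := ⟨x.length - 1, by omega⟩
  have h1 := (CHN.growth x hx k (by omega)).1
  have h2 : |(chain x x.length).2| < |(lastv x).2| := (CHN.growth x hx x.length le_rfl).1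
  rw [hk] at h2
  have h3 : 0 ≤ |(chain x k).2| := abs_nonneg _
  omega

end CHNO

theorem chno : CHNO_Stmt := by
  intro x
  refine ⟨CHNO.coprime x, fun h => CHN.par_odd x _ h.add_one, fun h => CHN.par_even x _ h.add_one,
    fun hx => ⟨(CHN.growth x hx x.length le_rfl).2, CHNO.two_le x hx⟩⟩

end Pool.Agent.MTR
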