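import Pool.Agent.MTR.Stmts

/-!
Montesinos knots, recovery part: the combinatorial argument, first case (the empty site is its own
inverse). See PAPER.md, section 6.
-/

namespace Pool.Agent.MTR

namespace COMBA

theorem mem_of_mz {x0 : Tri} {X : List Tri} {x : Tri} (h : mz x0 X x ≠ 0) : x ∈ X ∨ x = x0 := by
  by_contra hc
  push Not at hc
  apply h
  unfold mz
  rw [if_neg hc.2, List.count_eq_zero_of_not_mem hc.1]
  simp

theorem not_mem_x0 {σ : ℚ} {x0 : Tri} {X : List Tri} (D : Dat σ x0 X) : x0 ∉ X := fun h =>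
  lt_irrefl _ (D.lt x0 h)

theorem inv_not_mem {X : List Tri} (hX : NDT X) {x : Tri} (hx : x ∈ X) (hne : x.inv ≠ x)
    (hii : x.inv.inv = x) : x.inv ∉ X := by
  intro hm
  have h1 : X.Perm (x :: X.erase x) := List.perm_cons_erase hx
  have h2 : x.inv ∈ X.erase x := (List.mem_erase_of_ne hne).2 hm
  have h3 : (X.erase x).Perm (x.inv :: (X.erase x).erase x.inv) := List.perm_cons_erase h2
  exact hX x x.inv _ (h1.trans (h3.cons x)) hii.symm

theorem abs_one_of_inv {x0 : Tri} (h : x0.inv = x0) (hok : x0.ok) : |x0.2.2| = 1 := by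
  have h1 : x0.2.2⁻¹ = x0.2.2 := congrArg (fun y : Tri => y.2.2) h
  have h0 : x0.2.2 ≠ 0 := hok.2.2.2.2
  have h2 : x0.2.2 * x0.2.2 = 1 := by
    nth_rewrite 1 [← h1]
    exact inv_mul_cancel₀ h0
  have h3 : |x0.2.2| * |x0.2.2| = 1 := by rw [← abs_mul, h2, abs_one]
  nlinarith [abs_nonneg x0.2.2]

theorem eq_sigma {σ ρ : ℚ} (hσ : σ = 1 ∨ σ = -1) (h : 0 < ρ * σ) (h1 : |ρ| = 1) : ρ = σ := by
  rcases abs_eq (zero_le_one) |>.1 h1 with h2 | h2 <;> rcases hσ with h3 | h3
  · rw [h2, h3]
  · rw [h2, h3] at h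
    norm_num at h
  · rw [h2, h3] at h
    norm_num at h
  · rw [h2, h3]

theorem all_one {σ : ℚ} {x0 : Tri} {X : List Tri} (D : Dat σ x0 X) (h : x0.inv = x0) {x : Tri}
    (hx : x ∈ X ∨ x = x0) : |x.2.2| = 1 := by
  rcases hx with hx | hx
  · exact (D.int h x hx).1
  · subst hx
    exact abs_one_of_inv h D.ok0

theorem all_sgn {σ : ℚ} {x0 : Tri} {X : List Tri} (D : Dat σ x0 X) {x : Tri}
    (hx : x ∈ X ∨ x = x0) : 0 < x.2.2 * σ := by
  rcases hx with hx | hx
  · exact D.sgn x hx
  · subst hx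
    exact D.sgn0

theorem all_sigma {σ : ℚ} {x0 : Tri} {X : List Tri} (D : Dat σ x0 X) (h : x0.inv = x0) {x : Tri}
    (hx : x ∈ X ∨ x = x0) : x.2.2 = σ :=
  eq_sigma D.hσ (all_sgn D hx) (all_one D h hx)

/-- if all `ρ` are `σ`, the multiplicity of a triple is that of its class -/
theorem mz_eq_mc {σ : ℚ} {x0 : Tri} {X : List Tri} (D : Dat σ x0 X) (h : x0.inv = x0) {x : Tri}
    (hx : x.2.2 = σ) : mz x0 X x = mc x0 X (x.1, x.2.1) := by
  unfold mz mc
  have h1 : X.count x = X.countP (fun y => decide ((y.1, y.2.1) = (x.1, x.2.1))) := by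
    rw [List.count]
    apply List.countP_congr
    intro y hy
    have hy2 : y.2.2 = σ := all_sigma D h (Or.inl hy)
    simp only [beq_iff_eq, decide_eq_true_eq, Prod.mk.injEq]
    constructor
    · rintro rfl
      exact ⟨rfl, rfl⟩
    · rintro ⟨a, b⟩
      exact Prod.ext a (Prod.ext b (hy2.trans hx.symm))
  rw [h1]
  congr 1
  have h2 : (x = x0) ↔ (x0.1, x0.2.1) = (x.1, x.2.1) := by
    have h02 : x0.2.2 = σ := all_sigma D h (Or.inr rfl)
    simp only [Prod.mk.injEq]
    constructor
    · rintro rfl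
      exact ⟨rfl, rfl⟩
    · rintro ⟨a, b⟩
      exact Prod.ext a.symm (Prod.ext b.symm (hx.trans h02.symm))
  by_cases hc : x = x0
  · rw [if_pos hc, if_pos (h2.1 hc)]
  · rw [if_neg hc, if_neg (fun hh => hc (h2.2 hh))]

end COMBA

open COMBA in
theorem comba (hi : INVO_Stmt) : COMBA_Stmt := by
  intro σ x0 X σ' x0' X' D D' hN hX h0 hz hc
  -- the value at an element of `X`
  have ha : ∀ x ∈ X, 0 < mz x0 X x - mz x0 X x.inv := by
    intro x hx
    have hok := D.ok x hx
    obtain ⟨_, hii, hfst, _⟩ := hi x hok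
    obtain ⟨_, hlt, hne⟩ := D.int h0 x hx
    have h1 : x ≠ x0 := by
      rintro rfl
      exact lt_irrefl _ hlt
    have h2 : x.inv ≠ x0 := by
      intro h
      have : x.inv.1 = x0.1 := congrArg (fun y : Tri => y.1) h
      rw [hfst] at this
      omega
    have h3 : x.inv ∉ X := inv_not_mem hX hx hne hii
    have h4 : 0 < X.count x := List.count_pos_iff.2 hx
    unfold mz
    rw [if_neg h1, if_neg h2, List.count_eq_zero_of_not_mem h3]
    simp only [Nat.cast_zero, sub_zero]
    exact_mod_cast h4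
  obtain ⟨z, hz1⟩ : ∃ z, z ∈ X := List.exists_mem_of_length_pos (by omega)
  have haz := ha z hz1
  have hokz := D.ok z hz1
  rw [hz z hokz] at haz
  have hN' : 3 ≤ X'.length := by
    by_contra hcon
    have := D'.small (by omega) z hokz
    rw [this, sub_self] at haz
    exact lt_irrefl _ haz
  -- the empty site of the second knot is its own inverse
  have h0' : x0'.inv = x0' := by
    by_contra hne
    have hok' := D'.ok0
    obtain ⟨hokinv, hii, _, hrho, _⟩ := hi x0' hok'
    have h1 : mz x0' X' x0' - mz x0' X' x0'.inv < 0 := by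
      unfold mz
      rw [if_pos rfl, if_neg hne, List.count_eq_zero_of_not_mem (not_mem_x0 D')]
      have : (3 : ℤ) ≤ X'.length := by exact_mod_cast hN'
      have h2 : (0 : ℤ) ≤ (X'.count x0'.inv : ℤ) := Int.natCast_nonneg _
      simp only [Nat.cast_zero]
      linarith
    rw [← hz x0' hok'] at h1
    have h2 : mz x0 X x0' ≠ 0 ∨ mz x0 X x0'.inv ≠ 0 := by
      by_contra hcon
      push Not at hcon
      rw [hcon.1, hcon.2] at h1
      simp at h1
    apply hne
    apply D'.one
    rcases h2 with h2 | h2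
    · exact all_one D h0 (mem_of_mz h2)
    · have h3 := all_one D h0 (mem_of_mz h2)
      rw [hrho, abs_inv, inv_eq_one] at h3
      exact h3
  -- the signs agree
  have hσσ : σ = σ' := by
    obtain ⟨_, _, _, hrho, _⟩ := hi z hokz
    have h2 : mz x0' X' z ≠ 0 ∨ mz x0' X' z.inv ≠ 0 := by
      by_contra hcon
      push Not at hcon
      rw [hcon.1, hcon.2] at haz
      simp at haz
    have hzσ : z.2.2 = σ := all_sigma D h0 (Or.inl hz1)
    rcases h2 with h2 | h2
    · rw [← hzσ]
      exact all_sigma D' h0' (mem_of_mz h2)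
    · have h3 := all_sigma D' h0' (mem_of_mz h2)
      rw [hrho, hzσ] at h3
      rcases D.hσ with h4 | h4
      · rw [h4] at h3 ⊢
        rw [← h3]
        norm_num
      · rw [h4] at h3 ⊢
        rw [← h3]
        norm_num
  subst hσσ
  have hmz : ∀ x : Tri, x.2.2 = σ → mz x0 X x = mz x0' X' x := by
    intro x hx
    rw [mz_eq_mc D h0 hx, mz_eq_mc D' h0' hx, hc]
  have hx0σ : x0.2.2 = σ := all_sigma D h0 (Or.inr rfl)
  have hN3 : (3 : ℤ) ≤ X.length := by exact_mod_cast hN
  have hx00 : x0 = x0' := by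
    by_contra hne
    have h1 := hmz x0 hx0σ
    unfold mz at h1
    rw [if_pos rfl, if_neg hne, List.count_eq_zero_of_not_mem (not_mem_x0 D)] at h1
    have h2 : (0 : ℤ) ≤ (X'.count x0 : ℤ) := Int.natCast_nonneg _
    simp only [Nat.cast_zero] at h1
    linarith
  subst hx00
  have hlen : (X.length : ℤ) = X'.length := by
    have h1 := hmz x0 hx0σ
    unfold mz at h1
    rw [if_pos rfl, if_pos rfl, List.count_eq_zero_of_not_mem (not_mem_x0 D),
      List.count_eq_zero_of_not_mem (not_mem_x0 D')] at h1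
    linarith
  refine ⟨rfl, List.perm_iff_count.2 fun x => ?_⟩
  by_cases hx : x.2.2 = σ
  · have h1 := hmz x hx
    unfold mz at h1
    rw [hlen] at h1
    have h2 : (X.count x : ℤ) = X'.count x := by linarith
    exact_mod_cast h2
  · rw [List.count_eq_zero_of_not_mem, List.count_eq_zero_of_not_mem]
    · intro h
      exact hx (all_sigma D' h0' (Or.inl h))
    · intro h
      exact hx (all_sigma D h0 (Or.inl h))

end Pool.Agent.MTR
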