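import Pool.Agent.MTR.Stmts

/-!
Montesinos knots, recovery part, module COMBB: the combinatorial argument, second case, the
empty site.
-/

namespace Pool.Agent.MTR

namespace COMBB

variable {σ : ℚ} {x0 y : Tri} {X : List Tri}

/-- A triple with `mz y ≠ mz y.inv` is one of the triples of the knot, or the inverse of one. -/
theorem mem_of_ne (hne : mz x0 X y - mz x0 X y.inv ≠ 0) :
    y ∈ X ∨ y.inv ∈ X ∨ y = x0 ∨ y.inv = x0 := by
  by_contra hcon
  push Not at hcon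
  obtain ⟨h1, h2, h3, h4⟩ := hcon
  apply hne
  simp only [mz, List.count_eq_zero_of_not_mem h1, List.count_eq_zero_of_not_mem h2, if_neg h3,
    if_neg h4]
  simp

theorem inv_ne (hi : INVO_Stmt) (D : Dat σ x0 X) (hy : y.ok)
    (hne : mz x0 X y - mz x0 X y.inv ≠ 0) (hy1 : |y.2.2| ≠ 1) : x0.inv ≠ x0 := by
  intro h0
  have hinv : ∀ z : Tri, z.ok → |z.inv.2.2| = 1 → |z.2.2| = 1 := by
    intro z hz h
    rw [(hi z hz).2.2.2.1, abs_inv, inv_eq_one] at h
    exact h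
  have hx0 : |x0.2.2| = 1 := by
    have h1 : x0.inv.2.2 = x0.2.2⁻¹ := (hi x0 D.ok0).2.2.2.1
    rw [h0] at h1
    have h2 : x0.2.2 ≠ 0 := D.ok0.2.2.2.2
    have h3 : x0.2.2 * x0.2.2 = 1 := by
      nth_rewrite 2 [h1]
      exact mul_inv_cancel₀ h2
    have h4 : |x0.2.2| * |x0.2.2| = 1 := by rw [← abs_mul, h3, abs_one]
    nlinarith [abs_nonneg x0.2.2]
  rcases mem_of_ne hne with h | h | h | h
  · exact hy1 (D.int h0 y h).1
  · exact hy1 (hinv y hy (D.int h0 _ h).1)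
  · exact hy1 (h ▸ hx0)
  · exact hy1 (hinv y hy (h ▸ hx0))

theorem eq_or_lt (hi : INVO_Stmt) (D : Dat σ x0 X) (hy : y.ok)
    (hne : mz x0 X y - mz x0 X y.inv ≠ 0) : y = x0 ∨ y.ht < x0.ht := by
  have hyy : y.inv.inv = y := (hi y hy).2.1
  rcases mem_of_ne hne with h | h | h | h
  · exact Or.inr (D.lt y h)
  · obtain ⟨h1, h2⟩ := D.inv_le _ h
    rw [hyy] at h1 h2
    rcases h1.lt_or_eq with h3 | h3
    · exact Or.inr h3
    · exact Or.inl (h2 h3)
  · exact Or.inl h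
  · obtain ⟨h1, h2⟩ := D.inv0
    rw [← h, hyy] at h1 h2
    rcases h1.lt_or_eq with h3 | h3
    · exact Or.inr (h ▸ h3)
    · exact Or.inl ((h2 h3).trans h)

theorem neg (D : Dat σ x0 X) (h0 : x0.inv ≠ x0) (hN : 3 ≤ X.length) :
    mz x0 X x0 - mz x0 X x0.inv < 0 := by
  have h1 : x0 ∉ X := fun h => lt_irrefl _ (D.lt x0 h)
  simp only [mz, List.count_eq_zero_of_not_mem h1, if_neg h0, if_true]
  have h2 : (0 : ℤ) ≤ (X.count x0.inv : ℤ) := Int.natCast_nonneg _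
  have h3 : (3 : ℤ) ≤ (X.length : ℤ) := by exact_mod_cast hN
  push_cast
  omega

end COMBB

open COMBB in
theorem combb (hi : INVO_Stmt) : COMBB_Stmt := by
  intro σ x0 X σ' x0' X' D D' hN h0 ha
  have h1 := neg D h0 hN
  have h1' : mz x0' X' x0 - mz x0' X' x0.inv ≠ 0 := by
    rw [← ha x0 D.ok0]
    exact h1.ne
  have hN' : 3 ≤ X'.length := by
    by_contra hlt
    apply h1'
    rw [D'.small (by omega) x0 D.ok0, sub_self]
  have h2 : |x0.2.2| ≠ 1 := fun h => h0 (D.one h)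
  have h0' : x0'.inv ≠ x0' := inv_ne hi D' D.ok0 h1' h2
  have h3 := neg D' h0' hN'
  have h3' : mz x0 X x0' - mz x0 X x0'.inv ≠ 0 := by
    rw [ha x0' D'.ok0]
    exact h3.ne
  have heq : x0 = x0' := by
    rcases eq_or_lt hi D' D.ok0 h1' with h | h
    · exact h
    · rcases eq_or_lt hi D D'.ok0 h3' with h4 | h4
      · exact h4.symm
      · exact absurd (h.trans h4) (lt_irrefl _)
  refine ⟨heq, ?_, hN'⟩
  subst heq
  have s1 := D.sgn0
  have s2 := D'.sgn0
  rcases D.hσ with h | h <;> rcases D'.hσ with h' | h' <;> rw [h] at s1 ⊢ <;> rw [h'] at s2 ⊢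
  · linarith
  · linarith

end Pool.Agent.MTR
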