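import Pool.Agent.MTR.Stmts

/-!
Montesinos knots, recovery part: the counting step of the combinatorial argument (COMBC).
-/

open scoped BigOperators

namespace Pool.Agent.MTR

namespace COMBC

/-- the difference of the multiplicities -/
def t (X X' : List Tri) (x : Tri) : ℤ := (X'.count x : ℤ) - (X.count x : ℤ)

/-- the class of a triple -/
def cl (x : Tri) : ℕ × ℤ := (x.1, x.2.1)

/-- the inverse class -/
def cinv (p : ℕ × ℤ) : ℕ × ℤ := (p.1, (((p.2 : ZMod p.1)⁻¹).val : ℤ))

theorem cl_inv (x : Tri) : cl x.inv = cinv (cl x) := rfl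

theorem countP_eq (F : Finset Tri) (q : Tri → Prop) [DecidablePred q] :
    ∀ X : List Tri, (∀ x ∈ X, x ∈ F) →
      (X.countP (fun x => decide (q x)) : ℤ) = ∑ x ∈ F.filter q, (X.count x : ℤ)
  | [], _ => by simp
  | a :: l, h => by
      have ih := countP_eq F q l (fun x hx => h x (List.mem_cons_of_mem _ hx))
      have ha : a ∈ F := h a List.mem_cons_self
      have e1 : ∀ x : Tri, (((a :: l).count x : ℕ) : ℤ)
          = (l.count x : ℤ) + if x = a then (1 : ℤ) else 0 := by
        intro x
        rw [List.count_cons]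
        by_cases hx : a = x
        · subst hx; simp
        · have hx' : ¬ x = a := fun h => hx h.symm
          simp [hx, hx']
      simp only [e1, Finset.sum_add_distrib]
      rw [List.countP_cons]
      push_cast
      rw [ih]
      congr 1
      rw [Finset.sum_ite_eq']
      by_cases hq : q a
      · simp [hq, ha]
      · simp [hq]

theorem sum_nonneg_card_le_one {S : Finset Tri} (hS : ∀ x ∈ S, ∀ y ∈ S, x = y) (f : Tri → ℤ)
    (hf : ∀ x ∈ S, -1 ≤ f x) : -1 ≤ ∑ x ∈ S, f x := by
  rcases S.eq_empty_or_nonempty with h | ⟨z, hz⟩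
  · simp [h]
  · have : S = {z} := by
      ext y
      constructor
      · intro hy; rw [Finset.mem_singleton]; exact hS y hy z hz
      · intro hy; rw [Finset.mem_singleton] at hy; rw [hy]; exact hz
    rw [this, Finset.sum_singleton]
    exact hf z hz

theorem sum_le_card_le_one {S : Finset Tri} (hS : ∀ x ∈ S, ∀ y ∈ S, x = y) (f : Tri → ℤ)
    (hf : ∀ x ∈ S, f x ≤ 1) : ∑ x ∈ S, f x ≤ 1 := by
  have := sum_nonneg_card_le_one hS (fun x => -f x) (fun x hx => by have := hf x hx; linarith)
  rw [Finset.sum_neg_distrib] at this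
  linarith

/-- NDT: two different positions. -/
theorem ndt_ne {X : List Tri} (h : NDT X) {x : Tri} (hx : x ∈ X) (hi : x.inv ∈ X)
    (hne : x.inv ≠ x) : False := by
  have h1 : X.Perm (x.inv :: X.erase x.inv) := List.perm_cons_erase hi
  have h2 : x ∈ X.erase x.inv := (List.mem_erase_of_ne (Ne.symm hne)).2 hx
  have h3 : (X.erase x.inv).Perm (x :: (X.erase x.inv).erase x) := List.perm_cons_erase h2
  exact h x.inv x _ (h1.trans (h3.cons _)) rfl

theorem ndt_count {X : List Tri} (h : NDT X) {x : Tri} (hs : x.inv = x) : X.count x ≤ 1 := by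
  by_contra hc
  push Not at hc
  have hx : x ∈ X := List.count_pos_iff.1 (by omega)
  have h1 : X.Perm (x :: X.erase x) := List.perm_cons_erase hx
  have h2 : (X.erase x).count x = X.count x - 1 := List.count_erase_self
  have h3 : x ∈ X.erase x := List.count_pos_iff.1 (by omega)
  have h4 : (X.erase x).Perm (x :: (X.erase x).erase x) := List.perm_cons_erase h3
  exact h x x _ (h1.trans (h4.cons _)) hs.symm

end COMBC

open COMBC

theorem combc (hi : INVO_Stmt) : COMBC_Stmt := by
  intro σ x0 X X' hD hD' hN hor hx0 hmz hmc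
  classical
  -- the finite set of all triples involved
  set F0 : Finset Tri := X.toFinset ∪ X'.toFinset ∪ {x0} with hF0
  set F : Finset Tri := F0 ∪ F0.image Tri.inv with hF
  have hok0 : ∀ x ∈ F0, x.ok ∧ 0 < x.2.2 * σ := by
    intro x hx
    rw [hF0, Finset.mem_union, Finset.mem_union, Finset.mem_singleton, List.mem_toFinset,
      List.mem_toFinset] at hx
    rcases hx with (hx | hx) | hx
    · exact ⟨hD.ok x hx, hD.sgn x hx⟩
    · exact ⟨hD'.ok x hx, hD'.sgn x hx⟩
    · rw [hx]; exact ⟨hD.ok0, hD.sgn0⟩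
  have hinvF0 : ∀ x ∈ F0, x.inv ∈ F := by
    intro x hx
    rw [hF, Finset.mem_union]; right
    exact Finset.mem_image_of_mem _ hx
  have hokF : ∀ x ∈ F, x.ok ∧ 0 < x.2.2 * σ := by
    intro x hx
    rw [hF, Finset.mem_union] at hx
    rcases hx with hx | hx
    · exact hok0 x hx
    · obtain ⟨y, hy, rfl⟩ := Finset.mem_image.1 hx
      obtain ⟨h1, h2⟩ := hok0 y hy
      refine ⟨(hi y h1).1, ?_⟩
      rw [(hi y h1).2.2.2.1]
      have hy0 : y.2.2 ≠ 0 := h1.2.2.2.2
      have h3 : y.2.2⁻¹ * σ = (y.2.2 * σ) * (y.2.2⁻¹) ^ 2 := by field_simp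
      rw [h3]
      have : 0 < (y.2.2⁻¹) ^ 2 := by positivity
      positivity
  have hinvF : ∀ x ∈ F, x.inv ∈ F := by
    intro x hx
    rw [hF, Finset.mem_union] at hx
    rcases hx with hx | hx
    · exact hinvF0 x hx
    · obtain ⟨y, hy, rfl⟩ := Finset.mem_image.1 hx
      rw [(hi y (hok0 y hy).1).2.1]
      rw [hF, Finset.mem_union]; left; exact hy
  have hii : ∀ x ∈ F, x.inv.inv = x := fun x hx => (hi x (hokF x hx).1).2.1
  have hXF : ∀ x ∈ X, x ∈ F := by
    intro x hx
    rw [hF, Finset.mem_union]; left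
    rw [hF0, Finset.mem_union, Finset.mem_union, List.mem_toFinset]; left; left; exact hx
  have hXF' : ∀ x ∈ X', x ∈ F := by
    intro x hx
    rw [hF, Finset.mem_union]; left
    rw [hF0, Finset.mem_union, Finset.mem_union, List.mem_toFinset, List.mem_toFinset]
    left; right; exact hx
  have hx0F : x0 ∈ F := by
    rw [hF, Finset.mem_union]; left
    rw [hF0, Finset.mem_union, Finset.mem_union, Finset.mem_singleton]; right; rfl
  have hx0X : X.count x0 = 0 := by
    rw [List.count_eq_zero]; intro h; exact lt_irrefl _ (hD.lt x0 h)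
  have hx0X' : X'.count x0 = 0 := by
    rw [List.count_eq_zero]; intro h; exact lt_irrefl _ (hD'.lt x0 h)
  have ht0 : t X X' x0 = 0 := by simp [t, hx0X, hx0X']
  -- the basic relation
  have hrel : ∀ x ∈ F, t X X' x - t X X' x.inv
      = (if x = x0 then (X'.length : ℤ) - X.length else 0)
        - (if x.inv = x0 then (X'.length : ℤ) - X.length else 0) := by
    intro x hx
    have := hmz x (hokF x hx).1
    simp only [mz] at this
    simp only [t]
    split_ifs at this ⊢ <;> linarith
  have hti : t X X' x0.inv = (X.length : ℤ) - X'.length := by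
    have h1 := hrel x0 hx0F
    rw [if_pos rfl, if_neg hx0, ht0] at h1
    linarith
  have hsym : ∀ x ∈ F, x ≠ x0 → x ≠ x0.inv → t X X' x = t X X' x.inv := by
    intro x hx h1 h2
    have h3 := hrel x hx
    have h4 : x.inv ≠ x0 := by
      intro h; apply h2; rw [← h, hii x hx]
    rw [if_neg h1, if_neg h4] at h3
    linarith
  -- for a list without inverse pairs one of the counts vanishes
  have hzero : ∀ Y : List Tri, NDT Y → ∀ x : Tri, x.inv ≠ x →
      Y.count x = 0 ∨ Y.count x.inv = 0 := by
    intro Y hY x hne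
    by_contra hc
    push Not at hc
    exact ndt_ne hY (List.count_pos_iff.1 (Nat.pos_of_ne_zero hc.1))
      (List.count_pos_iff.1 (Nat.pos_of_ne_zero hc.2)) hne
  have hpos : ∀ x ∈ F, x ≠ x0 → x ≠ x0.inv → x.inv ≠ x → 0 ≤ t X X' x := by
    intro x hx h1 h2 h3
    rcases hzero X hN x h3 with h | h
    · simp only [t, h]; simp
    · rw [hsym x hx h1 h2]; simp only [t, h]; simp
  have hnul : NDT X' → ∀ x ∈ F, x ≠ x0 → x ≠ x0.inv → x.inv ≠ x → t X X' x = 0 := by
    intro hN' x hx h1 h2 h3
    have h5 := hsym x hx h1 h2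
    simp only [t] at h5 ⊢
    rcases hzero X hN x h3 with h | h <;> rcases hzero X' hN' x h3 with h' | h' <;> omega
  have hself : ∀ x ∈ F, x.inv = x → -1 ≤ t X X' x := by
    intro x hx h
    have := ndt_count hN h
    simp only [t]; omega
  have hself' : NDT X' → ∀ x ∈ F, x.inv = x → t X X' x ≤ 1 := by
    intro hN' x hx h
    have := ndt_count hN' h
    simp only [t]; omega
  have huniq : ∀ x ∈ F, ∀ y ∈ F, x.inv = x → y.inv = y → cl x = cl y → x = y := by
    have key : ∀ x ∈ F, x.inv = x → x.2.2 = σ := by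
      intro x hx h
      obtain ⟨h1, h2⟩ := hokF x hx
      have h3 : x.2.2⁻¹ = x.2.2 := by
        rw [← (hi x h1).2.2.2.1, h]
      have h4 : x.2.2 ≠ 0 := h1.2.2.2.2
      have h5 : x.2.2 * x.2.2 = 1 := by
        nth_rewrite 2 [← h3]; exact mul_inv_cancel₀ h4
      rcases mul_self_eq_one_iff.1 h5 with h6 | h6 <;> rcases hD.hσ with h7 | h7 <;>
        rw [h6, h7] at h2 ⊢ <;> norm_num at h2
    intro x hx y hy h1 h2 h3
    have hxs := key x hx h1
    have hys := key y hy h2
    simp only [cl, Prod.mk.injEq] at h3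
    exact Prod.ext h3.1 (Prod.ext h3.2 (hxs.trans hys.symm))
  -- the sums over the classes
  have hcls : ∀ p : ℕ × ℤ, ∑ x ∈ F.filter (fun x => cl x = p), t X X' x
      = if cl x0 = p then (X'.length : ℤ) - X.length else 0 := by
    intro p
    have h1 := countP_eq F (fun x => cl x = p) X hXF
    have h2 := countP_eq F (fun x => cl x = p) X' hXF'
    have h3 := hmc p
    simp only [mc] at h3
    have e1 : (X.countP (fun x => decide ((x.1, x.2.1) = p)))
        = (X.countP (fun x => decide (cl x = p))) := rfl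
    have e2 : (X'.countP (fun x => decide ((x.1, x.2.1) = p)))
        = (X'.countP (fun x => decide (cl x = p))) := rfl
    rw [e1, e2] at h3
    simp only [t, Finset.sum_sub_distrib]
    rw [← h1, ← h2]
    have e3 : ((x0.1, x0.2.1) = p) = (cl x0 = p) := rfl
    simp only [e3] at h3
    split_ifs at h3 ⊢ <;> linarith
  -- decomposition of the class sums
  set S : ℕ × ℤ → Finset Tri := fun p =>
    F.filter (fun x => cl x = p ∧ x.inv ≠ x ∧ x ≠ x0 ∧ x ≠ x0.inv) with hS
  set Z : ℕ × ℤ → Finset Tri := fun p => F.filter (fun x => cl x = p ∧ x.inv = x) with hZ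
  have hx0i : x0.inv.inv ≠ x0.inv := by
    rw [hii x0 hx0F]; exact Ne.symm hx0
  have hx0iF : x0.inv ∈ F := hinvF x0 hx0F
  have hdec : ∀ p : ℕ × ℤ, ∑ x ∈ F.filter (fun x => cl x = p), t X X' x
      = ∑ x ∈ S p, t X X' x + ∑ x ∈ Z p, t X X' x
        + (if cl x0.inv = p then (X.length : ℤ) - X'.length else 0) := by
    intro p
    have e1 : F.filter (fun x => cl x = p) = (S p ∪ Z p) ∪ F.filter (fun x => cl x = p ∧
        (x = x0 ∨ x = x0.inv)) := by
      ext x
      simp only [hS, hZ, Finset.mem_union, Finset.mem_filter]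
      constructor
      · rintro ⟨h1, h2⟩
        by_cases h3 : x = x0 ∨ x = x0.inv
        · right; exact ⟨h1, h2, h3⟩
        · left
          push Not at h3
          by_cases h4 : x.inv = x
          · right; exact ⟨h1, h2, h4⟩
          · left; exact ⟨h1, h2, h4, h3.1, h3.2⟩
      · rintro ((h | h) | h)
        · exact ⟨h.1, h.2.1⟩
        · exact ⟨h.1, h.2.1⟩
        · exact ⟨h.1, h.2.1⟩
    have d1 : Disjoint (S p) (Z p) := by
      rw [Finset.disjoint_left]
      intro x h1 h2
      simp only [hS, hZ, Finset.mem_filter] at h1 h2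
      exact h1.2.2.1 h2.2.2
    have d2 : Disjoint (S p ∪ Z p) (F.filter (fun x => cl x = p ∧ (x = x0 ∨ x = x0.inv))) := by
      rw [Finset.disjoint_left]
      intro x h1 h2
      simp only [hS, hZ, Finset.mem_union, Finset.mem_filter] at h1 h2
      rcases h1 with h1 | h1
      · rcases h2.2.2 with h | h
        · exact h1.2.2.2.1 h
        · exact h1.2.2.2.2 h
      · rcases h2.2.2 with h | h
        · rw [h] at h1; exact hx0 h1.2.2
        · rw [h] at h1; exact hx0i h1.2.2
    rw [e1, Finset.sum_union d2, Finset.sum_union d1]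
    congr 1
    have e2 : ∑ x ∈ F.filter (fun x => cl x = p ∧ (x = x0 ∨ x = x0.inv)), t X X' x
        = ∑ x ∈ F.filter (fun x => x = x0.inv), if cl x = p then t X X' x else 0 := by
      rw [Finset.sum_filter, Finset.sum_filter]
      refine Finset.sum_congr rfl (fun x hx => ?_)
      by_cases h1 : x = x0
      · rw [h1, ht0]
        simp
      · by_cases h2 : x = x0.inv
        · simp [h2]
        · simp [h1, h2]
    rw [e2]
    have e3 : F.filter (fun x => x = x0.inv) = {x0.inv} := by
      ext x
      simp only [Finset.mem_filter, Finset.mem_singleton]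
      constructor
      · exact fun h => h.2
      · intro h; exact ⟨h ▸ hx0iF, h⟩
    rw [e3, Finset.sum_singleton, hti]
  have hSpos : ∀ p, 0 ≤ ∑ x ∈ S p, t X X' x := by
    intro p
    refine Finset.sum_nonneg (fun x hx => ?_)
    simp only [hS, Finset.mem_filter] at hx
    exact hpos x hx.1 hx.2.2.2.1 hx.2.2.2.2 hx.2.2.1
  have hSnul : NDT X' → ∀ p, ∑ x ∈ S p, t X X' x = 0 := by
    intro hN' p
    refine Finset.sum_eq_zero (fun x hx => ?_)
    simp only [hS, Finset.mem_filter] at hx
    exact hnul hN' x hx.1 hx.2.2.2.1 hx.2.2.2.2 hx.2.2.1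
  have hZone : ∀ p, ∀ x ∈ Z p, ∀ y ∈ Z p, x = y := by
    intro p x hx y hy
    simp only [hZ, Finset.mem_filter] at hx hy
    exact huniq x hx.1 y hy.1 hx.2.2 hy.2.2 (hx.2.1.trans hy.2.1.symm)
  have hZge : ∀ p, -1 ≤ ∑ x ∈ Z p, t X X' x := by
    intro p
    refine sum_nonneg_card_le_one (hZone p) _ (fun x hx => ?_)
    simp only [hZ, Finset.mem_filter] at hx
    exact hself x hx.1 hx.2.2
  have hZle : NDT X' → ∀ p, ∑ x ∈ Z p, t X X' x ≤ 1 := by
    intro hN' p
    refine sum_le_card_le_one (hZone p) _ (fun x hx => ?_)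
    simp only [hZ, Finset.mem_filter] at hx
    exact hself' hN' x hx.1 hx.2.2
  have hZemp : ∀ p, cinv p ≠ p → ∑ x ∈ Z p, t X X' x = 0 := by
    intro p hp
    refine Finset.sum_eq_zero (fun x hx => ?_)
    simp only [hZ, Finset.mem_filter] at hx
    exfalso
    apply hp
    rw [← hx.2.1, ← cl_inv, hx.2.2]
  have hSeven : ∀ p, cinv p = p → (2 : ℤ) ∣ ∑ x ∈ S p, t X X' x := by
    intro p hp
    apply (ZMod.intCast_zmod_eq_zero_iff_dvd _ 2).1
    push_cast
    refine Finset.sum_involution (fun x _ => x.inv) ?_ ?_ ?_ ?_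
    · intro x hx
      simp only [hS, Finset.mem_filter] at hx
      have h1 := hsym x hx.1 hx.2.2.2.1 hx.2.2.2.2
      rw [← h1]
      have h2 : ((t X X' x : ℤ) : ZMod 2) + ((t X X' x : ℤ) : ZMod 2)
          = (2 : ZMod 2) * ((t X X' x : ℤ) : ZMod 2) := by ring
      rw [h2]
      have h3 : (2 : ZMod 2) = 0 := by decide
      rw [h3, zero_mul]
    · intro x hx _
      simp only [hS, Finset.mem_filter] at hx
      exact hx.2.2.1
    · intro x hx
      simp only [hS, Finset.mem_filter] at hx ⊢
      refine ⟨hinvF x hx.1, ?_, ?_, ?_, ?_⟩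
      · rw [cl_inv, hx.2.1, hp]
      · rw [hii x hx.1]; exact Ne.symm hx.2.2.1
      · intro h; apply hx.2.2.2.2; rw [← h, hii x hx.1]
      · intro h
        apply hx.2.2.2.1
        rw [← hii x hx.1, h, hii x0 hx0F]
    · intro x hx
      simp only [hS, Finset.mem_filter] at hx
      exact hii x hx.1
  -- the lengths agree
  have hlen : (X.length : ℤ) = X'.length := by
    have h1 := hcls (cl x0)
    rw [hdec (cl x0), if_pos rfl] at h1
    by_cases hp : cinv (cl x0) = cl x0
    · rw [cl_inv, if_pos hp] at h1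
      obtain ⟨k, hk⟩ := hSeven (cl x0) hp
      have h2 := hSpos (cl x0)
      have h3 := hZge (cl x0)
      rcases hor with h | h
      · have h' : (X'.length : ℤ) ≤ X.length := by exact_mod_cast h
        omega
      · have h4 := hSnul h (cl x0)
        have h5 := hZle h (cl x0)
        omega
    · rw [cl_inv, if_neg hp, hZemp _ hp] at h1
      have h2 := hSpos (cl x0)
      rcases hor with h | h
      · have h' : (X'.length : ℤ) ≤ X.length := by exact_mod_cast h
        omega
      · have h4 := hSnul h (cl x0)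
        omega
  have hall : ∀ p, ∑ x ∈ S p, t X X' x = 0 ∧ ∑ x ∈ Z p, t X X' x = 0 := by
    intro p
    have h1 := hcls p
    rw [hdec p, hlen] at h1
    simp only [sub_self, ite_self, add_zero] at h1
    have h2 := hSpos p
    have h3 := hZge p
    by_cases hp : cinv p = p
    · obtain ⟨k, hk⟩ := hSeven p hp
      constructor <;> omega
    · have h4 := hZemp p hp
      constructor <;> omega
  have hfin : ∀ x ∈ F, t X X' x = 0 := by
    intro x hx
    by_cases h1 : x = x0
    · rw [h1]; exact ht0
    by_cases h2 : x = x0.inv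
    · rw [h2, hti, hlen, sub_self]
    by_cases h3 : x.inv = x
    · have hxZ : x ∈ Z (cl x) := by
        exact Finset.mem_filter.2 ⟨hx, rfl, h3⟩
      have h4 := (hall (cl x)).2
      have h5 : Z (cl x) = {x} := by
        ext y
        constructor
        · intro hy; rw [Finset.mem_singleton]; exact hZone _ y hy x hxZ
        · intro hy; rw [Finset.mem_singleton] at hy; rw [hy]; exact hxZ
      rw [h5, Finset.sum_singleton] at h4
      exact h4
    · have hxS : x ∈ S (cl x) := by
        exact Finset.mem_filter.2 ⟨hx, rfl, h3, h1, h2⟩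
      have h4 := (hall (cl x)).1
      rw [Finset.sum_eq_zero_iff_of_nonneg] at h4
      · exact h4 x hxS
      · intro y hy
        simp only [hS, Finset.mem_filter] at hy
        exact hpos y hy.1 hy.2.2.2.1 hy.2.2.2.2 hy.2.2.1
  rw [List.perm_iff_count]
  intro x
  by_cases hx : x ∈ F
  · have := hfin x hx
    simp only [t] at this
    omega
  · have h1 : X.count x = 0 := List.count_eq_zero.2 (fun h => hx (hXF x h))
    have h2 : X'.count x = 0 := List.count_eq_zero.2 (fun h => hx (hXF' x h))
    rw [h1, h2]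

end Pool.Agent.MTR
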