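import Pool.Agent.MTR.Stmts

/-!
Montesinos knots, recovery part: module DATA (sizes and signs of the triples).
-/

open scoped BigOperators

namespace Pool.Agent.MTR

open Pool.Agent.TB

namespace DATA

theorem sign_cases {a : ℤ} (h : a ≠ 0) : Int.sign a = 1 ∨ Int.sign a = -1 := by
  rcases lt_trichotomy a 0 with h1 | h1 | h1
  · exact Or.inr (Int.sign_eq_neg_one_of_neg h1)
  · exact absurd h1 h
  · exact Or.inl (Int.sign_eq_one_of_pos h1)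

theorem sign_mul_pos {a : ℤ} (h : a ≠ 0) : (0 : ℚ) < (a : ℚ) * ((Int.sign a : ℤ) : ℚ) := by
  have h1 : a * Int.sign a = |a| := by
    rw [mul_comm]; exact Int.sign_mul_self_eq_abs a
  have h2 : (a : ℚ) * ((Int.sign a : ℤ) : ℚ) = ((|a| : ℤ) : ℚ) := by
    rw [← h1]; push_cast; ring
  rw [h2]
  exact_mod_cast abs_pos.mpr h

theorem sign_sq {a : ℤ} (h : a ≠ 0) : ((Int.sign a : ℤ) : ℚ) * ((Int.sign a : ℤ) : ℚ) = 1 := by
  rcases sign_cases h with h1 | h1 <;> rw [h1] <;> norm_num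

theorem abs_sign {a : ℤ} (h : a ≠ 0) : |((Int.sign a : ℤ) : ℚ)| = 1 := by
  rcases sign_cases h with h1 | h1 <;> rw [h1] <;> norm_num

theorem rho_eq (l V : ℤ × ℤ) : (tri l V).2.2 =
    ((Int.sign (det2 l V) : ℤ) : ℚ) * (l.2 : ℚ) / (((Int.gcd l.1 l.2 : ℕ) : ℚ) * (V.2 : ℚ)) := rfl

/-- size and sign of the triple of one site -/
theorem site (hs : SITE_Stmt) (l V : ℤ × ℤ) (hc : IsCoprime V.1 V.2) (ho : Odd (det2 l V))
    (hl : l.2 ≠ 0) (hV : V.2 ≠ 0) :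
    (tri l V).ok ∧
    (tri l V).ht = |(l.2 : ℚ)| / (|(V.2 : ℚ)| * |((det2 l V : ℤ) : ℚ)|) ∧
    |(tri l V).2.2| * (((Int.gcd l.1 l.2 : ℕ) : ℚ) * |(V.2 : ℚ)|) = |(l.2 : ℚ)| ∧
    0 < (tri l V).2.2 * (((Int.sign (det2 l V) : ℤ) : ℚ) *
      (((Int.sign l.2 : ℤ) : ℚ) * ((Int.sign V.2 : ℤ) : ℚ))) := by
  obtain ⟨hok, hg, hD, -⟩ := hs l V hc ho hl hV
  have hD0 : det2 l V ≠ 0 := by
    intro h
    rw [h] at ho
    exact absurd ho (by decide)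
  have hgq : (0 : ℚ) < ((Int.gcd l.1 l.2 : ℕ) : ℚ) := by exact_mod_cast hg
  have hVq : (V.2 : ℚ) ≠ 0 := by exact_mod_cast hV
  have hlq : (l.2 : ℚ) ≠ 0 := by exact_mod_cast hl
  have hDq : ((det2 l V : ℤ) : ℚ) ≠ 0 := by exact_mod_cast hD0
  have habs : |(tri l V).2.2| =
      |(l.2 : ℚ)| / (((Int.gcd l.1 l.2 : ℕ) : ℚ) * |(V.2 : ℚ)|) := by
    rw [rho_eq, abs_div, abs_mul, abs_mul, abs_sign hD0, one_mul, abs_of_pos hgq]
  have hDelta : ((tri l V).1 : ℚ) * ((Int.gcd l.1 l.2 : ℕ) : ℚ) = |((det2 l V : ℤ) : ℚ)| := by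
    have h1 : (((tri l V).1 * Int.gcd l.1 l.2 : ℕ) : ℚ) = (((det2 l V).natAbs : ℕ) : ℚ) := by
      rw [hD]
    rw [Nat.cast_natAbs] at h1
    push_cast at h1
    exact h1
  have hVa : (0 : ℚ) < |(V.2 : ℚ)| := abs_pos.mpr hVq
  have hDa : (0 : ℚ) < |((det2 l V : ℤ) : ℚ)| := abs_pos.mpr hDq
  have hDel0 : ((tri l V).1 : ℚ) ≠ 0 := by
    intro h
    rw [h, zero_mul] at hDelta
    exact absurd hDelta.symm hDa.ne'
  refine ⟨hok, ?_, ?_, ?_⟩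
  · show |(tri l V).2.2| / ((tri l V).1 : ℚ) = _
    rw [habs, ← hDelta]
    field_simp
  · rw [habs]
    field_simp
  · rw [rho_eq]
    have h1 := sign_sq hD0
    have h2 := sign_mul_pos hl
    have h3 := sign_mul_pos hV
    have h4 : ((Int.sign (det2 l V) : ℤ) : ℚ) * (l.2 : ℚ) /
        (((Int.gcd l.1 l.2 : ℕ) : ℚ) * (V.2 : ℚ)) * (((Int.sign (det2 l V) : ℤ) : ℚ) *
        (((Int.sign l.2 : ℤ) : ℚ) * ((Int.sign V.2 : ℤ) : ℚ))) =
        (((Int.sign (det2 l V) : ℤ) : ℚ) * ((Int.sign (det2 l V) : ℤ) : ℚ)) *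
        ((l.2 : ℚ) * ((Int.sign l.2 : ℤ) : ℚ)) * ((V.2 : ℚ) * ((Int.sign V.2 : ℤ) : ℚ)) /
        (((Int.gcd l.1 l.2 : ℕ) : ℚ) * (V.2 : ℚ) ^ 2) := by
      field_simp
    rw [h4, h1, one_mul]
    apply div_pos (mul_pos h2 h3)
    exact mul_pos hgq (by positivity)

end DATA

open DATA in
theorem data (hs : SITE_Stmt) (had : ADV_Stmt) (hn : CHNO_Stmt) : DATA_Stmt := by
  intro e ws hNF σ hσ
  obtain ⟨hperm, hcons, -, -, hnf⟩ := had
  obtain ⟨hDodd, hP0, hx⟩ := hnf e ws hNF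
  have hD0 : DD e ws ≠ 0 := by
    intro h
    rw [h] at hDodd
    exact absurd hDodd (by decide)
  have hDq : ((DD e ws : ℤ) : ℚ) ≠ 0 := by exact_mod_cast hD0
  have hPq : (((totv e ws).2 : ℤ) : ℚ) ≠ 0 := by exact_mod_cast hP0
  have hDa : (0 : ℚ) < |((DD e ws : ℤ) : ℚ)| := abs_pos.mpr hDq
  have hPa : (0 : ℚ) < |(((totv e ws).2 : ℤ) : ℚ)| := abs_pos.mpr hPq
  have hσ' : σ = ((Int.sign (DD e ws) : ℤ) : ℚ) * ((Int.sign (totv e ws).2 : ℤ) : ℚ) := by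
    rw [hσ]; push_cast; ring
  have hdet0 : det2 (lv e ws) (0, 1) = DD e ws := by
    unfold det2 lv DD
    simp
  have ho0 : Odd (det2 (lv e ws) (0, 1)) := by rw [hdet0]; exact hDodd
  obtain ⟨ok0, ht0, ab0, sg0⟩ := site hs (lv e ws) (0, 1) (isCoprime_one_right : IsCoprime (0 : ℤ) 1)
    ho0 hP0 one_ne_zero
  have hl2 : (lv e ws).2 = (totv e ws).2 := rfl
  have hl1 : (lv e ws).1 = DD e ws := rfl
  rw [hdet0, hl2] at ht0 sg0
  rw [hl1, hl2] at ab0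
  simp only [Int.cast_one, abs_one, one_mul, mul_one, Int.sign_one] at ht0 ab0 sg0
  -- the sites of the tangles
  have key : ∀ x ∈ ws, (tri (lv e (ws.erase x)) (lastv x)).ok ∧
      0 < (tri (lv e (ws.erase x)) (lastv x)).2.2 * σ ∧
      (tri (lv e (ws.erase x)) (lastv x)).ht =
        |((totv e ws).2 : ℚ)| / (|(DD e ws : ℚ)| * ((lastv x).2 : ℚ) ^ 2) ∧
      |(tri (lv e (ws.erase x)) (lastv x)).2.2| *
          (Int.gcd (lv e (ws.erase x)).1 (lv e (ws.erase x)).2 * ((lastv x).2 : ℚ) ^ 2) =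
        |((totv e ws).2 : ℚ)| := by
    intro x hxm
    obtain ⟨hpx, hdet, hQ, hp, hcop⟩ := hx x hxm
    have hox : Odd (det2 (lv e (ws.erase x)) (lastv x)) := by rw [hdet]; exact hDodd
    obtain ⟨okx, htx, abx, sgx⟩ := site hs (lv e (ws.erase x)) (lastv x) hcop hox hQ hp
    rw [hdet] at htx sgx
    have hPx : (totv e ws).2 = (lastv x).2 * (lv e (ws.erase x)).2 := by
      rw [hperm e ws _ hpx, (hcons e x (ws.erase x)).1]
      rfl
    have hPxq : ((totv e ws).2 : ℚ) = ((lastv x).2 : ℚ) * ((lv e (ws.erase x)).2 : ℚ) := by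
      rw [hPx]; push_cast; ring
    have hpq : ((lastv x).2 : ℚ) ≠ 0 := by exact_mod_cast hp
    have hpa : (0 : ℚ) < |((lastv x).2 : ℚ)| := abs_pos.mpr hpq
    have hsq : ((lastv x).2 : ℚ) ^ 2 = |((lastv x).2 : ℚ)| * |((lastv x).2 : ℚ)| := by
      rw [← sq, sq_abs]
    refine ⟨okx, ?_, ?_, ?_⟩
    · have hσx : σ = ((Int.sign (DD e ws) : ℤ) : ℚ) *
          (((Int.sign (lv e (ws.erase x)).2 : ℤ) : ℚ) * ((Int.sign (lastv x).2 : ℤ) : ℚ)) := by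
        rw [hσ', hPx, Int.sign_mul]; push_cast; ring
      rw [hσx]; exact sgx
    · rw [htx, hPxq, abs_mul, hsq]
      field_simp
    · rw [hPxq, abs_mul, hsq, ← abx]
      ring
  refine ⟨?_, ok0, ?_, ?_, ?_, ?_, ht0, ab0, fun x hxm => ⟨(key x hxm).2.2.1, (key x hxm).2.2.2⟩⟩
  · rw [hσ']
    rcases sign_cases hD0 with h1 | h1 <;> rcases sign_cases hP0 with h2 | h2 <;> rw [h1, h2] <;>
      norm_num
  · intro y hy
    obtain ⟨x, hxm, rfl⟩ := List.mem_map.mp hy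
    exact (key x hxm).1
  · rw [hσ']; exact sg0
  · intro y hy
    obtain ⟨x, hxm, rfl⟩ := List.mem_map.mp hy
    exact (key x hxm).2.1
  · intro y hy
    obtain ⟨x, hxm, rfl⟩ := List.mem_map.mp hy
    have h1 := (key x hxm).2.2.1
    show (tri (lv e (ws.erase x)) (lastv x)).ht < (tri (lv e ws) (0, 1)).ht
    rw [h1, ht0]
    have hp2 : 2 ≤ |(lastv x).2| := ((hn x).2.2.2 (hNF.1 x hxm).2).2 (hNF.1 x hxm).1
    have hp2q : (2 : ℚ) ≤ |((lastv x).2 : ℚ)| := by exact_mod_cast hp2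
    have hsq : (1 : ℚ) < ((lastv x).2 : ℚ) ^ 2 := by
      rw [← sq_abs]; nlinarith
    apply div_lt_div_of_pos_left hPa hDa
    nlinarith

end Pool.Agent.MTR
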