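import Pool.Agent.MTR.Stmts

/-!
Montesinos knots, recovery part: DATB, comparison with the empty site. See PAPER.md, section 4.
-/

open scoped BigOperators

namespace Pool.Agent.MTR

open Pool.Agent.TB

namespace DATB

theorem inv_eq_of (hi : INVO_Stmt) (x y : Tri) (hx : x.ok) (hy : y.ok) (h1 : x.1 = y.1)
    (h2 : x.2.2⁻¹ = y.2.2) (h3 : (x.1 : ℤ) ∣ x.2.1 * y.2.1 - 1) : x.inv = y := by
  obtain ⟨_, _, i1, i2, _, i3, _⟩ := hi x hx
  obtain ⟨_, hy1, hy2, _, _⟩ := hy
  have h4 : x.inv.2.1 = y.2.1 := i3 y.2.1 hy1 (by rw [h1]; exact hy2) h3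
  refine Prod.ext ?_ (Prod.ext ?_ ?_)
  · rw [i1, h1]
  · exact h4
  · rw [i2, h2]

/-- equality of two rationals with the same sign and absolute value -/
theorem eq_of_abs {a b s : ℚ} (ha : 0 < a * s) (hb : 0 < b * s) (h : |a| = |b|) : a = b := by
  rcases abs_eq_abs.mp h with h | h
  · exact h
  · exfalso
    rw [h] at ha
    nlinarith

/-- The inverse heights: `1 / (|ρ| Δ) ≤ |P| / |D|`. -/
theorem ht_le {r Δ D P g p2 q : ℚ} (hr : r * (g * p2) = P) (hD : Δ * g = D) (hP : 0 < P)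
    (hD0 : 0 < D) (hg : 0 < g) (hp : 0 < p2) (hq : 0 < q) (hq2 : q * q * p2 = P * P)
    (hgq : g ≤ q) :
    1 / (r * Δ) ≤ P / D ∧ (1 / (r * Δ) = P / D → g = q) := by
  have hr0 : 0 < r := by
    by_contra h
    push Not at h
    have : r * (g * p2) ≤ 0 := mul_nonpos_of_nonpos_of_nonneg h (by positivity)
    linarith
  have hΔ : 0 < Δ := by
    by_contra h
    push Not at h
    have : Δ * g ≤ 0 := mul_nonpos_of_nonpos_of_nonneg h hg.le
    linarith
  have h1 : 1 / (r * Δ) = g * g * p2 / (P * D) := by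
    rw [← hr, ← hD]
    field_simp
  have h2 : P / D = q * q * p2 / (P * D) := by
    rw [hq2]
    field_simp
  rw [h1, h2]
  constructor
  · apply div_le_div_of_nonneg_right _ (by positivity)
    have : g * g ≤ q * q := mul_self_le_mul_self hg.le hgq
    nlinarith
  · intro h
    have h3 : g * g * p2 = q * q * p2 := by
      have hPD : P * D ≠ 0 := (mul_pos hP hD0).ne'
      field_simp at h
      nlinarith [h]
    have h4 : g * g = q * q := mul_right_cancel₀ hp.ne' h3
    nlinarith [mul_self_inj hg.le hq.le |>.mp h4]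

end DATB

open DATB

theorem datb (hi : INVO_Stmt) (hs : SITE_Stmt) (had : ADV_Stmt) (hda : DATA_Stmt) : DATB_Stmt := by
  intro e ws hNF
  obtain ⟨hperm, hcons, -, -, hsite⟩ := had
  obtain ⟨hDodd, hP0, hws⟩ := hsite e ws hNF
  obtain ⟨-, hok0, hok, hsg0, hsg, -, hht0, hg0, hx⟩ := hda e ws hNF _ rfl
  set D := DD e ws with hD
  set P := (totv e ws).2 with hP
  set σ : ℚ := ((Int.sign D * Int.sign P : ℤ) : ℚ) with hσ
  have hD0 : D ≠ 0 := by
    intro h
    rw [h] at hDodd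
    exact absurd hDodd (by decide)
  have hDabs : (0 : ℚ) < |(D : ℚ)| := abs_pos.mpr (by exact_mod_cast hD0)
  have hPabs : (0 : ℚ) < |(P : ℚ)| := abs_pos.mpr (by exact_mod_cast hP0)
  -- the empty site
  have hl0 : lv e ws = (D, P) := rfl
  have hdet0 : det2 (lv e ws) (0, 1) = D := by
    rw [hl0]
    simp [det2]
  have hs0 := hs (lv e ws) (0, 1) (by exact isCoprime_zero_left.mpr isUnit_one)
    (by rw [hdet0]; exact hDodd) hP0 one_ne_zero
  have ht0 : tri (lv e ws) (0, 1) = tr0 e ws := rfl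
  rw [ht0, hdet0, hl0] at hs0
  obtain ⟨-, hgpos0, hΔ0, hiff0⟩ := hs0
  set g0 := Int.gcd D P with hg0d
  have hsgnD : Int.sign D * Int.sign D = 1 := by
    rcases lt_or_gt_of_ne hD0 with h | h
    · rw [Int.sign_eq_neg_one_of_neg h]; norm_num
    · rw [Int.sign_eq_one_of_pos h]; norm_num
  have hg0Q : (0 : ℚ) < (g0 : ℚ) := by exact_mod_cast hgpos0
  have hDnat : ((D.natAbs : ℕ) : ℚ) = |(D : ℚ)| := by
    rw [Nat.cast_natAbs]
    push_cast
    rfl
  have hΔ0Q : ((tr0 e ws).1 : ℚ) * g0 = |(D : ℚ)| := by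
    rw [← hDnat, ← hΔ0]
    push_cast
    rfl
  -- c0 for the empty site
  have hw0 : ∀ w : ℤ, (g0 : ℤ) * w = Int.sign D * (-P) →
      ((tr0 e ws).1 : ℤ) ∣ w - (tr0 e ws).2.1 := by
    intro w hw
    have h := (hiff0 1 w).mpr ⟨(1, 0), by simp [det2], by rw [hw]; simp [det2]⟩
    rwa [mul_one] at h
  have hinvht0 : (tr0 e ws).inv.ht = 1 / (|(tr0 e ws).2.2| * (tr0 e ws).1) :=
    (hi _ hok0).2.2.2.2.2.2
  have hPsgn : |P| * Int.sign P = P := by
    rw [mul_comm]; exact Int.sign_mul_abs P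
  have hone : |(tr0 e ws).2.2| = 1 → (tr0 e ws).inv = tr0 e ws := by
    intro h1
    have hg0P : (g0 : ℤ) = |P| := by
      rw [h1, one_mul] at hg0
      exact_mod_cast hg0
    have hsgnP : Int.sign P * Int.sign P = 1 := by
      rcases lt_or_gt_of_ne hP0 with h | h
      · rw [Int.sign_eq_neg_one_of_neg h]; norm_num
      · rw [Int.sign_eq_one_of_pos h]; norm_num
    have hw := hw0 (-(Int.sign D * Int.sign P)) (by
      rw [hg0P]
      linear_combination (-Int.sign D) * hPsgn)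
    have hρ : (tr0 e ws).2.2⁻¹ = (tr0 e ws).2.2 := by
      rcases abs_eq (zero_le_one) |>.mp h1 with h | h <;> rw [h] <;> norm_num
    refine inv_eq_of hi _ _ hok0 hok0 rfl hρ ?_
    obtain ⟨k, hk⟩ := hw
    refine ⟨k * k * (tr0 e ws).1 + 2 * k * (Int.sign D * Int.sign P), ?_⟩
    have h5 : (tr0 e ws).2.1 = -(Int.sign D * Int.sign P) - (tr0 e ws).1 * k := by
      linear_combination (-1 : ℤ) * hk
    rw [h5]
    linear_combination (Int.sign P * Int.sign P) * hsgnD + hsgnP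
  refine ⟨?_, ?_, hone⟩
  · -- the tangles
    intro x hxm
    have hxok := hok x hxm
    have hxsg := hsg x hxm
    obtain ⟨y, hy, rfl⟩ := List.mem_map.mp hxm
    obtain ⟨hyp, hydet, hyl, hyV, hyco⟩ := hws y hy
    obtain ⟨hxht, hxr⟩ := hx y hy
    have hsy := hs (lv e (ws.erase y)) (lastv y) hyco (by rw [hydet]; exact hDodd) hyl hyV
    rw [hydet] at hsy
    obtain ⟨-, hgpos, hΔ, hiff⟩ := hsy
    have htot : totv e ws = addv (lastv y) (totv e (ws.erase y)) := by
      rw [hperm e ws _ hyp]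
      exact (hcons e y (ws.erase y)).1
    have hPpQ : P = (lastv y).2 * (lv e (ws.erase y)).2 := by
      rw [hP, htot]
      rfl
    clear htot
    generalize hVV : lastv y = V at *
    generalize hll : lv e (ws.erase y) = l at *
    obtain ⟨A, p⟩ := V
    obtain ⟨B, Q⟩ := l
    dsimp only at hyl hyV hyco hxr hgpos hΔ hPpQ
    have hdet : B * p - Q * A = D := by
      rw [← hydet]
      rfl
    set g := Int.gcd B Q with hgd
    have hgQ : (0 : ℚ) < (g : ℚ) := by exact_mod_cast hgpos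
    have hpq : (p : ℚ) ≠ 0 := by exact_mod_cast hyV
    have hΔQ : ((tri (B, Q) (A, p)).1 : ℚ) * g = |(D : ℚ)| := by
      rw [← hDnat, ← hΔ]
      push_cast
      rfl
    have hQabs : (0 : ℚ) < |(Q : ℚ)| := abs_pos.mpr (by exact_mod_cast hyl)
    have habsP : |(P : ℚ)| = |(p : ℚ)| * |(Q : ℚ)| := by
      rw [hPpQ]
      push_cast
      rw [abs_mul]
    have h := ht_le (r := |(tri (B, Q) (A, p)).2.2|) (Δ := (tri (B, Q) (A, p)).1)
      (D := |(D : ℚ)|) (P := |(P : ℚ)|) (g := g) (p2 := (p : ℚ) ^ 2) (q := |(Q : ℚ)|) hxr hΔQ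
      hPabs hDabs hgQ (by positivity) hQabs (by
        rw [habsP, ← sq_abs (p : ℚ)]
        ring) (by
        have h1 : (g : ℤ) ∣ Q := Int.gcd_dvd_right ..
        have h2 : (g : ℤ) ≤ |Q| := by
          rw [← dvd_abs] at h1
          exact Int.le_of_dvd (abs_pos.mpr hyl) h1
        exact_mod_cast h2)
    have hinvht : (tri (B, Q) (A, p)).inv.ht =
        1 / (|(tri (B, Q) (A, p)).2.2| * (tri (B, Q) (A, p)).1) := (hi _ hxok).2.2.2.2.2.2
    rw [hinvht, hht0]
    refine ⟨h.1, fun h1 => ?_⟩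
    have h2 : (g : ℤ) = |Q| := by exact_mod_cast h.2 h1
    have hgnat : g = Q.natAbs := by
      have h3 : ((g : ℕ) : ℤ) = ((Q.natAbs : ℕ) : ℤ) := by rw [h2, Int.natCast_natAbs]
      exact_mod_cast h3
    obtain ⟨b, hb⟩ : Q ∣ B := by
      have h3 : (g : ℤ) ∣ B := Int.gcd_dvd_left ..
      rw [h2] at h3
      exact (abs_dvd Q B).mp h3
    have hg0g : g0 = g := by
      have h4 : D = Q * (b * p - A) := by rw [← hdet, hb]; ring
      have h5 : P = Q * p := by rw [hPpQ]; ring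
      rw [hg0d, h4, h5, Int.gcd_mul_left, hgnat]
      have h6 : IsCoprime (b * p - A) p := by
        obtain ⟨u, v, huv⟩ := hyco
        exact ⟨-u, v + u * b, by linear_combination huv⟩
      rw [Int.isCoprime_iff_gcd_eq_one.mp h6, mul_one]
    have hΔeq : (tri (B, Q) (A, p)).1 = (tr0 e ws).1 := by
      have h7 : (tri (B, Q) (A, p)).1 * g = (tr0 e ws).1 * g := by
        rw [hΔ, ← hg0g, hΔ0]
      exact Nat.eq_of_mul_eq_mul_right hgpos h7
    have hQsgn : |Q| * Int.sign Q = Q := by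
      rw [mul_comm]; exact Int.sign_mul_abs Q
    have hsgnQ : Int.sign Q * Int.sign Q = 1 := by
      rcases lt_or_gt_of_ne hyl with h | h
      · rw [Int.sign_eq_neg_one_of_neg h]; norm_num
      · rw [Int.sign_eq_one_of_pos h]; norm_num
    refine inv_eq_of hi _ _ hxok hok0 hΔeq ?_ ?_
    · -- the parameter
      have hρ0 : (tri (B, Q) (A, p)).2.2 ≠ 0 := hxok.2.2.2.2
      apply eq_of_abs (s := σ) _ hsg0
      · rw [abs_inv]
        have hgQ' : (g : ℚ) = |(Q : ℚ)| := h.2 h1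
        have h8 : |(tri (B, Q) (A, p)).2.2| * |(p : ℚ)| = 1 := by
          rw [habsP, hgQ', ← sq_abs (p : ℚ)] at hxr
          have h9 : (|(tri (B, Q) (A, p)).2.2| * |(p : ℚ)|) * (|(p : ℚ)| * |(Q : ℚ)|) =
              1 * (|(p : ℚ)| * |(Q : ℚ)|) := by
            rw [one_mul]
            nlinarith [hxr]
          exact mul_right_cancel₀ (mul_pos (abs_pos.mpr hpq) hQabs).ne' h9
        have h10 : |(tr0 e ws).2.2| = |(p : ℚ)| := by
          rw [hg0g, hgQ', habsP] at hg0
          exact mul_right_cancel₀ hQabs.ne' hg0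
        rw [h10]
        exact inv_eq_of_mul_eq_one_right h8
      · have h11 : (tri (B, Q) (A, p)).2.2⁻¹ * σ =
            ((tri (B, Q) (A, p)).2.2 * σ) * ((tri (B, Q) (A, p)).2.2⁻¹) ^ 2 := by
          field_simp
        rw [h11]
        have h12 : (0 : ℚ) < ((tri (B, Q) (A, p)).2.2⁻¹) ^ 2 := by positivity
        exact mul_pos hxsg h12
    · -- the residue
      have hw1 := (hiff p (-(Int.sign D * Int.sign Q))).mpr ⟨(1, 0), by simp [det2], by
        simp only [det2]
        rw [h2]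
        linear_combination Int.sign D * hQsgn⟩
      have hw2 := hw0 (-(Int.sign D * Int.sign Q) * p) (by
        rw [hg0g, h2, hPpQ]
        linear_combination (-Int.sign D * p) * hQsgn)
      rw [← hΔeq] at hw2
      obtain ⟨k1, hk1⟩ := hw1
      obtain ⟨k2, hk2⟩ := hw2
      refine ⟨-(tri (B, Q) (A, p)).2.1 * k2 + (Int.sign D * Int.sign Q) * k1, ?_⟩
      linear_combination (-(tri (B, Q) (A, p)).2.1) * hk2 + (Int.sign D * Int.sign Q) * hk1 +
        (Int.sign Q * Int.sign Q) * hsgnD + hsgnQ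
  · -- the empty site, height
    have h := ht_le (r := |(tr0 e ws).2.2|) (Δ := (tr0 e ws).1) (D := |(D : ℚ)|)
      (P := |(P : ℚ)|) (g := g0) (p2 := 1) (q := |(P : ℚ)|) (by rw [mul_one]; exact hg0) hΔ0Q
      hPabs hDabs hg0Q one_pos hPabs (by ring) (by
        have h1 : (g0 : ℤ) ∣ P := Int.gcd_dvd_right ..
        have h2 : (g0 : ℤ) ≤ |P| := by
          rw [← dvd_abs] at h1
          exact Int.le_of_dvd (abs_pos.mpr hP0) h1
        exact_mod_cast h2)
    rw [hinvht0, hht0]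
    refine ⟨h.1, fun h1 => hone ?_⟩
    have h2 := h.2 h1
    rw [h2] at hg0
    have h3 : |(tr0 e ws).2.2| * |(P : ℚ)| = 1 * |(P : ℚ)| := by rw [one_mul]; exact hg0
    exact mul_right_cancel₀ hPabs.ne' h3

end Pool.Agent.MTR
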