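import Pool.Agent.MTR.Stmts

/-!
# Montesinos knots, recovery part: the case of an integral total slope
-/

namespace Pool.Agent.MTR

open Pool.Agent.TB

namespace DATC

/-- The arithmetic of one site: `D = B p - Q A = f p Q`, `A` and `p` coprime. -/
theorem site (A p B Q f : ℤ) (hc : IsCoprime A p) (hp : p ≠ 0) (hD : B * p - Q * A = f * (p * Q)) :
    ∃ q : ℤ, Q = p * q ∧ B = q * (f * p + A) := by
  have h1 : p ∣ A * Q := ⟨B - f * Q, by linear_combination -hD⟩
  obtain ⟨q, hq⟩ := hc.symm.dvd_of_dvd_mul_left h1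
  refine ⟨q, hq, ?_⟩
  apply mul_right_cancel₀ hp
  rw [hq] at hD
  linear_combination hD

theorem gcd_site (A p q f : ℤ) (hc : IsCoprime A p) :
    Int.gcd (q * (f * p + A)) (p * q) = q.natAbs := by
  have h1 : p * q = q * p := mul_comm p q
  rw [h1, Int.gcd_mul_left]
  have h2 : IsCoprime (f * p + A) p := by
    rw [add_comm]
    exact (IsCoprime.add_mul_right_left_iff).mpr hc
  rw [Int.isCoprime_iff_gcd_eq_one] at h2
  rw [h2, mul_one]

end DATC

open DATC in
theorem datc (hi : INVO_Stmt) (hs : SITE_Stmt) (had : ADV_Stmt) (hn : CHNO_Stmt)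
    (hda : DATA_Stmt) : DATC_Stmt := by
  intro e ws hNF hinv x hx
  obtain ⟨hperm, hadd, -, -, hnf⟩ := had
  obtain ⟨hodd, hP0, hsite⟩ := hnf e ws hNF
  obtain ⟨-, hok0, hok, -, -, -, -, hρ0, hρ⟩ := hda e ws hNF _ rfl
  -- the empty site
  have hρ0' : |(tr0 e ws).2.2| = 1 := by
    have h1 := (hi _ hok0).2.2.2.1
    rw [hinv] at h1
    have hne : (tr0 e ws).2.2 ≠ 0 := hok0.2.2.2.2
    have h2 : (tr0 e ws).2.2 * (tr0 e ws).2.2 = 1 := by
      nth_rewrite 2 [h1]
      exact mul_inv_cancel₀ hne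
    have h3 : |(tr0 e ws).2.2| * |(tr0 e ws).2.2| = 1 := by
      rw [← abs_mul, h2, abs_one]
    nlinarith [abs_nonneg (tr0 e ws).2.2]
  set D := DD e ws with hDdef
  set P := (totv e ws).2 with hPdef
  have hgP : Int.gcd D P = P.natAbs := by
    rw [hρ0', one_mul] at hρ0
    have h1 : ((Int.gcd D P : ℕ) : ℚ) = ((P.natAbs : ℕ) : ℚ) := by
      rw [hρ0, Nat.cast_natAbs, Int.cast_abs]
    exact_mod_cast h1
  have hPD : P ∣ D := by
    rw [← Int.natAbs_dvd, ← hgP]
    exact Int.gcd_dvd_left ..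
  obtain ⟨f, hf⟩ := hPD
  have hD0 : D ≠ 0 := by
    rintro h
    rw [h] at hodd
    simp at hodd
  have hf0 : f ≠ 0 := by
    rintro rfl
    exact hD0 (by rw [hf, mul_zero])
  have hl0 : lv e ws = (D, P) := rfl
  have hΔ0 : (tr0 e ws).1 = f.natAbs := by
    have h1 := (hs (lv e ws) (0, 1) (by simp [isCoprime_zero_left]) (by
      rw [hl0]; simpa [det2] using hodd) (by rw [hl0]; exact hP0) one_ne_zero).2.2.1
    rw [hl0] at h1
    have h2 : det2 (D, P) (0, 1) = D := by simp [det2]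
    rw [h2] at h1
    have h3 : (tri (D, P) (0, 1)).1 * P.natAbs = f.natAbs * P.natAbs := by
      rw [← Int.natAbs_mul, mul_comm f P, ← hf, ← hgP]
      exact h1
    exact Nat.eq_of_mul_eq_mul_right (Int.natAbs_pos.mpr hP0) h3
  -- a tangle
  obtain ⟨y, hy, rfl⟩ := List.mem_map.mp hx
  obtain ⟨hyp, hdet, hlQ, hp0, hcop⟩ := hsite y hy
  have hokx := hok _ hx
  have hρy := (hρ y hy).2
  set l := lv e (ws.erase y) with hl
  set V := lastv y with hV
  have hPQ : P = V.2 * l.2 := by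
    have h1 := hperm e _ _ hyp
    have h2 := (hadd e y (ws.erase y)).1
    rw [hPdef, h1, h2]
    rfl
  have hdet' : l.1 * V.2 - l.2 * V.1 = f * (V.2 * l.2) := by
    have h1 : l.1 * V.2 - l.2 * V.1 = D := hdet
    rw [h1, hf, hPQ]
    ring
  obtain ⟨q, hq, hB⟩ := site V.1 V.2 l.1 l.2 f hcop hp0 hdet'
  have hq0 : q ≠ 0 := by
    rintro rfl
    exact hlQ (by rw [hq, mul_zero])
  have hg : Int.gcd l.1 l.2 = q.natAbs := by
    rw [hB, hq]
    exact gcd_site _ _ _ _ hcop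
  have hp2 : 2 ≤ |V.2| := ((hn y).2.2.2 (fun a ha => (hNF.1 y hy).2 a ha)).2 (hNF.1 y hy).1
  obtain ⟨-, -, hΔ, hlat⟩ := hs l V hcop (by rw [hdet]; exact hodd) hlQ hp0
  rw [hdet, hg] at hΔ
  have hΔ' : (tri l V).1 = f.natAbs * (V.2.natAbs * V.2.natAbs) := by
    refine Nat.eq_of_mul_eq_mul_right (Int.natAbs_pos.mpr hq0) ?_
    rw [hΔ, ← Int.natAbs_mul, ← Int.natAbs_mul, ← Int.natAbs_mul, hf, hPQ, hq]
    congr 1
    ring
  have hp2' : 2 ≤ V.2.natAbs := by
    rw [Int.abs_eq_natAbs] at hp2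
    exact_mod_cast hp2
  refine ⟨?_, ?_, ?_⟩
  · rw [hg] at hρy
    have h1 : (|(tri l V).2.2| - 1) * ((q.natAbs : ℚ) * (V.2 : ℚ) ^ 2) = 0 := by
      rw [sub_mul, hρy, one_mul, sub_eq_zero, hPQ, hq]
      push_cast
      rw [abs_mul, abs_mul, Nat.cast_natAbs, Int.cast_abs, ← sq_abs (V.2 : ℚ)]
      ring
    rcases mul_eq_zero.mp h1 with h2 | h2
    · linarith
    · exfalso
      have h3 : (q.natAbs : ℚ) ≠ 0 := by exact_mod_cast Int.natAbs_ne_zero.mpr hq0
      have h4 : (V.2 : ℚ) ≠ 0 := by exact_mod_cast hp0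
      exact (mul_ne_zero h3 (pow_ne_zero 2 h4)) h2
  · show (tr0 e ws).1 < (tri l V).1
    rw [hΔ0, hΔ']
    have h1 : 0 < f.natAbs := Int.natAbs_pos.mpr hf0
    have h2 : 2 * 2 ≤ V.2.natAbs * V.2.natAbs := Nat.mul_le_mul hp2' hp2'
    exact lt_mul_of_one_lt_right h1 (by omega)
  · intro hfix
    have h1 := (hi _ hokx).2.2.2.2.1
    rw [hfix] at h1
    set c := (tri l V).2.1 with hc
    -- the point `R = (0, 1)`
    have hsg : ∃ w : ℤ, (w = f * V.2 + V.1 ∨ w = -(f * V.2 + V.1)) ∧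
        Int.sign (det2 l V) * det2 l (0, 1) = Int.gcd l.1 l.2 * w := by
      have h2 : det2 l (0, 1) = q * (f * V.2 + V.1) := by
        rw [← hB]
        simp [det2]
      have hs1 : Int.sign (det2 l V) = 1 ∨ Int.sign (det2 l V) = -1 := by
        rcases lt_trichotomy (det2 l V) 0 with h | h | h
        · exact Or.inr (Int.sign_eq_neg_one_of_neg h)
        · exact absurd (hdet.symm.trans h) hD0
        · exact Or.inl (Int.sign_eq_one_of_pos h)
      have hq1 : (q.natAbs : ℤ) = q ∨ (q.natAbs : ℤ) = -q := by omega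
      rw [h2, hg]
      rcases hs1 with hs1 | hs1 <;> rcases hq1 with hq1 | hq1 <;> rw [hs1, hq1]
      · exact ⟨f * V.2 + V.1, Or.inl rfl, by ring⟩
      · exact ⟨-(f * V.2 + V.1), Or.inr rfl, by ring⟩
      · exact ⟨-(f * V.2 + V.1), Or.inr rfl, by ring⟩
      · exact ⟨f * V.2 + V.1, Or.inl rfl, by ring⟩
    obtain ⟨w, hw, hw2⟩ := hsg
    have h3 : ((tri l V).1 : ℤ) ∣ w - c * (-V.1) :=
      (hlat (-V.1) w).mpr ⟨(0, 1), by simp [det2], hw2⟩
    -- squares
    have hwsq : w * w = (f * V.2 + V.1) * (f * V.2 + V.1) := by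
      rcases hw with rfl | rfl <;> ring
    have h4 : ((tri l V).1 : ℤ) ∣ f * V.2 * (f * V.2 + 2 * V.1) := by
      have e1 : f * V.2 * (f * V.2 + 2 * V.1)
          = (w - c * (-V.1)) * (w + c * (-V.1)) + (c * c - 1) * (V.1 * V.1) := by
        linear_combination -hwsq
      rw [e1]
      exact dvd_add (Dvd.dvd.mul_right h3 _) (Dvd.dvd.mul_right h1 _)
    have h5 : f * V.2 * V.2 ∣ f * V.2 * (f * V.2 + 2 * V.1) := by
      refine dvd_trans ?_ h4
      rw [hΔ', ← Int.natAbs_dvd]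
      apply dvd_of_eq
      rw [Int.natAbs_mul, Int.natAbs_mul, mul_assoc]
    have h6 : V.2 ∣ f * V.2 + 2 * V.1 :=
      (mul_dvd_mul_iff_left (mul_ne_zero hf0 hp0)).mp h5
    have h7 : V.2 ∣ V.1 * 2 := by
      have h8 := dvd_sub h6 (Dvd.intro_left f rfl)
      have e2 : f * V.2 + 2 * V.1 - f * V.2 = V.1 * 2 := by ring
      rwa [e2] at h8
    have h8 : V.2 ∣ 2 := hcop.symm.dvd_of_dvd_mul_left h7
    have h9 : Odd V.2 := by
      have h10 : Odd (V.2 * (l.2 * f)) := by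
        have e3 : V.2 * (l.2 * f) = D := by rw [hf, hPQ]; ring
        rw [e3]
        exact hodd
      exact (Int.odd_mul.mp h10).1
    have h11 : V.2.natAbs ∣ 2 := by
      have := Int.natAbs_dvd_natAbs.mpr h8
      simpa using this
    have h12 : V.2.natAbs = 2 := le_antisymm (Nat.le_of_dvd two_pos h11) hp2'
    rw [← Int.natAbs_odd, h12] at h9
    exact absurd h9 (by decide)

end Pool.Agent.MTR
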