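import Pool.Agent.MTR.Stmts

/-!
# Montesinos knots, recovery part: at most two tangles
-/

namespace Pool.Agent.MTR

open Pool.Agent.TB

namespace DATD

/-- the involution on the triples in normal form: `x.inv = y ↔ x = y.inv` -/
theorem inv_eq_iff (hi : INVO_Stmt) {x y : Tri} (hx : x.ok) (hy : y.ok) :
    x.inv = y ↔ x = y.inv := by
  constructor
  · intro h
    rw [← h, (hi x hx).2.1]
  · intro h
    rw [h, (hi y hy).2.1]

/-- the sites of two tangles are exchanged by the inversion -/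
theorem two (hi : INVO_Stmt) (hs : SITE_Stmt) (e : ℤ) (V W : ℤ × ℤ)
    (hV : IsCoprime V.1 V.2) (hW : IsCoprime W.1 W.2) (hV2 : V.2 ≠ 0) (hW2 : W.2 ≠ 0)
    (hD : Odd (det2 (e * W.2 - W.1, W.2) V)) :
    (tri (e * W.2 - W.1, W.2) V).inv = tri (e * V.2 - V.1, V.2) W := by
  set D := det2 (e * W.2 - W.1, W.2) V with hDdef
  have hD' : det2 (e * V.2 - V.1, V.2) W = D := by
    simp only [hDdef, det2]
    ring
  have hD0 : D ≠ 0 := by
    rintro h
    rw [h] at hD
    simp at hD
  have hg1 : Int.gcd (e * W.2 - W.1) W.2 = 1 := by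
    rw [← Int.isCoprime_iff_gcd_eq_one]
    have h1 : IsCoprime (-W.1) W.2 := hW.neg_left
    have h2 : e * W.2 - W.1 = -W.1 + e * W.2 := by ring
    rw [h2]
    exact IsCoprime.add_mul_right_left_iff.mpr h1
  have hg2 : Int.gcd (e * V.2 - V.1) V.2 = 1 := by
    rw [← Int.isCoprime_iff_gcd_eq_one]
    have h1 : IsCoprime (-V.1) V.2 := hV.neg_left
    have h2 : e * V.2 - V.1 = -V.1 + e * V.2 := by ring
    rw [h2]
    exact IsCoprime.add_mul_right_left_iff.mpr h1
  obtain ⟨ok1, -, hΔ1, hlat1⟩ := hs (e * W.2 - W.1, W.2) V hV hD hW2 hV2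
  obtain ⟨ok2, -, hΔ2, hlat2⟩ := hs (e * V.2 - V.1, V.2) W hW (by rw [hD']; exact hD) hV2 hW2
  rw [← hDdef] at hΔ1 hlat1
  rw [hD'] at hΔ2 hlat2
  simp only [hg1, hg2, mul_one] at hΔ1 hΔ2 hlat1 hlat2
  obtain ⟨-, -, hi1, hi2, -, hi3, -⟩ := hi _ ok1
  set T1 := tri (e * W.2 - W.1, W.2) V with hT1
  set T2 := tri (e * V.2 - V.1, V.2) W with hT2
  have hρ1 : T1.2.2 = (Int.sign D : ℚ) * W.2 / V.2 := by
    simp only [hT1, tri, hg1]
    rw [← hDdef]
    push_cast
    rw [one_mul]
  have hρ2 : T2.2.2 = (Int.sign D : ℚ) * V.2 / W.2 := by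
    simp only [hT2, tri, hg2]
    rw [hD']
    push_cast
    rw [one_mul]
  have hs2 : Int.sign D * Int.sign D = 1 := by
    rcases lt_or_gt_of_ne hD0 with h | h
    · rw [Int.sign_eq_neg_one_of_neg h]; rfl
    · rw [Int.sign_eq_one_of_pos h]; rfl
  have hc : (T1.1 : ℤ) ∣ T1.2.1 * T2.2.1 - 1 := by
    obtain ⟨R, hR1, hR2⟩ := (hlat1 1 T1.2.1).mp (by simp)
    have h1 := (hlat2 T1.2.1 1).mpr ⟨(Int.sign D * (e * R.2 - R.1), Int.sign D * R.2), by
      rw [← one_mul T1.2.1]
      have : ((1 : ℕ) : ℤ) = 1 := rfl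
      rw [this] at hR2
      rw [← hR2]
      simp only [det2]
      ring, by
      have : ((1 : ℕ) : ℤ) = 1 := rfl
      rw [this, one_mul]
      simp only [det2] at hR1 ⊢
      calc Int.sign D * ((e * V.2 - V.1) * (Int.sign D * R.2) - V.2 * (Int.sign D * (e * R.2 - R.1)))
          = (Int.sign D * Int.sign D) * (R.1 * V.2 - R.2 * V.1) := by ring
        _ = 1 := by rw [hs2, hR1, one_mul]⟩
    rw [hΔ1, ← hΔ2]
    have h2 : T1.2.1 * T2.2.1 - 1 = -(1 - T2.2.1 * T1.2.1) := by ring
    rw [h2]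
    exact (dvd_neg).mpr h1
  have h3 := hi3 T2.2.1 ok2.2.1 (by rw [hΔ1, ← hΔ2]; exact ok2.2.2.1) hc
  refine Prod.ext ?_ (Prod.ext ?_ ?_)
  · rw [hi1, hΔ1, hΔ2]
  · exact h3
  · rw [hi2, hρ1, hρ2]
    have hV2' : (V.2 : ℚ) ≠ 0 := by exact_mod_cast hV2
    have hW2' : (W.2 : ℚ) ≠ 0 := by exact_mod_cast hW2
    have hs3 : (Int.sign D : ℚ) * (Int.sign D : ℚ) = 1 := by exact_mod_cast hs2
    have hs0 : (Int.sign D : ℚ) ≠ 0 := by
      rintro h
      rw [h] at hs3
      simp at hs3
    rw [inv_div, div_eq_div_iff (mul_ne_zero hs0 hW2') hW2']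
    linear_combination (-(W.2 * V.2) : ℚ) * hs3

end DATD

open DATD in
theorem datd (hi : INVO_Stmt) (hs : SITE_Stmt) (had : ADV_Stmt) (hda : DATA_Stmt)
    (hdb : DATB_Stmt) : DATD_Stmt := by
  intro e ws hNF hlen x hx
  obtain ⟨hperm, hadd, -, -, hnf⟩ := had
  obtain ⟨hodd, hP0, hsite⟩ := hnf e ws hNF
  obtain ⟨-, hok0, hok, -, -, -, hht0, hρ0, hρ⟩ := hda e ws hNF _ rfl
  obtain ⟨hdb1, -, hdb3⟩ := hdb e ws hNF
  have hD0 : DD e ws ≠ 0 := by
    rintro h
    rw [h] at hodd
    simp at hodd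
  match ws, hNF, hlen, hodd, hP0, hsite, hok0, hok, hht0, hρ0, hρ, hdb1, hdb3, hD0 with
  | [], hNF, hlen, hodd, hP0, hsite, hok0, hok, hht0, hρ0, hρ, hdb1, hdb3, hD0 =>
    have h1 : totv e [] = (-e, 1) := rfl
    have h2 : |(tr0 e []).2.2| = 1 := by
      rw [h1] at hρ0
      simpa using hρ0
    have h3 := hdb3 h2
    have h4 : x = tr0 e [] ↔ x.inv = tr0 e [] := by
      rw [inv_eq_iff hi hx hok0, h3]
    simp only [mz, h4]
    simp [trs]
  | [y], hNF, hlen, hodd, hP0, hsite, hok0, hok, hht0, hρ0, hρ, hdb1, hdb3, hD0 =>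
    have herase : [y].erase y = [] := by simp
    have htr : trs e [y] = [tri (lv e []) (lastv y)] := by
      simp [trs]
    obtain ⟨-, hdet, hlQ, hp0, hcop⟩ := hsite y (by simp)
    rw [herase] at hdet hlQ
    obtain ⟨hht, hρy⟩ := hρ y (by simp)
    rw [herase] at hht hρy
    have hoky : (tri (lv e []) (lastv y)).ok := hok _ (by rw [htr]; simp)
    have hl : lv e [] = (e, 1) := by
      simp [lv, totv]
    obtain ⟨-, -, -, hi2, -, -, hi4⟩ := hi _ hoky
    have hP : (totv e [y]).2 = (lastv y).2 := by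
      rw [(hadd e y []).1]
      simp [addv, totv]
    set T := tri (lv e []) (lastv y) with hT
    have hinv : T.inv = tr0 e [y] := by
      refine (hdb1 T (by rw [htr]; simp)).2 ?_
      have hΔ := (hs (lv e []) (lastv y) hcop (by rw [hdet]; exact hodd) hlQ hp0).2.2.1
      rw [hdet, hl] at hΔ
      simp only [Int.gcd_one_right, mul_one] at hΔ
      rw [← hl, ← hT] at hΔ
      rw [hi4, hht0, hP, hΔ]
      rw [hl, hP] at hρy
      simp only [Int.gcd_one_right, Nat.cast_one, one_mul] at hρy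
      have hp0' : ((lastv y).2 : ℚ) ≠ 0 := by exact_mod_cast hp0
      have hpa : |((lastv y).2 : ℚ)| ≠ 0 := abs_ne_zero.mpr hp0'
      have hsq : ((lastv y).2 : ℚ) ^ 2 = |((lastv y).2 : ℚ)| ^ 2 := (sq_abs _).symm
      have hD0' : |(DD e [y] : ℚ)| ≠ 0 := abs_ne_zero.mpr (by exact_mod_cast hD0)
      rw [hsq] at hρy
      have hρ1 : |T.2.2| * |((lastv y).2 : ℚ)| = 1 := by
        have : (|T.2.2| * |((lastv y).2 : ℚ)| - 1) * |((lastv y).2 : ℚ)| = 0 := by
          linear_combination hρy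
        rcases mul_eq_zero.mp this with h | h
        · linarith
        · exact absurd h hpa
      have hna : (((DD e [y]).natAbs : ℕ) : ℚ) = |(DD e [y] : ℚ)| := by
        rw [Nat.cast_natAbs, Int.cast_abs]
      rw [hna]
      have hρne : |T.2.2| ≠ 0 := abs_ne_zero.mpr hoky.2.2.2.2
      rw [div_eq_div_iff (mul_ne_zero hρne hD0') hD0']
      linear_combination (-|(DD e [y] : ℚ)|) * hρ1
    have h4 : x.inv = T ↔ x = tr0 e [y] := by
      rw [inv_eq_iff hi hx hoky, hinv]
    have h5 : x.inv = tr0 e [y] ↔ x = T := by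
      rw [inv_eq_iff hi hx hok0, ← hinv, (hi _ hoky).2.1]
    simp only [mz, htr, h5, List.count_singleton, List.length_singleton]
    by_cases h6 : x = tr0 e [y]
    · have h7 : x.inv = T := h4.mpr h6
      by_cases h8 : x = T
      · rw [if_pos h6, if_pos h8, h7, ← h8]
      · rw [if_pos h6, if_neg h8, h7]
        have : (T == x) = false := by simpa using fun h => h8 h.symm
        simp [this]
    · have h7 : ¬ x.inv = T := fun h => h6 (h4.mp h)
      have h7' : (T == x.inv) = false := by simpa using fun h => h7 h.symm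
      by_cases h8 : x = T
      · rw [if_neg h6, if_pos h8, h7', ← h8]
        simp
      · have : (T == x) = false := by simpa using fun h => h8 h.symm
        rw [if_neg h6, if_neg h8, h7', this]
  | [y, z], hNF, hlen, hodd, hP0, hsite, hok0, hok, hht0, hρ0, hρ, hdb1, hdb3, hD0 =>
    have he1 : [y, z].erase y = [z] := by simp
    have he2 : [y, z].erase z = [y] := by
      by_cases h : y = z
      · subst h; simp
      · rw [List.erase_cons_tail (by simpa using h)]
        simp
    have hlz : ∀ w : List ℤ, lv e [w] = (e * (lastv w).2 - (lastv w).1, (lastv w).2) := by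
      intro w
      simp only [lv, totv, addv, List.map_cons, List.map_nil, List.foldr_cons, List.foldr_nil]
      refine Prod.ext ?_ ?_
      · show -((lastv w).1 * 1 + -e * (lastv w).2) = e * (lastv w).2 - (lastv w).1
        ring
      · show (lastv w).2 * 1 = (lastv w).2
        ring
    have htr : trs e [y, z] = [tri (lv e [z]) (lastv y), tri (lv e [y]) (lastv z)] := by
      simp only [trs, List.map_cons, List.map_nil, he1, he2]
    obtain ⟨-, hdety, hlQy, hp0y, hcopy⟩ := hsite y (by simp)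
    obtain ⟨-, hdetz, hlQz, hp0z, hcopz⟩ := hsite z (by simp)
    rw [he1] at hdety hlQy
    rw [he2] at hdetz hlQz
    have hoky : (tri (lv e [z]) (lastv y)).ok := hok _ (by rw [htr]; simp)
    have hokz : (tri (lv e [y]) (lastv z)).ok := hok _ (by rw [htr]; simp)
    have hinv : (tri (lv e [z]) (lastv y)).inv = tri (lv e [y]) (lastv z) := by
      rw [hlz y, hlz z]
      apply two hi hs e (lastv y) (lastv z) hcopy hcopz hp0y hp0z
      rw [← hlz z, hdety]
      exact hodd
    set T1 := tri (lv e [z]) (lastv y) with hT1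
    set T2 := tri (lv e [y]) (lastv z) with hT2
    have h4 : x.inv = T1 ↔ x = T2 := by
      rw [inv_eq_iff hi hx hoky, hinv]
    have h5 : x.inv = T2 ↔ x = T1 := by
      rw [inv_eq_iff hi hx hokz, ← hinv, (hi _ hoky).2.1]
    have hc : ∀ t : Tri, (trs e [y, z]).count t =
        (if t = T1 then 1 else 0) + (if t = T2 then 1 else 0) := by
      intro t
      rw [htr, List.count_cons, List.count_singleton]
      rw [add_comm]
      congr 1
      · by_cases h : t = T1
        · simp [h]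
        · have : ¬ T1 = t := fun h' => h h'.symm
          simp [h, this]
      · by_cases h : t = T2
        · simp [h]
        · have : ¬ T2 = t := fun h' => h h'.symm
          simp [h, this]
    have hl2 : (((trs e [y, z]).length : ℕ) : ℤ) - 2 = 0 := by
      rw [htr]; simp
    simp only [mz, hc, hl2, h4, h5]
    push_cast
    simp only [ite_self]
    ring
  | y :: z :: w :: rest, hNF, hlen, hodd, hP0, hsite, hok0, hok, hht0, hρ0, hρ, hdb1, hdb3, hD0 =>
    exfalso
    simp [trs] at hlen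

end Pool.Agent.MTR
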