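import Mathlib
import Pool.Agent.TB.Defs2

/-!
Montesinos knots, recovery part: definitions. See PAPER.md in this folder.

The data of a Montesinos knot are an integer `e` and a list `ws` of words; a word is a list of
nonzero integers, outermost letter first. The vector of a word `x` is `lastv x = (A, p)`; the slope
of the rational tangle is `A / p`.
-/

open scoped BigOperators

namespace Pool.Agent.MTR

open Pool.Agent.TB

/-- addition of slopes: `A/p + A'/p' = (A p' + A' p)/(p p')` -/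
def addv (u v : ℤ × ℤ) : ℤ × ℤ := (u.1 * v.2 + v.1 * u.2, u.2 * v.2)

/-- the sum of the slopes of all words, minus `e`: this is the vector `(-D, P)` -/
def totv (e : ℤ) (ws : List (List ℤ)) : ℤ × ℤ := (ws.map lastv).foldr addv (-e, 1)

/-- `D = e P - Σ A_k Q_k` -/
def DD (e : ℤ) (ws : List (List ℤ)) : ℤ := -(totv e ws).1

/-- the vector `ℓ = (B, Q)` of the complement of a tangle; `rest` are the other words -/
def lv (e : ℤ) (rest : List (List ℤ)) : ℤ × ℤ := (-(totv e rest).1, (totv e rest).2)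

/-- Normal form: the words are nonempty and have nonzero letters, and either all words have even
length and `e` is odd, or exactly one word has odd length and `e` is even. -/
def NF (e : ℤ) (ws : List (List ℤ)) : Prop :=
  (∀ x ∈ ws, x ≠ [] ∧ ∀ a ∈ x, a ≠ 0) ∧
    ((Odd e ∧ ∀ x ∈ ws, Even x.length) ∨
      (Even e ∧ ws.countP (fun x => decide (x.length % 2 = 1)) = 1))

/-- Nondegenerate: no `N - 2` of the tangles together with the half twists have an integer sum. -/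
def ND (e : ℤ) (ws : List (List ℤ)) : Prop :=
  ∀ (x y : List ℤ) (rest : List (List ℤ)), ws.Perm (x :: y :: rest) →
    ¬ (totv e rest).2 ∣ (totv e rest).1

/-- The site sum: `Σ -p / (R_2 ⟨R,V⟩)` over all integral `R` with `c ⟨ℓ,R⟩ ⟨R,V⟩ = M`, `V = (A,p)`. -/
noncomputable def zsum (c : ℤ) (l V : ℤ × ℤ) (M : ℤ) : ℚ :=
  ∑ᶠ R ∈ {R : ℤ × ℤ | c * (det2 l R * det2 R V) = M}, -(V.2 : ℚ) / (R.2 * det2 R V)

/-- The limit function of the Montesinos knot. -/
noncomputable def Phi (e : ℤ) (ws : List (List ℤ)) (c M : ℤ) : ℚ :=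
  (ws.map fun x => zsum c (lv e (ws.erase x)) (lastv x) M).sum -
    ((ws.length : ℚ) - 2) * zsum c (lv e ws) (0, 1) M

/-- The identity between the limit functions given by the equality of all finite type
invariants. -/
def PhiEq (e : ℤ) (ws : List (List ℤ)) (e' : ℤ) (ws' : List (List ℤ)) : Prop :=
  ∃ L : ℕ, ∀ M : ℤ, Odd M → (∃ q : ℕ, q.Prime ∧ L < q ∧ (q : ℤ) ∣ M ∧ ¬ (q : ℤ) ^ 2 ∣ M) →
    Phi e ws (DD e' ws') M = Phi e' ws' (DD e ws) M

/-! ### Triples -/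

/-- Triples `(Δ, c, ρ)`. -/
abbrev Tri : Type := ℕ × ℤ × ℚ

namespace Tri

/-- `Δ` odd, `c` a reduced residue modulo `Δ` in `[0, Δ)`, `ρ ≠ 0` -/
def ok (x : Tri) : Prop :=
  Odd x.1 ∧ 0 ≤ x.2.1 ∧ x.2.1 < x.1 ∧ IsCoprime x.2.1 (x.1 : ℤ) ∧ x.2.2 ≠ 0

/-- `(Δ, c, ρ) ↦ (Δ, 1/c, 1/ρ)` -/
def inv (x : Tri) : Tri := (x.1, (((x.2.1 : ZMod x.1)⁻¹).val : ℤ), x.2.2⁻¹)

/-- `|ρ| / Δ` -/
def ht (x : Tri) : ℚ := |x.2.2| / x.1

/-- The function `T_x(t) = - Δ Σ 1/(u (w + ρ u))`, `u w = t Δ`, `w = c u` modulo `Δ`. -/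
noncomputable def T (x : Tri) (t : ℚ) : ℚ :=
  ∑ᶠ p ∈ {p : ℤ × ℤ | (p.1 : ℚ) * p.2 = t * x.1 ∧ (x.1 : ℤ) ∣ p.2 - x.2.1 * p.1},
    -(x.1 : ℚ) / (p.1 * (p.2 + x.2.2 * p.1))

end Tri

/-- the triple of a site -/
def tri (l V : ℤ × ℤ) : Tri :=
  let D := det2 l V
  let g := Int.gcd l.1 l.2
  let R : ℤ × ℤ := (Int.gcdA V.2 V.1, -Int.gcdB V.2 V.1)
  (D.natAbs / g, (Int.sign D * det2 l R / g) % ((D.natAbs / g : ℕ) : ℤ),
    (Int.sign D : ℚ) * l.2 / (g * V.2))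

/-- the triples of the tangles -/
def trs (e : ℤ) (ws : List (List ℤ)) : List Tri :=
  ws.map fun x => tri (lv e (ws.erase x)) (lastv x)

/-- the triple of the empty site -/
def tr0 (e : ℤ) (ws : List (List ℤ)) : Tri := tri (lv e ws) (0, 1)

/-- the multiplicities -/
def mz (x0 : Tri) (X : List Tri) (x : Tri) : ℤ :=
  (X.count x : ℤ) - if x = x0 then (X.length : ℤ) - 2 else 0

/-- the multiplicities of the pairs `(Δ, c)` -/
def mc (x0 : Tri) (X : List Tri) (p : ℕ × ℤ) : ℤ :=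
  (X.countP (fun x => decide ((x.1, x.2.1) = p)) : ℤ) -
    if (x0.1, x0.2.1) = p then (X.length : ℤ) - 2 else 0

/-- no two of the triples are inverse to each other -/
def NDT (X : List Tri) : Prop :=
  ∀ (x y : Tri) (rest : List Tri), X.Perm (x :: y :: rest) → x ≠ y.inv

/-- the properties of the triples of a Montesinos knot used in the combinatorial argument -/
structure Dat (σ : ℚ) (x0 : Tri) (X : List Tri) : Prop where
  hσ : σ = 1 ∨ σ = -1
  ok0 : x0.ok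
  ok : ∀ x ∈ X, x.ok
  sgn0 : 0 < x0.2.2 * σ
  sgn : ∀ x ∈ X, 0 < x.2.2 * σ
  lt : ∀ x ∈ X, x.ht < x0.ht
  inv_le : ∀ x ∈ X, x.inv.ht ≤ x0.ht ∧ (x.inv.ht = x0.ht → x.inv = x0)
  inv0 : x0.inv.ht ≤ x0.ht ∧ (x0.inv.ht = x0.ht → x0.inv = x0)
  one : |x0.2.2| = 1 → x0.inv = x0
  int : x0.inv = x0 → ∀ x ∈ X, |x.2.2| = 1 ∧ x0.1 < x.1 ∧ x.inv ≠ x
  small : X.length ≤ 2 → ∀ x : Tri, x.ok → mz x0 X x = mz x0 X x.inv

end Pool.Agent.MTR
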