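import Pool.Agent.MTR.Stmts

/-!
Montesinos knots, recovery part: recovery of the data from the triples.
-/

open scoped BigOperators

namespace Pool.Agent.MTR.FINR

open Pool.Agent.TB

/-- the slope -/
def sl (x : List ℤ) : ℚ := ((lastv x).1 : ℚ) / (lastv x).2

/-- odd length -/
def od (x : List ℤ) : Bool := decide (x.length % 2 = 1)

theorem forall₂_of_map {α β γ : Type} (f : α → γ) (f' : β → γ) : ∀ (l : List α) (l' : List β),
    l'.map f' = l.map f → List.Forall₂ (fun a b => (a ∈ l ∧ b ∈ l') ∧ f a = f' b) l l'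
  | [], [], _ => List.Forall₂.nil
  | [], b :: l', h => by simp at h
  | a :: l, [], h => by simp at h
  | a :: l, b :: l', h => by
    rw [List.map_cons, List.map_cons, List.cons.injEq] at h
    refine List.Forall₂.cons ⟨⟨List.mem_cons_self, List.mem_cons_self⟩, h.1.symm⟩ ?_
    refine (forall₂_of_map f f' l l' h.2).imp ?_
    intro c d hcd
    exact ⟨⟨List.mem_cons_of_mem _ hcd.1.1, List.mem_cons_of_mem _ hcd.1.2⟩, hcd.2⟩

/-- two words whose slopes differ by an integer `z`, and `z = 0` for even length -/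
def Rl (x y : List ℤ) : Prop :=
  od x = od y ∧ ∃ z : ℤ, sl y - sl x = z ∧ |z| ≤ if od x then 1 else 0

theorem Rl_sum : ∀ {l l' : List (List ℤ)}, List.Forall₂ Rl l l' →
    l.countP od = l'.countP od ∧
    ∃ z : ℤ, (l'.map sl).sum - (l.map sl).sum = z ∧ |z| ≤ l.countP od ∧
      (l.countP od ≤ 1 → z = 0 → List.Forall₂ (fun x y => od x = od y ∧ sl x = sl y) l l')
  | _, _, List.Forall₂.nil => ⟨rfl, 0, by simp, by simp, fun _ _ => List.Forall₂.nil⟩
  | _, _, List.Forall₂.cons (a := x) (b := y) (l₁ := l) (l₂ := l') h1 h2 => by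
    obtain ⟨hod, z, hz, hz1⟩ := h1
    obtain ⟨hc, w, hw, hw1, hw2⟩ := Rl_sum h2
    have hc1 : (x :: l).countP od = l.countP od + if od x then 1 else 0 := List.countP_cons
    have hc2 : (y :: l').countP od = l'.countP od + if od y then 1 else 0 := List.countP_cons
    refine ⟨by rw [hc1, hc2, hc, hod], z + w, ?_, ?_, ?_⟩
    · rw [List.map_cons, List.map_cons, List.sum_cons, List.sum_cons]
      push_cast
      rw [← hz, ← hw]
      ring
    · rw [hc1]
      push_cast
      refine (abs_add_le z w).trans ?_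
      rw [add_comm]
      refine add_le_add hw1 (hz1.trans ?_)
      split_ifs <;> simp
    · intro hle hzw
      rw [hc1] at hle
      by_cases hx : od x = true
      · rw [if_pos hx] at hle
        have h0 : l.countP od = 0 := by omega
        rw [h0] at hw1
        have hw0 : w = 0 := by simpa using hw1
        have hz0 : z = 0 := by rw [hw0, add_zero] at hzw; exact hzw
        refine List.Forall₂.cons ⟨hod, ?_⟩ (hw2 (by omega) hw0)
        rw [hz0] at hz
        have : sl y - sl x = 0 := by simpa using hz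
        linarith
      · rw [if_neg hx] at hz1 hle
        have hz0 : z = 0 := by simpa using hz1
        have hw0 : w = 0 := by rw [hz0, zero_add] at hzw; exact hzw
        refine List.Forall₂.cons ⟨hod, ?_⟩ (hw2 (by omega) hw0)
        rw [hz0] at hz
        have : sl y - sl x = 0 := by simpa using hz
        linarith

theorem od_true {x : List ℤ} : od x = true ↔ Odd x.length := by
  unfold od
  rw [decide_eq_true_iff, Nat.odd_iff]

theorem od_false {x : List ℤ} : od x = false ↔ Even x.length := by
  unfold od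
  rw [decide_eq_false_iff_not, Nat.even_iff]
  omega

end Pool.Agent.MTR.FINR

namespace Pool.Agent.MTR

open Pool.Agent.TB FINR

theorem finr (hn : CHNO_Stmt) (hc : CFUO_Stmt) (had : ADV_Stmt) (hda : DATA_Stmt) (hl : LAT_Stmt)
    (hp : PLIFT_Stmt) : FINR_Stmt := by
  intro e ws e' ws' hNF hNF' htr0 htrs
  obtain ⟨-, -, had3, had4, had5⟩ := had
  obtain ⟨hD, hP, hsite⟩ := had5 e ws hNF
  obtain ⟨hD', hP', hsite'⟩ := had5 e' ws' hNF'
  obtain ⟨hσ, -, -, hsgn0, -, -, hht0, -, hhtx⟩ := hda e ws hNF _ rfl
  obtain ⟨hσ', -, -, hsgn0', -, -, hht0', -, hhtx'⟩ := hda e' ws' hNF' _ rfl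
  obtain ⟨ws'', hperm, hmap⟩ := hp.1 _ _ (fun x => tri (lv e' (ws'.erase x)) (lastv x)) ws'
    (trs e ws) htrs
  have hfor := forall₂_of_map (fun x => tri (lv e (ws.erase x)) (lastv x))
    (fun x => tri (lv e' (ws'.erase x)) (lastv x)) ws ws'' hmap
  set P := (totv e ws).2
  set P' := (totv e' ws').2
  set D := DD e ws
  set D' := DD e' ws'
  have hD0 : D ≠ 0 := by
    rintro h
    rw [h] at hD
    exact absurd hD (by decide)
  have hD0' : D' ≠ 0 := by
    rintro h
    rw [h] at hD'
    exact absurd hD' (by decide)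
  have hPq : (0 : ℚ) < |(P : ℚ)| := abs_pos.mpr (by exact_mod_cast hP)
  have hPq' : (0 : ℚ) < |(P' : ℚ)| := abs_pos.mpr (by exact_mod_cast hP')
  have hDq : (0 : ℚ) < |(D : ℚ)| := abs_pos.mpr (by exact_mod_cast hD0)
  have hDq' : (0 : ℚ) < |(D' : ℚ)| := abs_pos.mpr (by exact_mod_cast hD0')
  have hH : |(P : ℚ)| / |(D : ℚ)| = |(P' : ℚ)| / |(D' : ℚ)| := by
    rw [← hht0, ← hht0', htr0]
  -- absolute values of the denominators
  have habs : ∀ x ∈ ws, ∀ x' ∈ ws', tri (lv e (ws.erase x)) (lastv x) =
      tri (lv e' (ws'.erase x')) (lastv x') → |(lastv x).2| = |(lastv x').2| := by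
    intro x hx x' hx' h
    obtain ⟨-, -, -, hpx, -⟩ := hsite x hx
    obtain ⟨-, -, -, hpx', -⟩ := hsite' x' hx'
    have h1 := (hhtx x hx).1
    have h2 := (hhtx' x' hx').1
    rw [h, h2] at h1
    have hq : ((lastv x).2 : ℚ) ≠ 0 := by exact_mod_cast hpx
    have hq' : ((lastv x').2 : ℚ) ≠ 0 := by exact_mod_cast hpx'
    rw [← div_div, ← div_div, ← hH] at h1
    have hpos : 0 < |(P : ℚ)| / |(D : ℚ)| := div_pos hPq hDq
    have h3 : ((lastv x).2 : ℚ) ^ 2 = ((lastv x').2 : ℚ) ^ 2 := by
      field_simp at h1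
      exact h1
    exact (sq_eq_sq_iff_abs_eq_abs _ _).mp (by exact_mod_cast h3)
  -- local analysis
  have hloc : List.Forall₂ (fun x x' => |(lastv x).2| = |(lastv x').2| ∧ Rl x x') ws ws'' := by
    refine hfor.imp ?_
    rintro x x' ⟨⟨hx, hx''⟩, htri⟩
    have hx' : x' ∈ ws' := hperm.mem_iff.mp hx''
    have ha := habs x hx x' hx' htri
    obtain ⟨-, hdet, hl2, hpx, hcop⟩ := hsite x hx
    obtain ⟨-, hdet', hl2', hpx', hcop'⟩ := hsite' x' hx'
    obtain ⟨s, hs, hps, hdvd⟩ := hl (lv e (ws.erase x)) (lastv x) (lv e' (ws'.erase x')) (lastv x')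
      hcop (by rw [hdet]; exact hD) hl2 hpx hcop' (by rw [hdet']; exact hD') hl2' hpx' htri ha
    obtain ⟨-, hev, hod, hgr⟩ := hn x
    obtain ⟨-, hev', hod', hgr'⟩ := hn x'
    have hA := (hgr (hNF.1 x hx).2).1
    have hA' := (hgr' (hNF'.1 x' hx').2).1
    have hss : |s| = 1 := by rcases hs with rfl | rfl <;> simp
    have hs2 : s * s = 1 := by rcases hs with rfl | rfl <;> norm_num
    obtain ⟨z, hz⟩ := hdvd
    have hpabs : 0 < |(lastv x).2| := abs_pos.mpr hpx
    have hlt : |(lastv x).2| * |z| < 2 * |(lastv x).2| := by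
      rw [← abs_mul, ← hz]
      calc |(lastv x').1 - s * (lastv x).1| ≤ |(lastv x').1| + |s * (lastv x).1| := abs_sub _ _
        _ = |(lastv x').1| + |(lastv x).1| := by rw [abs_mul, hss, one_mul]
        _ < |(lastv x').2| + |(lastv x).2| := add_lt_add hA' hA
        _ = 2 * |(lastv x).2| := by rw [← ha]; ring
    have hz1 : |z| < 2 := by
      rw [mul_comm] at hlt
      exact lt_of_mul_lt_mul_right hlt hpabs.le
    have hodeq : od x = od x' := by
      by_cases hx1 : Even x.length
      · rw [od_false.mpr hx1]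
        by_contra hne
        have h2 : od x' = true := by
          cases h : od x' with
          | true => rfl
          | false => exact absurd h.symm hne
        have h3 := (hod' (od_true.mp h2)).2
        have h4 := (hev hx1).2
        rw [hps] at h3
        rcases hs with rfl | rfl
        · rw [one_mul] at h3
          exact (Int.not_even_iff_odd.mpr h4) h3
        · rw [neg_one_mul, even_neg] at h3
          exact (Int.not_even_iff_odd.mpr h4) h3
      · have hx2 : Odd x.length := Nat.not_even_iff_odd.mp hx1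
        rw [od_true.mpr hx2]
        by_contra hne
        have h2 : od x' = false := by
          cases h : od x' with
          | true => exact absurd h.symm hne
          | false => rfl
        have h3 := (hev' (od_false.mp h2)).2
        have h4 := (hod hx2).2
        rw [hps] at h3
        rcases hs with rfl | rfl
        · rw [one_mul] at h3
          exact (Int.not_even_iff_odd.mpr h3) h4
        · rw [neg_one_mul, odd_neg] at h3
          exact (Int.not_even_iff_odd.mpr h3) h4
    have hq : ((lastv x).2 : ℚ) ≠ 0 := by exact_mod_cast hpx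
    have hdiff : sl x' - sl x = ((s * z : ℤ) : ℚ) := by
      unfold sl
      have h1 : ((lastv x').1 : ℚ) = s * (lastv x).1 + (lastv x).2 * z := by
        have : (lastv x').1 = s * (lastv x).1 + (lastv x).2 * z := by linarith
        exact_mod_cast this
      have h2 : ((lastv x').2 : ℚ) = s * (lastv x).2 := by exact_mod_cast hps
      have hsq : (s : ℚ) ≠ 0 := by
        rcases hs with rfl | rfl <;> norm_num
      rw [h1, h2]
      push_cast
      field_simp
      have hs3 : (s : ℚ) ^ 2 = 1 := by
        rcases hs with rfl | rfl <;> norm_num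
      rw [hs3]
      ring
    refine ⟨ha, hodeq, s * z, hdiff, ?_⟩
    rw [abs_mul, hss, one_mul]
    by_cases hx1 : od x = true
    · rw [if_pos hx1]
      omega
    · rw [if_neg hx1]
      have hx2 : Even x.length := od_false.mp (by simpa using hx1)
      have hx3 : Even x'.length := od_false.mp (by rw [← hodeq]; simpa using hx1)
      have h1 : Even ((lastv x).2 * z) := by
        rw [← hz]
        exact (hev' hx3).1.sub ((hev hx2).1.mul_left s)
      have h2 : Even z := by
        rcases Int.even_mul.mp h1 with h | h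
        · exact absurd h (Int.not_even_iff_odd.mpr (hev hx2).2)
        · exact h
      obtain ⟨k, hk⟩ := h2
      rw [abs_lt] at hz1
      have : z = 0 := by omega
      rw [this]
      simp
  have hR : List.Forall₂ Rl ws ws'' := hloc.imp fun _ _ h => h.2
  obtain ⟨hcount, z, hz, hz1, hz2⟩ := Rl_sum hR
  -- products
  have hprod : |P| = |P'| := by
    have h1 : ∀ {l l' : List (List ℤ)},
        List.Forall₂ (fun x x' => |(lastv x).2| = |(lastv x').2| ∧ Rl x x') l l' →
        |(l.map fun x => (lastv x).2).prod| = |(l'.map fun x => (lastv x).2).prod| := by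
      intro l l' h
      induction h with
      | nil => rfl
      | cons h1 _ ih =>
        rw [List.map_cons, List.map_cons, List.prod_cons, List.prod_cons, abs_mul, abs_mul, ih,
          h1.1]
    have h2 := h1 hloc
    have h3 : (ws''.map fun x => (lastv x).2).prod = (ws'.map fun x => (lastv x).2).prod :=
      (hperm.map _).prod_eq
    rw [h3, ← had3 e ws, ← had3 e' ws'] at h2
    exact h2
  have hprodq : |(P : ℚ)| = |(P' : ℚ)| := by exact_mod_cast hprod
  have hDabs : |(D : ℚ)| = |(D' : ℚ)| := by
    rw [hprodq] at hH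
    field_simp at hH
    exact hH.symm
  -- signs
  have hσσ : ((Int.sign D * Int.sign P : ℤ) : ℚ) = ((Int.sign D' * Int.sign P' : ℤ) : ℚ) := by
    rw [← htr0] at hsgn0'
    rcases hσ with h1 | h1 <;> rcases hσ' with h2 | h2
    · rw [h1, h2]
    · rw [h1] at hsgn0
      rw [h2] at hsgn0'
      linarith
    · rw [h1] at hsgn0
      rw [h2] at hsgn0'
      linarith
    · rw [h1, h2]
  have hσ0 : ((Int.sign D * Int.sign P : ℤ) : ℚ) ≠ 0 := by
    rcases hσ with h1 | h1 <;> rw [h1] <;> norm_num
  have hDP : (D : ℚ) / P = (D' : ℚ) / P' := by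
    rcases abs_eq_abs.mp hDabs with h1 | h1 <;> rcases abs_eq_abs.mp hprodq with h2 | h2
    · rw [h1, h2]
    · exfalso
      have h1' : D = D' := by exact_mod_cast h1
      have h2' : P = -P' := by exact_mod_cast h2
      apply hσ0
      rw [h1', h2', Int.sign_neg] at hσσ ⊢
      push_cast at hσσ ⊢
      linarith
    · exfalso
      have h1' : D = -D' := by exact_mod_cast h1
      have h2' : P = P' := by exact_mod_cast h2
      apply hσ0
      rw [h1', h2', Int.sign_neg] at hσσ ⊢
      push_cast at hσσ ⊢
      linarith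
    · rw [h1, h2, neg_div_neg_eq]
  have hslope : ∀ (f : ℤ) (l : List (List ℤ)), (∀ x ∈ l, (lastv x).2 ≠ 0) → (totv f l).2 ≠ 0 →
      (DD f l : ℚ) / (totv f l).2 = f - (l.map sl).sum := by
    intro f l h1 h2
    have h3 := had4 f l h1
    have h4 : ((totv f l).2 : ℚ) ≠ 0 := by exact_mod_cast h2
    have h5 : (DD f l : ℚ) = -((totv f l).1 : ℚ) := by
      unfold DD
      push_cast
      rfl
    rw [h5, h3]
    field_simp
    show -(-(f : ℚ) + (l.map sl).sum) = f - (l.map sl).sum
    ring
  have hsum : ((e' : ℚ)) - e = z := by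
    have h1 := hslope e ws (fun x hx => (hsite x hx).2.2.2.1) hP
    have h2 := hslope e' ws' (fun x hx => (hsite' x hx).2.2.2.1) hP'
    have h3 : (ws''.map sl).sum = (ws'.map sl).sum := (hperm.map _).sum_eq
    have h4 : (D : ℚ) / P = e - (ws.map sl).sum := h1
    have h5 : (D' : ℚ) / P' = e' - (ws'.map sl).sum := h2
    rw [← hz, h3]
    linarith
  have hsum' : e' - e = z := by exact_mod_cast hsum
  have hodfun : (fun x : List ℤ => decide (x.length % 2 = 1)) = od := rfl
  have hevcount : ∀ l : List (List ℤ), (∀ x ∈ l, Even x.length) → l.countP od = 0 := by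
    intro l h
    rw [List.countP_eq_zero]
    intro x hx
    rw [od_false.mpr (h x hx)]
    decide
  have hzz : z = 0 ∧ ws.countP od ≤ 1 := by
    rcases hNF.2 with ⟨he, hall⟩ | ⟨he, hone⟩
    · have h0 := hevcount ws hall
      rw [h0] at hz1
      exact ⟨by simpa using hz1, by omega⟩
    · rw [hodfun] at hone
      have he' : Even e' := by
        rcases hNF'.2 with ⟨-, hall'⟩ | ⟨he', -⟩
        · have h0 := hevcount ws' hall'
          have h1 : ws''.countP od = ws'.countP od := hperm.countP_eq _
          omega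
        · exact he'
      have hzev : Even z := by
        rw [← hsum']
        exact he'.sub he
      rw [hone] at hz1
      obtain ⟨k, hk⟩ := hzev
      have hz3 := abs_le.mp hz1
      push_cast at hz3
      exact ⟨by omega, by omega⟩
  have hee : e = e' := by
    have := hzz.1
    omega
  have hfin := hz2 hzz.2 hzz.1
  have hand : ∀ {l l' : List (List ℤ)},
      List.Forall₂ (fun x y => od x = od y ∧ sl x = sl y) l l' →
      (∀ x ∈ l, (∀ a ∈ x, a ≠ 0) ∧ (lastv x).2 ≠ 0) →
      (∀ x ∈ l', (∀ a ∈ x, a ≠ 0) ∧ (lastv x).2 ≠ 0) → l = l' := by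
    intro l l' h
    induction h with
    | nil => intro _ _; rfl
    | cons h1 _ ih =>
      rename_i a b l₁ l₂ _
      intro h2 h3
      obtain ⟨ha1, ha2⟩ := h2 a List.mem_cons_self
      obtain ⟨hb1, hb2⟩ := h3 b List.mem_cons_self
      have hpar : Even a.length ↔ Even b.length := by
        rw [← od_false, ← od_false, h1.1]
      have hcross : (lastv a).1 * (lastv b).2 = (lastv b).1 * (lastv a).2 := by
        have h4 := h1.2
        unfold sl at h4
        have h5 : ((lastv a).2 : ℚ) ≠ 0 := by exact_mod_cast ha2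
        have h6 : ((lastv b).2 : ℚ) ≠ 0 := by exact_mod_cast hb2
        rw [div_eq_div_iff h5 h6] at h4
        exact_mod_cast h4
      rw [hc a b hpar ha1 hb1 hcross, ih (fun x hx => h2 x (List.mem_cons_of_mem _ hx))
        (fun x hx => h3 x (List.mem_cons_of_mem _ hx))]
  have hws : ws = ws'' := hand hfin
    (fun x hx => ⟨(hNF.1 x hx).2, (hsite x hx).2.2.2.1⟩)
    (fun x hx => ⟨(hNF'.1 x (hperm.mem_iff.mp hx)).2, (hsite' x (hperm.mem_iff.mp hx)).2.2.2.1⟩)
  exact ⟨hee, hws ▸ hperm⟩

end Pool.Agent.MTR
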