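import Pool.Agent.MTR.Stmts

open Pool.Agent.TB

namespace Pool.Agent.MTR.INVO

lemma key (D : ℕ) [NeZero D] (c : ℤ) (hc : IsCoprime c (D : ℤ)) :
    (c : ZMod D) * (c : ZMod D)⁻¹ = 1 := by
  obtain ⟨a, b, hab⟩ := hc
  have h : ((a * c + b * (D : ℤ) : ℤ) : ZMod D) = 1 := by rw [hab]; simp
  push_cast at h
  rw [ZMod.natCast_self, mul_zero, add_zero] at h
  have hu : IsUnit (c : ZMod D) := IsUnit.of_mul_eq_one (a : ZMod D) (by rw [mul_comm]; exact h)
  exact ZMod.mul_inv_of_unit _ hu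

end Pool.Agent.MTR.INVO

namespace Pool.Agent.MTR

open INVO

theorem invo : INVO_Stmt := by
  rintro ⟨D, c, r⟩ ⟨hodd, h0, hlt, hcop, hr⟩
  simp only at hodd h0 hlt hcop hr
  have : NeZero D := ⟨by rintro rfl; simp at hodd⟩
  have hDpos : (0 : ℤ) < D := by
    have := NeZero.pos D
    exact_mod_cast this
  have hk := key D c hcop
  set v : ZMod D := (c : ZMod D)⁻¹ with hv
  have hval : (((v.val : ℕ) : ℤ) : ZMod D) = v := by
    simp
  have hdvd : (D : ℤ) ∣ c * (v.val : ℤ) - 1 := by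
    rw [← ZMod.intCast_zmod_eq_zero_iff_dvd]
    push_cast
    rw [ZMod.natCast_zmod_val, hk, sub_self]
  have hcop' : IsCoprime (v.val : ℤ) (D : ℤ) := by
    obtain ⟨k, hk'⟩ := hdvd
    exact ⟨c, -k, by linarith⟩
  have huniq : ∀ a b : ℤ, 0 ≤ a → a < D → 0 ≤ b → b < D → ((a : ZMod D) = (b : ZMod D)) → a = b := by
    intro a b ha ha' hb hb' hab
    rw [← sub_eq_zero, ← Int.cast_sub, ZMod.intCast_zmod_eq_zero_iff_dvd] at hab
    have := Int.eq_zero_of_abs_lt_dvd hab (by rw [abs_lt]; constructor <;> linarith)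
    linarith
  have hvlt : (v.val : ℤ) < D := by exact_mod_cast ZMod.val_lt v
  have hv0 : (0 : ℤ) ≤ (v.val : ℤ) := by positivity
  have hinv : Tri.inv (D, c, r) = (D, (v.val : ℤ), r⁻¹) := rfl
  refine ⟨⟨hodd, hv0, hvlt, hcop', inv_ne_zero hr⟩, ?_, rfl, rfl, hdvd, ?_, ?_⟩
  · rw [hinv]
    have hk2 := key D (v.val : ℤ) hcop'
    have h2 : ((((((v.val : ℕ) : ℤ) : ZMod D))⁻¹).val : ℤ) = c := by
      apply huniq _ _ (by positivity) (by exact_mod_cast ZMod.val_lt _) h0 hlt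
      have : ((((v.val : ℕ) : ℤ) : ZMod D))⁻¹ = (c : ZMod D) := by
        rw [hval] at hk2 ⊢
        calc v⁻¹ = v⁻¹ * ((c : ZMod D) * v) := by rw [hk, mul_one]
          _ = (c : ZMod D) * (v * v⁻¹) := by ring
          _ = (c : ZMod D) := by rw [hk2, mul_one]
      rw [← this]
      simp
    show ((D, ((((((v.val : ℕ) : ℤ) : ZMod D))⁻¹).val : ℤ), (r⁻¹)⁻¹) : Tri) = (D, c, r)
    rw [h2, inv_inv]
  · intro a ha ha' hda
    show (v.val : ℤ) = a
    apply huniq _ _ hv0 hvlt ha ha'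
    rw [hval]
    rw [← ZMod.intCast_zmod_eq_zero_iff_dvd] at hda
    push_cast at hda
    have h1 : (c : ZMod D) * (a : ZMod D) = 1 := sub_eq_zero.mp hda
    calc v = v * ((c : ZMod D) * (a : ZMod D)) := by rw [h1, mul_one]
      _ = ((c : ZMod D) * v) * (a : ZMod D) := by ring
      _ = (a : ZMod D) := by rw [hk, one_mul]
  · show |r⁻¹| / (D : ℚ) = 1 / (|r| * (D : ℚ))
    rw [abs_inv]
    field_simp

end Pool.Agent.MTR
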