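import Pool.Agent.MTR.Stmts

/-!
Montesinos knots, recovery part, module LAT: the triple of a site and the absolute value of the
denominator determine the numerator modulo the denominator, up to a common sign.
-/

namespace Pool.Agent.MTR.LAT

open Pool.Agent.TB

/-- the integral computation -/
theorem core {A p B Q A' p' B' Q' g g' e e' s q q' w a b Dl : ℤ} (hg : g ≠ 0) (hg' : g' ≠ 0)
    (hDl : Dl ≠ 0) (hs : s * s = 1) (hp' : p' = s * p) (hp : p ≠ 0)
    (hQ : Q = g * q) (hQ' : Q' = g' * q')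
    (h1 : Dl * g = e * (B * p - Q * A)) (h2 : Dl * g' = e' * (B' * p' - Q' * A'))
    (hr : e * q * p' = e' * q' * p) (hR1 : a * p - b * A = -A')
    (hR2 : e * (B * b - Q * a) = g * w) (hw : e' * B' = g' * w) :
    p ∣ A' - s * A := by
  have hq : e' * q' = e * q * s := by
    have : (e' * q' - e * q * s) * p = 0 := by rw [hp'] at hr; linear_combination -hr
    rcases mul_eq_zero.mp this with h | h
    · linarith
    · exact absurd h hp
  have h3 : Dl = w * p' - e * q * s * A' := by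
    have : g' * (Dl - (w * p' - e * q * s * A')) = 0 := by
      rw [hQ'] at h2
      linear_combination h2 + p' * hw - g' * A' * hq
    rcases mul_eq_zero.mp this with h | h
    · exact absurd h hg'
    · linarith
  have hA' : A' = b * A - a * p := by linarith
  have h4 : (s * b - 1) * (g * Dl) = 0 := by
    have e1 : g * Dl = s * (g * w * p - e * Q * A') := by
      rw [h3, hp', hQ]; ring
    have e2 : g * w * p - e * Q * A' = b * (Dl * g) := by
      rw [h1, hA']; linear_combination -p * hR2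
    rw [e2] at e1
    linear_combination -e1
  have h5 : s * b = 1 := by
    rcases mul_eq_zero.mp h4 with h | h
    · linarith
    · exact absurd h (mul_ne_zero hg hDl)
  have hb : b = s := by
    have : s * (s * b) = s := by rw [h5, mul_one]
    rw [← mul_assoc, hs, one_mul] at this
    exact this
  exact ⟨-a, by rw [hA', hb]; ring⟩

end Pool.Agent.MTR.LAT

namespace Pool.Agent.MTR

open Pool.Agent.TB

theorem lat (hs : SITE_Stmt) : LAT_Stmt := by
  intro l V l' V' hV hD hl hV2 hV' hD' hl' hV2' htri habs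
  obtain ⟨_, hgpos, hΔ, hiff⟩ := hs l V hV hD hl hV2
  obtain ⟨_, hgpos', hΔ', hiff'⟩ := hs l' V' hV' hD' hl' hV2'
  -- the sign
  obtain ⟨s, hs1, hsp⟩ : ∃ s : ℤ, (s = 1 ∨ s = -1) ∧ V'.2 = s * V.2 := by
    rcases abs_eq_abs.mp habs with h | h
    · exact ⟨1, Or.inl rfl, by rw [h]; ring⟩
    · exact ⟨-1, Or.inr rfl, by rw [h]; ring⟩
  refine ⟨s, hs1, hsp, ?_⟩
  have hss : s * s = 1 := by rcases hs1 with rfl | rfl <;> norm_num
  set D := det2 l V with hDdef
  set D' := det2 l' V' with hD'def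
  have hD0 : D ≠ 0 := by
    rintro h; rw [h] at hD; exact absurd hD (by decide)
  have hD0' : D' ≠ 0 := by
    rintro h; rw [h] at hD'; exact absurd hD' (by decide)
  set g : ℕ := Int.gcd l.1 l.2 with hgdef
  set g' : ℕ := Int.gcd l'.1 l'.2 with hgdef'
  have hgz : (g : ℤ) ≠ 0 := by exact_mod_cast hgpos.ne'
  have hgz' : (g' : ℤ) ≠ 0 := by exact_mod_cast hgpos'.ne'
  obtain ⟨q, hq⟩ : (g : ℤ) ∣ l.2 := Int.gcd_dvd_right _ _
  obtain ⟨q', hq'⟩ : (g' : ℤ) ∣ l'.2 := Int.gcd_dvd_right _ _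
  obtain ⟨r', hr'⟩ : (g' : ℤ) ∣ l'.1 := Int.gcd_dvd_left _ _
  have hT1 : (tri l V).1 = (tri l' V').1 := by rw [htri]
  have hT2 : (tri l V).2.1 = (tri l' V').2.1 := by rw [htri]
  have hT3 : (tri l V).2.2 = (tri l' V').2.2 := by rw [htri]
  -- the ratio
  have hrho : (Int.sign D : ℚ) * l.2 / (g * V.2) = (Int.sign D' : ℚ) * l'.2 / (g' * V'.2) := hT3
  have hrho' : Int.sign D * q * V'.2 = Int.sign D' * q' * V.2 := by
    have hgq : (g : ℚ) ≠ 0 := by exact_mod_cast hgpos.ne'
    have hgq' : (g' : ℚ) ≠ 0 := by exact_mod_cast hgpos'.ne'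
    have hVq : (V.2 : ℚ) ≠ 0 := by exact_mod_cast hV2
    have hVq' : (V'.2 : ℚ) ≠ 0 := by exact_mod_cast hV2'
    rw [div_eq_div_iff (mul_ne_zero hgq hVq) (mul_ne_zero hgq' hVq')] at hrho
    rw [hq, hq'] at hrho
    push_cast at hrho
    have : ((Int.sign D * q * V'.2 : ℤ) : ℚ) = ((Int.sign D' * q' * V.2 : ℤ) : ℚ) := by
      push_cast
      have h2 : (g : ℚ) * g' * ((Int.sign D : ℚ) * q * V'.2) =
          (g : ℚ) * g' * ((Int.sign D' : ℚ) * q' * V.2) := by
        linear_combination hrho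
      exact mul_left_cancel₀ (mul_ne_zero hgq hgq') h2
    exact_mod_cast this
  -- the point (0,1)
  have hw : Int.sign D' * l'.1 = g' * (Int.sign D' * r') := by rw [hr']; ring
  have hin : ((tri l' V').1 : ℤ) ∣ Int.sign D' * r' - (tri l' V').2.1 * (-V'.1) := by
    rw [hiff']
    refine ⟨(0, 1), ?_, ?_⟩
    · simp [det2]
    · rw [← hw]; simp [det2]
  rw [← hT1, ← hT2, hiff] at hin
  obtain ⟨R, hR1, hR2⟩ := hin
  refine LAT.core (A := V.1) (p := V.2) (B := l.1) (Q := l.2) (A' := V'.1) (p' := V'.2)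
    (B' := l'.1) (Q' := l'.2) (g := g) (g' := g') (e := Int.sign D) (e' := Int.sign D') (s := s)
    (q := q) (q' := q') (w := Int.sign D' * r') (a := R.1) (b := R.2)
    (Dl := ((tri l V).1 : ℤ)) hgz hgz' ?_ hss hsp hV2 hq hq' ?_ ?_ hrho' ?_ ?_ hw
  · intro h
    have h' : (tri l V).1 = 0 := by exact_mod_cast h
    rw [h', zero_mul] at hΔ
    exact hD0 (Int.natAbs_eq_zero.mp hΔ.symm)
  · have : ((tri l V).1 : ℤ) * (g : ℤ) = (D.natAbs : ℤ) := by exact_mod_cast hΔ
    rw [this, ← Int.sign_mul_self_eq_natAbs, hDdef]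
    simp [det2]
  · rw [hT1]
    have : ((tri l' V').1 : ℤ) * (g' : ℤ) = (D'.natAbs : ℤ) := by exact_mod_cast hΔ'
    rw [this, ← Int.sign_mul_self_eq_natAbs, hD'def]
    simp [det2]
  · simpa [det2] using hR1
  · simpa [det2] using hR2

end Pool.Agent.MTR
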