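import Pool.Agent.MTR.Stmts

/-!
Montesinos knots, recovery part, module MEAS: from the identity of the limit functions to the
identity of the measures.
-/

open scoped BigOperators

namespace Pool.Agent.MTR

open Pool.Agent.TB

namespace MEAS

/-- the multiplicities as a finitely supported function -/
noncomputable def F (x0 : Tri) (X : List Tri) : Tri →₀ ℤ :=
  (X.map fun x => Finsupp.single x (1 : ℤ)).sum - Finsupp.single x0 ((X.length : ℤ) - 2)

theorem listSum_apply (X : List Tri) (x : Tri) :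
    ((X.map fun x => Finsupp.single x (1 : ℤ)).sum : Tri →₀ ℤ) x = X.count x := by
  induction X with
  | nil => simp
  | cons y X ih =>
    rw [List.map_cons, List.sum_cons, Finsupp.add_apply, ih, List.count_cons,
      Finsupp.single_apply]
    by_cases h : y = x
    · simp [h, add_comm]
    · simp [h]

theorem F_apply (x0 : Tri) (X : List Tri) (x : Tri) : F x0 X x = mz x0 X x := by
  unfold F mz
  rw [Finsupp.sub_apply, listSum_apply, Finsupp.single_apply]
  by_cases h : x0 = x
  · rw [if_pos h, if_pos h.symm]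
  · rw [if_neg h, if_neg (fun h' => h h'.symm)]

theorem listSum_sum {A : Type} [AddCommGroup A] (h : Tri → ℤ →+ A) (X : List Tri) :
    ((X.map fun x => Finsupp.single x (1 : ℤ)).sum : Tri →₀ ℤ).sum (fun x a => h x a) =
      (X.map fun x => h x 1).sum := by
  induction X with
  | nil => simp
  | cons y X ih =>
    rw [List.map_cons, List.sum_cons, List.map_cons, List.sum_cons, ← ih,
      Finsupp.sum_add_index' (fun x => map_zero (h x)) (fun x a b => map_add (h x) a b),
      Finsupp.sum_single_index (h := fun x => ⇑(h x)) (map_zero (h y))]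

theorem F_sum {A : Type} [AddCommGroup A] (h : Tri → ℤ →+ A) (x0 : Tri) (X : List Tri) :
    (F x0 X).sum (fun x a => h x a) =
      (X.map fun x => h x 1).sum - h x0 ((X.length : ℤ) - 2) := by
  unfold F
  rw [Finsupp.sum_sub_index (fun x a b => map_sub (h x) a b), listSum_sum,
    Finsupp.sum_single_index (h := fun x => ⇑(h x)) (map_zero (h x0))]

/-- the weighted functional as an additive map -/
noncomputable def hT (t : ℚ) (x : Tri) : ℤ →+ ℚ :=
  (AddMonoidHom.mulRight (x.T t)).comp (Int.castAddHom ℚ)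

theorem hT_apply (t : ℚ) (x : Tri) (a : ℤ) : hT t x a = (a : ℚ) * x.T t := rfl

/-- the class functional as an additive map -/
def hC (p : ℕ × ℤ) (x : Tri) : ℤ →+ ℤ :=
  if (x.1, x.2.1) = p then AddMonoidHom.id ℤ else 0

theorem hC_apply (p : ℕ × ℤ) (x : Tri) (a : ℤ) :
    hC p x a = if (x.1, x.2.1) = p then a else 0 := by
  unfold hC
  by_cases h : (x.1, x.2.1) = p
  · rw [if_pos h, if_pos h]
    rfl
  · rw [if_neg h, if_neg h]
    rfl

theorem list_countP (p : ℕ × ℤ) (X : List Tri) :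
    (X.map fun x => hC p x 1).sum =
      (X.countP (fun x => decide ((x.1, x.2.1) = p)) : ℤ) := by
  induction X with
  | nil => simp
  | cons y X ih =>
    rw [List.map_cons, List.sum_cons, ih, List.countP_cons, hC_apply]
    by_cases h : (y.1, y.2.1) = p
    · simp [h, add_comm]
    · simp [h]

theorem F_mc (x0 : Tri) (X : List Tri) (p : ℕ × ℤ) :
    (F x0 X).sum (fun x a => hC p x a) = mc x0 X p := by
  rw [F_sum, list_countP, hC_apply]
  rfl

end MEAS

open MEAS in
theorem meas (had : ADV_Stmt) (hs : SITE_Stmt) (hz : SITZ_Stmt) (hi : INVO_Stmt)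
    (hr : REC_Stmt) : MEAS_Stmt := by
  -- facts about the sites
  have hsite : ∀ (e : ℤ) (ws : List (List ℤ)), NF e ws →
      (∀ y : Tri, (y = tr0 e ws ∨ y ∈ trs e ws) → y.ok ∧ (y.1 : ℤ) ∣ DD e ws) ∧
      ∀ c M : ℤ, c ≠ 0 → Phi e ws c M =
        (F (tr0 e ws) (trs e ws)).sum (fun x a => hT ((M : ℚ) / (c * DD e ws)) x a) := by
    intro e ws hN
    obtain ⟨hodd, hP, hw⟩ := had.2.2.2.2 e ws hN
    have hdet0 : det2 (lv e ws) (0, 1) = DD e ws := (had.2.1 e [] ws).2.2
    have hl0 : (lv e ws).2 ≠ 0 := hP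
    have hc0 : IsCoprime ((0 : ℤ), (1 : ℤ)).1 ((0 : ℤ), (1 : ℤ)).2 := isCoprime_one_right
    have hdiv : ∀ l V : ℤ × ℤ, IsCoprime V.1 V.2 → Odd (det2 l V) → l.2 ≠ 0 → V.2 ≠ 0 →
        ((tri l V).1 : ℤ) ∣ det2 l V := by
      intro l V h1 h2 h3 h4
      have h5 := (hs l V h1 h2 h3 h4).2.2.1
      rw [← Int.dvd_natAbs]
      rw [← h5]
      push_cast
      exact dvd_mul_right _ _
    refine ⟨?_, ?_⟩
    · rintro y (rfl | hy)
      · refine ⟨(hs (lv e ws) (0, 1) hc0 (hdet0 ▸ hodd) hl0 one_ne_zero).1, ?_⟩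
        have := hdiv (lv e ws) (0, 1) hc0 (hdet0 ▸ hodd) hl0 one_ne_zero
        rw [hdet0] at this
        exact this
      · obtain ⟨x, hx, rfl⟩ := List.mem_map.1 hy
        obtain ⟨-, h1, h2, h3, h4⟩ := hw x hx
        refine ⟨(hs _ _ h4 (h1 ▸ hodd) h2 h3).1, ?_⟩
        have := hdiv _ _ h4 (h1 ▸ hodd) h2 h3
        rw [h1] at this
        exact this
    · intro c M hc
      rw [F_sum]
      unfold Phi
      have e1 : (ws.map fun x => zsum c (lv e (ws.erase x)) (lastv x) M) =
          ((trs e ws).map fun x => hT ((M : ℚ) / (c * DD e ws)) x 1) := by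
        unfold trs
        rw [List.map_map]
        refine List.map_congr_left fun x hx => ?_
        obtain ⟨-, h1, h2, h3, h4⟩ := hw x hx
        rw [hz _ _ h4 (h1 ▸ hodd) h2 h3 c M hc, h1]
        simp [hT_apply]
      rw [e1, hz _ _ hc0 (hdet0 ▸ hodd) hl0 one_ne_zero c M hc, hdet0, hT_apply]
      have e2 : (trs e ws).length = ws.length := by
        unfold trs
        rw [List.length_map]
      rw [e2]
      push_cast
      rfl
  intro e ws e' ws' hN hN' hPhi
  obtain ⟨hok, hsum⟩ := hsite e ws hN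
  obtain ⟨hok', hsum'⟩ := hsite e' ws' hN'
  have hodd : Odd (DD e ws) := (had.2.2.2.2 e ws hN).1
  have hodd' : Odd (DD e' ws') := (had.2.2.2.2 e' ws' hN').1
  have hD : DD e ws ≠ 0 := by
    rintro h
    rw [h] at hodd
    exact absurd hodd (by decide)
  have hD' : DD e' ws' ≠ 0 := by
    rintro h
    rw [h] at hodd'
    exact absurd hodd' (by decide)
  set x0 := tr0 e ws with hx0
  set X := trs e ws with hX
  set x0' := tr0 e' ws' with hx0'
  set X' := trs e' ws' with hX'
  set m : Tri →₀ ℤ := F x0 X - F x0' X' with hm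
  have hmx : ∀ x, m x = mz x0 X x - mz x0' X' x := by
    intro x
    rw [hm, Finsupp.sub_apply, F_apply, F_apply]
  -- support
  have hmz : ∀ (y0 : Tri) (Y : List Tri) (x : Tri), mz y0 Y x ≠ 0 → x = y0 ∨ x ∈ Y := by
    intro y0 Y x h
    by_contra hc
    push Not at hc
    apply h
    unfold mz
    rw [if_neg hc.1, List.count_eq_zero_of_not_mem hc.2]
    rfl
  have hsupp : ∀ x ∈ m.support, x.ok ∧ (x.1 : ℤ) ∣ DD e ws * DD e' ws' := by
    intro x hx
    rw [Finsupp.mem_support_iff, hmx] at hx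
    by_cases h1 : mz x0 X x = 0
    · have h2 : mz x0' X' x ≠ 0 := by
        intro h2
        exact hx (by rw [h1, h2, sub_zero])
      obtain ⟨h3, h4⟩ := hok' x (hmz _ _ _ h2)
      exact ⟨h3, dvd_mul_of_dvd_right h4 _⟩
    · obtain ⟨h3, h4⟩ := hok x (hmz _ _ _ h1)
      exact ⟨h3, dvd_mul_of_dvd_left h4 _⟩
  obtain ⟨L, hL⟩ := hPhi
  have key : (∀ x : Tri, x.ok → m x = m x.inv) ∧
      ∀ p : ℕ × ℤ, ∑ x ∈ m.support.filter (fun x => (x.1, x.2.1) = p), m x = 0 := by
    refine hr m (fun x hx => (hsupp x hx).1) ?_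
    intro y hy
    obtain ⟨hyok, k, hk⟩ := hsupp y hy
    have hDD : Odd (DD e ws * DD e' ws') := hodd.mul hodd'
    have hkodd : Odd k := by
      rw [hk] at hDD
      exact (Int.odd_mul.1 hDD).2
    have hk0 : k ≠ 0 := by
      rintro h
      rw [h] at hkodd
      exact absurd hkodd (by decide)
    have hy0 : (y.1 : ℤ) ≠ 0 := by
      rintro h
      rw [h, zero_mul] at hk
      exact mul_ne_zero hD hD' hk
    refine ⟨max L (max 2 k.natAbs), ?_⟩
    intro q hq hqL
    have hq1 : L < q := lt_of_le_of_lt (le_max_left _ _) hqL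
    have hq2 : 2 < q := lt_of_le_of_lt ((le_max_left _ _).trans (le_max_right _ _)) hqL
    have hq3 : k.natAbs < q := lt_of_le_of_lt ((le_max_right _ _).trans (le_max_right _ _)) hqL
    have hqodd : Odd (q : ℤ) := by
      have := hq.odd_of_ne_two (by omega)
      exact_mod_cast this
    have hqk : ¬ (q : ℤ) ∣ k := by
      intro h
      have h1 : q ∣ k.natAbs := Int.natCast_dvd.1 h
      have h2 := Nat.le_of_dvd (Int.natAbs_pos.2 hk0) h1
      omega
    have hM := hL (q * k) (hqodd.mul hkodd) ⟨q, hq, hq1, dvd_mul_right _ _, by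
      intro h
      rw [pow_two] at h
      have hq0 : (q : ℤ) ≠ 0 := by
        have := hq.ne_zero
        exact_mod_cast this
      exact hqk (Int.dvd_of_mul_dvd_mul_left hq0 h)⟩
    rw [hsum _ _ hD', hsum' _ _ hD] at hM
    have ht : (((q : ℤ) * k : ℤ) : ℚ) / (((DD e' ws' : ℤ) : ℚ) * ((DD e ws : ℤ) : ℚ)) =
        (q : ℚ) / y.1 := by
      have h1 : ((DD e' ws' : ℤ) : ℚ) * ((DD e ws : ℤ) : ℚ) = (y.1 : ℚ) * (k : ℚ) := by
        rw [mul_comm]
        exact_mod_cast hk
      have h2 : (y.1 : ℚ) ≠ 0 := by exact_mod_cast hy0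
      have h3 : (k : ℚ) ≠ 0 := by exact_mod_cast hk0
      rw [h1]
      push_cast
      field_simp
    have ht' : (((q : ℤ) * k : ℤ) : ℚ) / (((DD e ws : ℤ) : ℚ) * ((DD e' ws' : ℤ) : ℚ)) =
        (q : ℚ) / y.1 := by
      rw [mul_comm ((DD e ws : ℤ) : ℚ)]
      exact ht
    rw [ht, ht'] at hM
    have h5 : m.sum (fun x a => hT ((q : ℚ) / y.1) x a) = 0 := by
      rw [hm, Finsupp.sum_sub_index (fun x a b => map_sub (hT ((q : ℚ) / y.1) x) a b), hM,
        sub_self]
    rw [← h5]
    rfl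
  refine ⟨fun x hx => ?_, fun p => ?_⟩
  · have h1 := key.1 x hx
    rw [hmx, hmx] at h1
    linarith
  · have h1 := key.2 p
    have h2 : m.sum (fun x a => hC p x a) = 0 := by
      rw [← h1, Finset.sum_filter]
      unfold Finsupp.sum
      refine Finset.sum_congr rfl fun x _ => ?_
      show hC p x (m x) = _
      rw [hC_apply]
    rw [hm, Finsupp.sum_sub_index (fun x a b => map_sub (hC p x) a b), F_mc, F_mc] at h2
    exact sub_eq_zero.1 h2

end Pool.Agent.MTR
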