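import Pool.Agent.MTR.Stmts

/-!
Montesinos knots, recovery part: module NDG. Nondegenerate knots have nondegenerate triples.
-/

open scoped BigOperators

namespace Pool.Agent.MTR

open Pool.Agent.TB

namespace NDG

/-- the arithmetic core -/
theorem core {Ai pi Aj pj Y Q Bi Bj D : ℤ} (hBi : Bi = pj * Y - Aj * Q)
    (hBj : Bj = pi * Y - Ai * Q) (hDi : Bi * pi - pj * Q * Ai = D)
    (hDj : Bj * pj - pi * Q * Aj = D) (hD : D ≠ 0) (hpi : pi ≠ 0)
    {ε g w a b : ℤ} (hε : ε * ε = 1) (hg : g * g = Q * Q)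
    (h1 : ε * Bj = g * w) (h2 : pi * a - Ai * b = w)
    (h3 : ε * (Bi * b - pj * Q * a) = g * (-Aj)) : g * b = ε * Q ∧ g * a = ε * Y := by
  have h4 : D * (g * b) = D * (ε * Q) := by
    have e1 : D * b = pi * (Bi * b - pj * Q * a) + pj * Q * (pi * a - Ai * b) := by
      rw [← hDi]; ring
    have e2 : Bi * b - pj * Q * a = -(ε * g * Aj) := by
      have : ε * ε * (Bi * b - pj * Q * a) = ε * (g * (-Aj)) := by rw [mul_assoc, h3]
      rw [hε, one_mul] at this
      rw [this]; ring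
    rw [e2, h2] at e1
    calc D * (g * b) = g * (D * b) := by ring
      _ = g * (pi * -(ε * g * Aj) + pj * Q * w) := by rw [e1]
      _ = -(ε * pi * Aj * (g * g)) + pj * Q * (g * w) := by ring
      _ = -(ε * pi * Aj * (Q * Q)) + pj * Q * (ε * Bj) := by rw [hg, ← h1]
      _ = ε * Q * (Bj * pj - pi * Q * Aj) := by ring
      _ = D * (ε * Q) := by rw [hDj]; ring
  have h5 : g * b = ε * Q := mul_left_cancel₀ hD h4
  refine ⟨h5, ?_⟩
  have h6 : pi * (g * a) = pi * (ε * Y) := by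
    calc pi * (g * a) = g * (pi * a - Ai * b) + Ai * (g * b) := by ring
      _ = g * w + Ai * (ε * Q) := by rw [h2, h5]
      _ = ε * Bj + Ai * (ε * Q) := by rw [h1]
      _ = pi * (ε * Y) := by rw [hBj]; ring
  exact mul_left_cancel₀ hpi h6

end NDG

/-- **Module NDG.** -/
theorem ndg (hi : INVO_Stmt) (hs : SITE_Stmt) (had : ADV_Stmt) (hp : PLIFT_Stmt) :
    NDG_Stmt := by
  intro e ws hNF hND x y rest hperm hxy
  obtain ⟨ad1, ad2, -, -, ad5⟩ := had
  obtain ⟨l', hl', hmap⟩ := hp.1 (List ℤ) Tri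
    (fun x => tri (lv e (ws.erase x)) (lastv x)) ws (x :: y :: rest) hperm.symm
  match l', hmap with
  | [], h => simp at h
  | [_], h => simp at h
  | xi :: xj :: r, h =>
    simp only [List.map_cons, List.cons.injEq] at h
    obtain ⟨hx, hy, -⟩ := h
    have hw : ws.Perm (xi :: xj :: r) := hl'.symm
    have hw2 : ws.Perm (xj :: xi :: r) := hw.trans (List.Perm.swap _ _ _)
    have hnd := hND xi xj r hw
    have hmi : xi ∈ ws := hw.symm.subset (by simp)
    have hmj : xj ∈ ws := hw.symm.subset (by simp)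
    have pe1 : (ws.erase xi).Perm (xj :: r) := by
      have := hw.erase xi
      rwa [List.erase_cons_head] at this
    have pe2 : (ws.erase xj).Perm (xi :: r) := by
      have := hw2.erase xj
      rwa [List.erase_cons_head] at this
    have t1 : totv e (ws.erase xi) = totv e (xj :: r) := ad1 e _ _ pe1
    have t2 : totv e (ws.erase xj) = totv e (xi :: r) := ad1 e _ _ pe2
    obtain ⟨hodd, htot, hsite⟩ := ad5 e ws hNF
    obtain ⟨-, hdi, hli, hpi, hci⟩ := hsite xi hmi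
    obtain ⟨-, hdj, hlj, hpj, hcj⟩ := hsite xj hmj
    have hDne : DD e ws ≠ 0 := by
      intro h0
      rw [h0] at hodd
      simp at hodd
    set Li : ℤ × ℤ := lv e (ws.erase xi) with hLi
    set Lj : ℤ × ℤ := lv e (ws.erase xj) with hLj
    set Vi : ℤ × ℤ := lastv xi with hVi
    set Vj : ℤ × ℤ := lastv xj with hVj
    set D : ℤ := DD e ws with hDdef
    have hLi1 : Li.1 = Vj.2 * (-(totv e r).1) - Vj.1 * (totv e r).2 := by
      rw [hLi]; unfold lv; rw [t1, (ad2 e xj r).1]; unfold addv; simp only [← hVj]; ring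
    have hLi2 : Li.2 = Vj.2 * (totv e r).2 := by
      rw [hLi]; unfold lv; rw [t1, (ad2 e xj r).1]; unfold addv; simp only [← hVj]
    have hLj1 : Lj.1 = Vi.2 * (-(totv e r).1) - Vi.1 * (totv e r).2 := by
      rw [hLj]; unfold lv; rw [t2, (ad2 e xi r).1]; unfold addv; simp only [← hVi]; ring
    have hLj2 : Lj.2 = Vi.2 * (totv e r).2 := by
      rw [hLj]; unfold lv; rw [t2, (ad2 e xi r).1]; unfold addv; simp only [← hVi]
    obtain ⟨oki, gi, di, lati⟩ := hs Li Vi hci (by rw [hdi]; exact hodd) hli hpi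
    obtain ⟨okj, gj, dj, latj⟩ := hs Lj Vj hcj (by rw [hdj]; exact hodd) hlj hpj
    have hyok : y.ok := by rw [← hy]; exact okj
    obtain ⟨-, -, i1, i2, i3, -, -⟩ := hi y hyok
    rw [← hxy] at i1 i2 i3
    rw [← hx, ← hy] at i1 i2 i3
    rw [hdi] at di lati
    rw [hdj] at dj latj
    -- the two indices agree
    have hΔpos : 0 < (tri Li Vi).1 := oki.1.pos
    have hg : Int.gcd Li.1 Li.2 = Int.gcd Lj.1 Lj.2 := by
      have : (tri Li Vi).1 * Int.gcd Li.1 Li.2 = (tri Li Vi).1 * Int.gcd Lj.1 Lj.2 := by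
        rw [di, i1, dj]
      exact Nat.eq_of_mul_eq_mul_left hΔpos this
    set g : ℤ := (Int.gcd Lj.1 Lj.2 : ℤ) with hgdef
    have hgi : ((Int.gcd Li.1 Li.2 : ℕ) : ℤ) = g := by rw [hg]
    have hgpos : (0 : ℤ) < g := by rw [hgdef]; exact_mod_cast gj
    set ε : ℤ := Int.sign D with hεdef
    have hε : ε * ε = 1 := by
      rcases lt_or_gt_of_ne hDne with h0 | h0
      · rw [hεdef, Int.sign_eq_neg_one_of_neg h0]; norm_num
      · rw [hεdef, Int.sign_eq_one_of_pos h0]; norm_num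
    -- the equation between the third components
    have hρi : (tri Li Vi).2.2 = (ε : ℚ) * Li.2 / (g * Vi.2) := by
      have h0 : (tri Li Vi).2.2 =
        (Int.sign (det2 Li Vi) : ℚ) * Li.2 / (((Int.gcd Li.1 Li.2 : ℕ) : ℚ) * Vi.2) := rfl
      rw [h0, hdi]
      congr 2
      rw [← hgi]; push_cast; ring
    have hρj : (tri Lj Vj).2.2 = (ε : ℚ) * Lj.2 / (g * Vj.2) := by
      have h0 : (tri Lj Vj).2.2 =
        (Int.sign (det2 Lj Vj) : ℚ) * Lj.2 / (((Int.gcd Lj.1 Lj.2 : ℕ) : ℚ) * Vj.2) := rfl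
      rw [h0, hdj]
      congr 2
    have hgQ : g * g = (totv e r).2 * (totv e r).2 := by
      have hne : (tri Lj Vj).2.2 ≠ 0 := okj.2.2.2.2
      have hmul : (tri Li Vi).2.2 * (tri Lj Vj).2.2 = 1 := by
        rw [i2]; exact inv_mul_cancel₀ hne
      rw [hρi, hρj] at hmul
      have hVi2 : ((Vi.2 : ℤ) : ℚ) ≠ 0 := by exact_mod_cast hpi
      have hVj2 : ((Vj.2 : ℤ) : ℚ) ≠ 0 := by exact_mod_cast hpj
      have hgq : ((g : ℤ) : ℚ) ≠ 0 := by exact_mod_cast hgpos.ne'
      have hεq : (ε : ℚ) * ε = 1 := by exact_mod_cast hε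
      rw [hLi2, hLj2] at hmul
      push_cast at hmul
      have h1 : ((g : ℤ) : ℚ) * g = (totv e r).2 * (totv e r).2 := by
        field_simp at hmul
        have h2 : (ε : ℚ) ^ 2 = 1 := by rw [sq]; exact hεq
        rw [h2] at hmul
        linarith
      exact_mod_cast h1
    -- the vector `(0,1)` at the site `j`
    obtain ⟨w, hwdef⟩ : g ∣ ε * Lj.1 := Dvd.dvd.mul_left (Int.gcd_dvd_left ..) _
    have hj : ((tri Lj Vj).1 : ℤ) ∣ w - (tri Lj Vj).2.1 * (-Vj.1) := by
      rw [latj]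
      refine ⟨(0, 1), ?_, ?_⟩
      · simp [det2]
      · rw [← hwdef]; simp [det2]
    have hi' : ((tri Li Vi).1 : ℤ) ∣ (-Vj.1) - (tri Li Vi).2.1 * w := by
      rw [i1]
      have e1 : (-Vj.1) - (tri Li Vi).2.1 * w =
        -((tri Li Vi).2.1 * (w - (tri Lj Vj).2.1 * (-Vj.1))) +
          ((tri Lj Vj).2.1 * (tri Li Vi).2.1 - 1) * Vj.1 := by ring
      rw [e1]
      exact dvd_add ((Dvd.dvd.mul_left hj _).neg_right) (Dvd.dvd.mul_right i3 _)
    rw [lati] at hi'
    obtain ⟨R, hR1, hR2⟩ := hi'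
    rw [hgi] at hR2
    have key := NDG.core (Ai := Vi.1) (pi := Vi.2) (Aj := Vj.1) (pj := Vj.2)
      (Y := -(totv e r).1) (Q := (totv e r).2) (Bi := Li.1) (Bj := Lj.1) (D := D)
      hLi1 hLj1 (by rw [← hLi2, ← hdi]; rfl) (by rw [← hLj2, ← hdj]; rfl) hDne hpi
      (ε := ε) (g := g) (w := w) (a := R.1) (b := R.2) hε hgQ hwdef
      (by rw [← hR1]; unfold det2; ring) (by rw [← hLi2, ← hR2]; unfold det2; ring)
    apply hnd
    have hgdvd : (totv e r).2 ∣ g := by
      have : (totv e r).2 * (totv e r).2 ∣ g * g := by rw [hgQ]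
      have h2 := (Int.pow_dvd_pow_iff (n := 2) two_ne_zero).1 (by rw [sq, sq]; exact this :
        (totv e r).2 ^ 2 ∣ g ^ 2)
      exact h2
    have h7 : (totv e r).2 ∣ ε * (-(totv e r).1) := by
      rw [← key.2]; exact Dvd.dvd.mul_right hgdvd _
    have h8 : (totv e r).2 ∣ ε * (ε * (-(totv e r).1)) := Dvd.dvd.mul_left h7 _
    rw [← mul_assoc, hε, one_mul] at h8
    exact (dvd_neg).1 h8

end Pool.Agent.MTR
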