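import Pool.Agent.MTR.Stmts

/-!
Uniqueness of partial fractions.
-/

open scoped BigOperators
open Polynomial

namespace Pool.Agent.MTR

namespace PF

/-- The numerator. -/
noncomputable def num (B : Finset ℚ) (a : ℚ → ℚ) : ℚ[X] :=
  ∑ b ∈ B, C (a b) * ∏ b' ∈ B.erase b, (X + C b')

theorem eval_num (B : Finset ℚ) (a : ℚ → ℚ) (t : ℚ) (ht : ∀ b ∈ B, t + b ≠ 0) :
    (num B a).eval t = (∏ b ∈ B, (t + b)) * ∑ b ∈ B, a b / (t + b) := by
  rw [num, eval_finsetSum, Finset.mul_sum]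
  refine Finset.sum_congr rfl fun b hb => ?_
  rw [eval_mul, eval_C, eval_prod, ← Finset.mul_prod_erase B _ hb]
  simp only [eval_add, eval_X, eval_C]
  have := ht b hb
  field_simp

theorem eval_neg (B : Finset ℚ) (a : ℚ → ℚ) (b : ℚ) (hb : b ∈ B) :
    (num B a).eval (-b) = a b * ∏ b' ∈ B.erase b, (b' - b) := by
  rw [num, eval_finsetSum, Finset.sum_eq_single b]
  · rw [eval_mul, eval_C, eval_prod]
    congr 1
    refine Finset.prod_congr rfl fun b' _ => ?_
    simp only [eval_add, eval_X, eval_C]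
    ring
  · intro c hc hcb
    rw [eval_mul, eval_prod, Finset.prod_eq_zero (Finset.mem_erase.2 ⟨hcb.symm, hb⟩), mul_zero]
    simp
  · intro h
    exact absurd hb h

end PF

open PF in
theorem pf : PF_Stmt := by
  intro B a S hS h b hb
  have hfin : {l : ℕ | ∃ b ∈ B, (l : ℚ) + b = 0}.Finite := by
    have h1 : {l : ℕ | ∃ b ∈ B, (l : ℚ) + b = 0} ⊆
        (fun l : ℕ => (l : ℚ)) ⁻¹' ((B.image (fun b => -b) : Finset ℚ) : Set ℚ) := by
      rintro l ⟨b, hb, hl⟩
      simp only [Finset.coe_image, Set.mem_preimage, Set.mem_image, Finset.mem_coe]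
      exact ⟨b, hb, by linarith⟩
    refine Set.Finite.subset (Set.Finite.preimage ?_ (Finset.finite_toSet _)) h1
    exact Nat.cast_injective.injOn
  have hinf : (S \ {l : ℕ | ∃ b ∈ B, (l : ℚ) + b = 0}).Infinite := hS.sdiff hfin
  have hz : num B a = 0 := by
    refine Polynomial.eq_zero_of_infinite_isRoot _ ?_
    refine Set.Infinite.mono ?_ (hinf.image (Nat.cast_injective (R := ℚ)).injOn)
    rintro t ⟨l, ⟨hl, hl'⟩, rfl⟩
    have hne : ∀ b ∈ B, (l : ℚ) + b ≠ 0 := fun b hb h0 => hl' ⟨b, hb, h0⟩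
    show (num B a).eval (l : ℚ) = 0
    rw [eval_num B a l hne, h l hl, mul_zero]
  have h1 := eval_neg B a b hb
  rw [hz, eval_zero] at h1
  rcases mul_eq_zero.1 h1.symm with h2 | h2
  · exact h2
  · exfalso
    obtain ⟨b', hb', h3⟩ := Finset.prod_eq_zero_iff.1 h2
    exact (Finset.mem_erase.1 hb').1 (sub_eq_zero.1 h3)

end Pool.Agent.MTR
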