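import Pool.Agent.MTR.Stmts

/-!
Montesinos knots, recovery part: PLIFT, lifting of a permutation of the triples.
-/

namespace Pool.Agent.MTR

open Pool.Agent.TB

namespace PLIFT

theorem lift_aux {α β : Type} (f : α → β) {m n : List β} (h : m.Perm n) :
    ∀ l : List α, n = l.map f → ∃ l' : List α, l'.Perm l ∧ l'.map f = m := by
  induction h with
  | nil =>
    intro l hl
    exact ⟨l, List.Perm.refl _, hl.symm⟩
  | cons b _ ih =>
    intro l hl
    cases l with
    | nil => simp at hl
    | cons a l =>
      simp only [List.map_cons, List.cons.injEq] at hl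
      obtain ⟨hb, hl⟩ := hl
      obtain ⟨l', h1, h2⟩ := ih l hl
      exact ⟨a :: l', h1.cons a, by rw [List.map_cons, h2, hb]⟩
  | swap b c n =>
    intro l hl
    cases l with
    | nil => simp at hl
    | cons a l =>
      cases l with
      | nil => simp at hl
      | cons a' l =>
        simp only [List.map_cons, List.cons.injEq] at hl
        obtain ⟨h1, h2, h3⟩ := hl
        refine ⟨a' :: a :: l, List.Perm.swap _ _ _, ?_⟩
        rw [List.map_cons, List.map_cons, ← h1, ← h2, ← h3]
  | trans _ _ ih1 ih2 =>
    intro l hl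
    obtain ⟨l', h1, h2⟩ := ih2 l hl
    obtain ⟨l'', h3, h4⟩ := ih1 l' h2.symm
    exact ⟨l'', h3.trans h1, h4⟩

theorem lv_perm (had : ADV_Stmt) (e : ℤ) {ws ws' : List (List ℤ)} (h : ws.Perm ws') :
    lv e ws = lv e ws' := by
  unfold lv
  rw [had.1 e ws ws' h]

end PLIFT

/-- PLIFT. -/
theorem plift (had : ADV_Stmt) : PLIFT_Stmt := by
  refine ⟨?_, ?_, ?_⟩
  · intro α β f l m h
    exact PLIFT.lift_aux f h l rfl
  · intro e ws ws' h x
    rw [PLIFT.lv_perm had e (h.erase x)]
  · intro e ws ws' h
    refine ⟨?_, ?_⟩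
    · unfold trs
      have h1 : (ws.map fun x => tri (lv e (ws.erase x)) (lastv x)) =
          ws.map fun x => tri (lv e (ws'.erase x)) (lastv x) := by
        apply List.map_congr_left
        intro x _
        rw [PLIFT.lv_perm had e (h.erase x)]
      rw [h1]
      exact h.map _
    · unfold tr0
      rw [PLIFT.lv_perm had e h]

end Pool.Agent.MTR
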