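import Pool.Agent.MTR.Stmts

/-!
Montesinos knots, recovery part: SITZ, the site sum is the function of the triple.
-/

open scoped BigOperators

namespace Pool.Agent.MTR

open Pool.Agent.TB

namespace SITZ

/-- the pair `(u, w)` of a vector -/
def phi (l V R : ℤ × ℤ) : ℤ × ℤ :=
  (det2 R V, Int.sign (det2 l V) * det2 l R / (Int.gcd l.1 l.2 : ℤ))

theorem dvd_det2 (l R : ℤ × ℤ) : (Int.gcd l.1 l.2 : ℤ) ∣ det2 l R := by
  unfold det2
  exact dvd_sub (Dvd.dvd.mul_right (Int.gcd_dvd_left _ _) _)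
    (Dvd.dvd.mul_right (Int.gcd_dvd_right _ _) _)

theorem phi_snd (l V R : ℤ × ℤ) :
    (Int.gcd l.1 l.2 : ℤ) * (phi l V R).2 = Int.sign (det2 l V) * det2 l R :=
  Int.mul_ediv_cancel' (Dvd.dvd.mul_left (dvd_det2 l R) _)

theorem rec2 (l V R : ℤ × ℤ) : l.2 * det2 R V + V.2 * det2 l R = det2 l V * R.2 := by
  unfold det2
  ring

theorem rec1 (l V R : ℤ × ℤ) : l.1 * det2 R V + V.1 * det2 l R = det2 l V * R.1 := by
  unfold det2
  ring

theorem sign_sq {D : ℤ} (hD : D ≠ 0) : Int.sign D * Int.sign D = 1 := by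
  rcases lt_or_gt_of_ne hD with h | h
  · rw [Int.sign_eq_neg_one_of_neg h]
    norm_num
  · rw [Int.sign_eq_one_of_pos h]
    norm_num

end SITZ

open SITZ in
/-- SITZ. -/
theorem sitz (hs : SITE_Stmt) : SITZ_Stmt := by
  intro l V hco hodd hl hV c M hc
  obtain ⟨-, hg, hΔ, hlat⟩ := hs l V hco hodd hl hV
  have hD : det2 l V ≠ 0 := by
    intro h
    rw [h] at hodd
    exact absurd hodd (by decide)
  have hρ : (tri l V).2.2 = (Int.sign (det2 l V) : ℚ) * l.2 / ((Int.gcd l.1 l.2 : ℤ) * V.2) := by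
    unfold tri
    push_cast
    rfl
  have hε : ((Int.sign (det2 l V) : ℤ) : ℚ) * ((Int.sign (det2 l V) : ℤ) : ℚ) = 1 := by
    exact_mod_cast sign_sq hD
  have habs : (((tri l V).1 : ℕ) : ℤ) * (Int.gcd l.1 l.2 : ℤ) =
      Int.sign (det2 l V) * det2 l V := by
    have h1 : (((tri l V).1 : ℕ) : ℤ) * (Int.gcd l.1 l.2 : ℤ) = ((det2 l V).natAbs : ℤ) := by
      exact_mod_cast hΔ
    rw [h1, Int.sign_mul_self]
  generalize tri l V = x at hρ habs hlat ⊢
  generalize hgd : (Int.gcd l.1 l.2 : ℤ) = g at hρ habs hlat ⊢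
  generalize hDd : det2 l V = D at hρ hε habs hD hlat ⊢
  have hg0 : g ≠ 0 := by
    rw [← hgd]
    exact_mod_cast hg.ne'
  have hg0' : (g : ℚ) ≠ 0 := by exact_mod_cast hg0
  have hD' : (D : ℚ) ≠ 0 := by exact_mod_cast hD
  have hc' : (c : ℚ) ≠ 0 := by exact_mod_cast hc
  have hV' : (V.2 : ℚ) ≠ 0 := by exact_mod_cast hV
  have hε0 : ((Int.sign D : ℤ) : ℚ) ≠ 0 := by
    intro h
    rw [h, mul_zero] at hε
    exact zero_ne_one hε
  have habs' : ((x.1 : ℕ) : ℚ) * g = ((Int.sign D : ℤ) : ℚ) * D := by exact_mod_cast habs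
  have hx0 : ((x.1 : ℕ) : ℚ) ≠ 0 := by
    intro h
    rw [h, zero_mul] at habs'
    exact mul_ne_zero hε0 hD' habs'.symm
  have hw : ∀ R : ℤ × ℤ, (g : ℚ) * ((phi l V R).2 : ℚ) = ((Int.sign D : ℤ) : ℚ) * det2 l R := by
    intro R
    have h := phi_snd l V R
    rw [hgd, hDd] at h
    exact_mod_cast h
  have hwz : ∀ R : ℤ × ℤ, Int.sign D * det2 l R = g * (phi l V R).2 := by
    intro R
    have h := phi_snd l V R
    rw [hgd, hDd] at h
    exact h.symm
  have hεz : Int.sign D * Int.sign D = 1 := sign_sq hD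
  unfold zsum Tri.T
  refine finsum_mem_eq_of_bijOn (phi l V) ⟨?_, ?_, ?_⟩ ?_
  · -- maps to
    intro R hR
    simp only [Set.mem_ofPred_eq] at hR ⊢
    constructor
    · have hR' : (c : ℚ) * ((det2 l R : ℚ) * (det2 R V : ℚ)) = M := by exact_mod_cast hR
      have h1 : ((phi l V R).1 : ℚ) = (det2 R V : ℚ) := rfl
      have h2 := hw R
      have h3 : (phi l V R).2 = ((Int.sign D : ℤ) : ℚ) * det2 l R / g := by
        rw [← h2]
        field_simp
      have h4 : ((x.1 : ℕ) : ℚ) = ((Int.sign D : ℤ) : ℚ) * D / g := by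
        rw [← habs']
        field_simp
      rw [h1, h3, h4, ← hR']
      field_simp
    · exact (hlat _ _).2 ⟨R, rfl, hwz R⟩
  · -- injective
    intro R _ R' _ h
    have h1 : det2 R V = det2 R' V := congrArg Prod.fst h
    have h2 : (phi l V R).2 = (phi l V R').2 := congrArg Prod.snd h
    have h3 : Int.sign D * det2 l R = Int.sign D * det2 l R' := by rw [hwz, hwz, h2]
    have h4 : det2 l R = det2 l R' := by
      have h5 := congrArg (fun z => Int.sign D * z) h3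
      simp only [← mul_assoc, hεz, one_mul] at h5
      exact h5
    have e1 := rec1 l V R
    have e1' := rec1 l V R'
    have e2 := rec2 l V R
    have e2' := rec2 l V R'
    rw [h1, h4, e1', hDd] at e1
    rw [h1, h4, e2', hDd] at e2
    exact Prod.ext (mul_left_cancel₀ hD e1.symm) (mul_left_cancel₀ hD e2.symm)
  · -- surjective
    rintro ⟨u, w⟩ ⟨huw, hdv⟩
    simp only at huw hdv
    obtain ⟨R, hR1, hR2⟩ := (hlat u w).1 hdv
    have h0 : (phi l V R).2 = w := by
      have h := hwz R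
      rw [hR2] at h
      exact (mul_left_cancel₀ hg0 h).symm
    refine ⟨R, ?_, Prod.ext hR1 h0⟩
    simp only [Set.mem_ofPred_eq]
    have h2 : (((Int.sign D : ℤ) : ℚ)) * det2 l R = g * w := by exact_mod_cast hR2
    have h3 : (det2 l R : ℚ) = ((Int.sign D : ℤ) : ℚ) * (g * w) := by
      rw [← h2, ← mul_assoc, hε, one_mul]
    have h4 : (c : ℚ) * ((det2 l R : ℚ) * (det2 R V : ℚ)) = M := by
      rw [hR1, h3]
      have h5 : (c : ℚ) * (((Int.sign D : ℤ) : ℚ) * (g * w) * u) =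
          c * ((Int.sign D : ℤ) : ℚ) * g * ((u : ℚ) * w) := by ring
      rw [h5, huw]
      have h6 : (c : ℚ) * ((Int.sign D : ℤ) : ℚ) * g * ((M : ℚ) / (c * D) * (x.1 : ℕ)) =
          c * ((Int.sign D : ℤ) : ℚ) * ((M : ℚ) / (c * D)) * (((x.1 : ℕ) : ℚ) * g) := by ring
      rw [h6, habs']
      have h7 : (c : ℚ) * ((Int.sign D : ℤ) : ℚ) * ((M : ℚ) / (c * D)) *
          (((Int.sign D : ℤ) : ℚ) * D) =
          (((Int.sign D : ℤ) : ℚ) * ((Int.sign D : ℤ) : ℚ)) * (c * D * ((M : ℚ) / (c * D))) := by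
        ring
      rw [h7, hε, one_mul]
      field_simp
    exact_mod_cast h4
  · -- the values
    intro R _
    have h1 : ((phi l V R).1 : ℚ) = (det2 R V : ℚ) := rfl
    have h2 := hw R
    have h3 : (l.2 : ℚ) * det2 R V + V.2 * det2 l R = D * R.2 := by
      have h := rec2 l V R
      rw [hDd] at h
      exact_mod_cast h
    have h4 : ((phi l V R).2 : ℚ) + x.2.2 * det2 R V = ((x.1 : ℕ) : ℚ) * R.2 / V.2 := by
      rw [hρ, eq_div_iff hV']
      have h5 : (((phi l V R).2 : ℚ) + ((Int.sign D : ℤ) : ℚ) * l.2 / (g * V.2) * det2 R V) * V.2 =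
          (g * ((phi l V R).2 : ℚ) * V.2 + ((Int.sign D : ℤ) : ℚ) * l.2 * det2 R V) / g := by
        field_simp
      rw [h5, h2, div_eq_iff hg0']
      have h6 : ((x.1 : ℕ) : ℚ) * R.2 * g = (((x.1 : ℕ) : ℚ) * g) * R.2 := by ring
      rw [h6, habs']
      linear_combination ((Int.sign D : ℤ) : ℚ) * h3
    rw [h1, h4]
    by_cases hu : (det2 R V : ℚ) = 0
    · rw [hu]
      simp
    by_cases hR : (R.2 : ℚ) = 0
    · rw [hR]
      simp
    field_simp

end Pool.Agent.MTR
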