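import Pool.Agent.MTR.Stmts

/-!
Montesinos knots, recovery part: module TINV. The sum of the functions of a triple and of its
inverse depends only on `(Δ, c)`.
-/

open scoped BigOperators

namespace Pool.Agent.MTR.TINV

/-- The index set of the functions. -/
def S (d : ℕ) (c : ℤ) (t : ℚ) : Set (ℤ × ℤ) :=
  {p : ℤ × ℤ | (p.1 : ℚ) * p.2 = t * d ∧ (d : ℤ) ∣ p.2 - c * p.1}

lemma finite_S (d : ℕ) (c : ℤ) (t : ℚ) (h : t * d ≠ 0) : (S d c t).Finite := by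
  rcases (S d c t).eq_empty_or_nonempty with h0 | ⟨p, hp⟩
  · rw [h0]; exact Set.finite_empty
  · set n : ℤ := p.1 * p.2 with hn
    have hnQ : (n : ℚ) = t * d := by rw [hn]; push_cast; exact hp.1
    have hn0 : n ≠ 0 := by
      intro h1
      apply h
      rw [← hnQ, h1]
      simp
    apply ((Set.finite_Icc (-|n|) |n|).prod (Set.finite_Icc (-|n|) |n|)).subset
    intro r hr
    have h1 : r.1 * r.2 = n := by
      have h2 : ((r.1 * r.2 : ℤ) : ℚ) = (n : ℚ) := by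
        push_cast
        rw [hnQ]
        exact hr.1
      exact_mod_cast h2
    have h3 : r.1 ∣ n := ⟨r.2, h1.symm⟩
    have h4 : r.2 ∣ n := ⟨r.1, by rw [← h1]; ring⟩
    have h5 : |r.1| ≤ |n| := Int.le_of_dvd (abs_pos.mpr hn0) ((abs_dvd_abs _ _).mpr h3)
    have h6 : |r.2| ≤ |n| := Int.le_of_dvd (abs_pos.mpr hn0) ((abs_dvd_abs _ _).mpr h4)
    exact Set.mem_prod.mpr ⟨Set.mem_Icc.mpr (abs_le.mp h5), Set.mem_Icc.mpr (abs_le.mp h6)⟩

/-- No denominator vanishes if `q` is large. -/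
lemma no_zero {q : ℕ} (hq : q.Prime) {d d0 : ℕ} (hd : 0 < d) (hd0 : 0 < d0) (h1 : d0 < q)
    (h2 : d < q) (r : ℚ) (hr : r ≠ 0) (h3 : r.num.natAbs < q) (h4 : r.den < q) (u w : ℤ)
    (h : (u : ℚ) * w = (q : ℚ) / d0 * d) : (w : ℚ) + r * u ≠ 0 := by
  intro hz
  have hd0Q : (d0 : ℚ) ≠ 0 := by exact_mod_cast hd0.ne'
  have hdenQ : (r.den : ℚ) ≠ 0 := by exact_mod_cast r.den_ne_zero
  have hrr : r = r.num / r.den := (Rat.num_div_den r).symm
  have e1 : (w : ℚ) * r.den = -(r.num * u) := by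
    have : (w : ℚ) = -(r * u) := by linarith
    rw [this]
    nth_rewrite 1 [hrr]
    field_simp
  have e2 : (u : ℚ) * w * d0 = q * d := by
    rw [h]; field_simp
  have e3 : (u * w * d0 : ℤ) = q * d := by exact_mod_cast e2
  have e4 : (w * r.den : ℤ) = -(r.num * u) := by exact_mod_cast e1
  have e5 : (q : ℤ) * d * r.den = -(r.num * u * u * d0) := by
    linear_combination (-(r.den : ℤ)) * e3 + (u * d0 : ℤ) * e4
  have e6 : q * (d * r.den) = r.num.natAbs * d0 * (u.natAbs * u.natAbs) := by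
    have := congrArg Int.natAbs e5
    simp only [Int.natAbs_mul, Int.natAbs_neg, Int.natAbs_natCast] at this
    rw [← mul_assoc, this]
    ring
  have hpq := hq
  have n1 : ¬ q ∣ r.num.natAbs * d0 := by
    intro hdv
    rcases (Nat.Prime.dvd_mul hpq).mp hdv with h5 | h5
    · have h6 : 0 < r.num.natAbs := Int.natAbs_pos.mpr (Rat.num_ne_zero.mpr hr)
      exact absurd (Nat.le_of_dvd h6 h5) (by omega)
    · exact absurd (Nat.le_of_dvd hd0 h5) (by omega)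
  have n2 : ¬ q ∣ d * r.den := by
    intro hdv
    rcases (Nat.Prime.dvd_mul hpq).mp hdv with h5 | h5
    · exact absurd (Nat.le_of_dvd hd h5) (by omega)
    · exact absurd (Nat.le_of_dvd r.den_pos h5) (by omega)
  have h7 : q ∣ u.natAbs := by
    have h8 : q ∣ r.num.natAbs * d0 * (u.natAbs * u.natAbs) := ⟨_, e6.symm⟩
    rcases (Nat.Prime.dvd_mul hpq).mp h8 with h5 | h5
    · exact absurd h5 n1
    · rcases (Nat.Prime.dvd_mul hpq).mp h5 with h6 | h6 <;> exact h6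
  obtain ⟨v, hv⟩ := h7
  rw [hv] at e6
  have e7 : d * r.den = q * (r.num.natAbs * d0 * (v * v)) := by
    apply Nat.eq_of_mul_eq_mul_left hq.pos
    rw [e6]
    ring
  exact n2 ⟨_, e7⟩

lemma key (hi : INVO_Stmt) (x : Tri) (hx : x.ok) {q d0 : ℕ} (hq : q.Prime) (hd0 : 0 < d0)
    (h1 : d0 < q) (h2 : x.1 < q) (h3 : x.2.2.num.natAbs < q) (h4 : x.2.2.den < q) :
    x.T ((q : ℚ) / d0) + x.inv.T ((q : ℚ) / d0) =
      ∑ᶠ p ∈ S x.1 x.2.1 ((q : ℚ) / d0), -(x.1 : ℚ) / ((p.1 : ℚ) * p.2) := by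
  obtain ⟨hodd, hc0, hc1, hcop, hrho⟩ := hx
  obtain ⟨-, -, i1, i2, i3, -, -⟩ := hi x ⟨hodd, hc0, hc1, hcop, hrho⟩
  have hd : 0 < x.1 := hodd.pos
  set t : ℚ := (q : ℚ) / d0 with ht
  have hne : t * x.1 ≠ 0 := by
    have a1 : (q : ℚ) ≠ 0 := by exact_mod_cast hq.ne_zero
    have a2 : (d0 : ℚ) ≠ 0 := by exact_mod_cast hd0.ne'
    have a3 : (x.1 : ℚ) ≠ 0 := by exact_mod_cast hd.ne'
    rw [ht]
    exact mul_ne_zero (div_ne_zero a1 a2) a3
  have hfin := finite_S x.1 x.2.1 t hne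
  -- the inverse
  have hswap : x.inv.T t = ∑ᶠ p ∈ S x.1 x.2.1 t,
      -(x.1 : ℚ) / ((p.2 : ℚ) * ((p.1 : ℚ) + x.2.2⁻¹ * p.2)) := by
    have hdef : x.inv.T t = ∑ᶠ p ∈ S x.inv.1 x.inv.2.1 t,
      -(x.inv.1 : ℚ) / ((p.1 : ℚ) * ((p.2 : ℚ) + x.inv.2.2 * p.1)) := rfl
    rw [hdef, i1, i2]
    symm
    apply finsum_mem_eq_of_bijOn Prod.swap
    · refine ⟨?_, ?_, ?_⟩
      · rintro ⟨u, w⟩ ⟨g1, g2⟩
        refine ⟨?_, ?_⟩
        · simpa [mul_comm] using g1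
        · simp only [Prod.swap_prod_mk] at g2 ⊢
          have : u - x.inv.2.1 * w = -(u * (x.2.1 * x.inv.2.1 - 1)) -
              x.inv.2.1 * (w - x.2.1 * u) := by ring
          rw [this]
          exact dvd_sub ((i3.mul_left _).neg_right) (g2.mul_left _)
      · exact Prod.swap_injective.injOn
      · rintro ⟨w, u⟩ ⟨g1, g2⟩
        refine ⟨(u, w), ⟨?_, ?_⟩, rfl⟩
        · simpa [mul_comm] using g1
        · simp only at g2 ⊢
          have : w - x.2.1 * u = -(w * (x.2.1 * x.inv.2.1 - 1)) -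
              x.2.1 * (u - x.inv.2.1 * w) := by ring
          rw [this]
          exact dvd_sub ((i3.mul_left _).neg_right) (g2.mul_left _)
    · rintro ⟨u, w⟩ _
      rfl
  have hdefx : x.T t = ∑ᶠ p ∈ S x.1 x.2.1 t,
      -(x.1 : ℚ) / ((p.1 : ℚ) * ((p.2 : ℚ) + x.2.2 * p.1)) := rfl
  rw [hswap, hdefx, ← finsum_mem_add_distrib hfin]
  apply finsum_mem_congr rfl
  rintro ⟨u, w⟩ ⟨g1, -⟩
  simp only at g1 ⊢
  have huw : (u : ℚ) * w ≠ 0 := by rw [g1]; exact hne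
  have hu : (u : ℚ) ≠ 0 := left_ne_zero_of_mul huw
  have hw : (w : ℚ) ≠ 0 := right_ne_zero_of_mul huw
  have hz : (w : ℚ) + x.2.2 * u ≠ 0 := no_zero hq hd hd0 h1 h2 _ hrho h3 h4 u w g1
  have hz' : (u : ℚ) + x.2.2⁻¹ * w = x.2.2⁻¹ * ((w : ℚ) + x.2.2 * u) := by
    field_simp
    ring
  rw [hz']
  obtain ⟨z, hz2⟩ : ∃ z : ℚ, z = (w : ℚ) + x.2.2 * u := ⟨_, rfl⟩
  rw [← hz2] at hz ⊢
  field_simp
  linear_combination hz2

end Pool.Agent.MTR.TINV

namespace Pool.Agent.MTR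

/-- TINV -/
theorem tinv (hi : INVO_Stmt) : TINV_Stmt := by
  intro x y hx hy h1 h2 d0 hd0
  refine ⟨d0 + x.1 + x.2.2.num.natAbs + x.2.2.den + y.2.2.num.natAbs + y.2.2.den, ?_⟩
  intro q hq hL
  have hpos : 0 < d0 := hd0.pos
  rw [TINV.key hi x hx hq hpos (by omega) (by omega) (by omega) (by omega),
    TINV.key hi y hy hq hpos (by omega) (by omega) (by omega) (by omega), h1, h2]

end Pool.Agent.MTR
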