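import Pool.Agent.MTR.Stmts

/-!
Montesinos knots, recovery part: module TVAL, the values of the function of a triple at
`q / Δ_0`, `q` a large prime.
-/

open scoped BigOperators

namespace Pool.Agent.MTR.TVAL

open Pool.Agent.MTR

/-- factorisations of a prime in the integers -/
lemma fact_prime {q : ℕ} (hq : q.Prime) {u w : ℤ} (h : u * w = q) :
    (u = 1 ∧ w = q) ∨ (u = -1 ∧ w = -q) ∨ (u = q ∧ w = 1) ∨ (u = -q ∧ w = -1) := by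
  have hq0 : (q : ℤ) ≠ 0 := by exact_mod_cast hq.ne_zero
  have hd : u.natAbs ∣ q := by
    have h1 : u ∣ (q : ℤ) := ⟨w, h.symm⟩
    have h2 := Int.natAbs_dvd_natAbs.mpr h1
    simpa using h2
  rcases (Nat.dvd_prime hq).mp hd with h1 | h1
  · rcases Int.natAbs_eq u with h2 | h2
    · left
      rw [h1] at h2
      have hu : u = 1 := by simpa using h2
      subst hu
      exact ⟨rfl, by linarith⟩
    · right; left
      rw [h1] at h2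
      have hu : u = -1 := by simpa using h2
      subst hu
      exact ⟨rfl, by linarith⟩
  · rcases Int.natAbs_eq u with h2 | h2
    · right; right; left
      rw [h1] at h2
      refine ⟨h2, ?_⟩
      rw [h2] at h
      have : (q : ℤ) * w = q * 1 := by linarith
      exact mul_left_cancel₀ hq0 this
    · right; right; right
      rw [h1] at h2
      refine ⟨h2, ?_⟩
      rw [h2] at h
      have : (q : ℤ) * w = q * (-1) := by linarith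
      exact mul_left_cancel₀ hq0 this

/-- first part: no solutions -/
lemma part_a (Δ : ℕ) (c : ℤ) (ρ : ℚ) (Δ0 : ℕ) (hΔ0 : Odd Δ0) {q : ℕ} (hq : q.Prime)
    (hL : Δ0 < q) (hnd : ¬ Δ0 ∣ Δ) : Tri.T (Δ, c, ρ) ((q : ℚ) / Δ0) = 0 := by
  have h0 : Δ0 ≠ 0 := by rintro rfl; simp at hΔ0
  have hpos : 0 < Δ0 := Nat.pos_of_ne_zero h0
  have hset : {p : ℤ × ℤ | (p.1 : ℚ) * p.2 = (q : ℚ) / Δ0 * Δ ∧
      ((Δ : ℕ) : ℤ) ∣ p.2 - c * p.1} = ∅ := by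
    ext p
    simp only [Set.mem_ofPred_eq, Set.mem_empty_iff_false, iff_false, not_and]
    intro h1
    exfalso
    apply hnd
    have h2 : (p.1 : ℚ) * p.2 * Δ0 = q * Δ := by
      rw [h1]
      have : (Δ0 : ℚ) ≠ 0 := by exact_mod_cast h0
      field_simp
    have h3 : p.1 * p.2 * (Δ0 : ℤ) = (q : ℤ) * Δ := by exact_mod_cast h2
    have h4 : (Δ0 : ℤ) ∣ (q : ℤ) * Δ := ⟨p.1 * p.2, by rw [← h3]; ring⟩
    have h5 : Δ0 ∣ q * Δ := by exact_mod_cast h4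
    have hcop : Nat.Coprime Δ0 q := by
      rw [Nat.coprime_comm]
      exact (Nat.Prime.coprime_iff_not_dvd hq).mpr (Nat.not_dvd_of_pos_of_lt hpos hL)
    exact hcop.dvd_of_dvd_mul_left h5
  unfold Tri.T
  simp only
  rw [hset]
  simp

/-- second part -/
lemma part_b (Δ : ℕ) (c : ℤ) (ρ : ℚ) (hΔ : Odd Δ) (hρ : ρ ≠ 0) {q : ℕ} (hq : q.Prime)
    (h1 : (q : ℚ) + ρ ≠ 0) (h2 : (q : ℚ) + ρ⁻¹ ≠ 0) :
    Tri.T (Δ, c, ρ) ((q : ℚ) / Δ) = -(2 * (Δ : ℚ)) *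
      ((if (Δ : ℤ) ∣ q - c then 1 / ((q : ℚ) + ρ) else 0) +
        (if (Δ : ℤ) ∣ c * q - 1 then 1 / (q : ℚ) - 1 / ((q : ℚ) + ρ⁻¹) else 0)) := by
  classical
  have h0 : Δ ≠ 0 := by rintro rfl; simp at hΔ
  have hq0 : (q : ℚ) ≠ 0 := by exact_mod_cast hq.ne_zero
  have hq1 : (2 : ℤ) ≤ q := by exact_mod_cast hq.two_le
  have hset : {p : ℤ × ℤ | (p.1 : ℚ) * p.2 = (q : ℚ) / Δ * Δ ∧
      ((Δ : ℕ) : ℤ) ∣ p.2 - c * p.1} =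
      ((({((1 : ℤ), (q : ℤ)), (-1, -(q : ℤ)), ((q : ℤ), 1), (-(q : ℤ), -1)} :
        Finset (ℤ × ℤ)).filter (fun p => (Δ : ℤ) ∣ p.2 - c * p.1) : Finset (ℤ × ℤ)) :
          Set (ℤ × ℤ)) := by
    ext p
    obtain ⟨u, w⟩ := p
    simp only [Set.mem_ofPred_eq, Finset.coe_filter, Finset.mem_insert, Finset.mem_singleton,
      Prod.mk.injEq]
    apply and_congr_left
    intro _
    have hΔ' : (Δ : ℚ) ≠ 0 := by exact_mod_cast h0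
    rw [div_mul_cancel₀ _ hΔ']
    constructor
    · intro h
      have h' : u * w = (q : ℤ) := by exact_mod_cast h
      exact fact_prime hq h'
    · rintro (⟨rfl, rfl⟩ | ⟨rfl, rfl⟩ | ⟨rfl, rfl⟩ | ⟨rfl, rfl⟩) <;> push_cast <;> ring
  unfold Tri.T
  simp only
  rw [hset, finsum_mem_coe_finset, Finset.sum_filter]
  rw [Finset.sum_insert, Finset.sum_insert, Finset.sum_insert, Finset.sum_singleton]
  rotate_left
  · simp only [Finset.mem_singleton, Prod.mk.injEq]; omega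
  · simp only [Finset.mem_insert, Finset.mem_singleton, Prod.mk.injEq]; omega
  · simp only [Finset.mem_insert, Finset.mem_singleton, Prod.mk.injEq]; omega
  have e1 : ((Δ : ℤ) ∣ (q : ℤ) - c * 1) ↔ ((Δ : ℤ) ∣ q - c) := by rw [mul_one]
  have e2 : ((Δ : ℤ) ∣ -(q : ℤ) - c * (-1)) ↔ ((Δ : ℤ) ∣ q - c) := by
    rw [show -(q : ℤ) - c * (-1) = -((q : ℤ) - c) by ring, dvd_neg]
  have e3 : ((Δ : ℤ) ∣ 1 - c * (q : ℤ)) ↔ ((Δ : ℤ) ∣ c * q - 1) := by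
    rw [show 1 - c * (q : ℤ) = -(c * (q : ℤ) - 1) by ring, dvd_neg]
  have e4 : ((Δ : ℤ) ∣ -1 - c * (-(q : ℤ))) ↔ ((Δ : ℤ) ∣ c * q - 1) := by
    rw [show -1 - c * (-(q : ℤ)) = c * (q : ℤ) - 1 by ring]
  simp only [e1, e2, e3, e4]
  have h3 : 1 + ρ * (q : ℚ) ≠ 0 := by
    intro h
    apply h2
    have : (q : ℚ) + ρ⁻¹ = ρ⁻¹ * (1 + ρ * q) := by field_simp; ring
    rw [this, h, mul_zero]
  have t1 : -(Δ : ℚ) / (((1 : ℤ) : ℚ) * (((q : ℤ) : ℚ) + ρ * ((1 : ℤ) : ℚ))) =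
      -(Δ : ℚ) * (1 / ((q : ℚ) + ρ)) := by
    push_cast
    rw [one_mul, mul_one]
    ring
  have t2 : -(Δ : ℚ) / (((-1 : ℤ) : ℚ) * (((-(q : ℤ) : ℤ) : ℚ) + ρ * ((-1 : ℤ) : ℚ))) =
      -(Δ : ℚ) * (1 / ((q : ℚ) + ρ)) := by
    push_cast
    rw [show (-1 : ℚ) * (-(q : ℚ) + ρ * -1) = (q : ℚ) + ρ by ring]
    ring
  have t5 : -(Δ : ℚ) / ((q : ℚ) * (1 + ρ * q)) =
      -(Δ : ℚ) * (1 / (q : ℚ) - 1 / ((q : ℚ) + ρ⁻¹)) := by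
    have h4 : (q : ℚ) + ρ⁻¹ = ρ⁻¹ * (1 + ρ * q) := by field_simp; ring
    rw [h4]
    have h5 : 1 / (q : ℚ) - 1 / (ρ⁻¹ * (1 + ρ * q)) = 1 / ((q : ℚ) * (1 + ρ * q)) := by
      have h6 : ∀ X : ℚ, X ≠ 0 → X = 1 + ρ * q →
          1 / (q : ℚ) - 1 / (ρ⁻¹ * X) = 1 / ((q : ℚ) * X) := by
        intro X hX hX'
        have h7 : 1 / (ρ⁻¹ * X) = ρ / X := by field_simp
        rw [h7, div_sub_div _ _ hq0 hX, div_left_inj' (mul_ne_zero hq0 hX), hX']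
        ring
      exact h6 _ h3 rfl
    rw [h5]
    ring
  have t3 : -(Δ : ℚ) / (((q : ℤ) : ℚ) * (((1 : ℤ) : ℚ) + ρ * ((q : ℤ) : ℚ))) =
      -(Δ : ℚ) * (1 / (q : ℚ) - 1 / ((q : ℚ) + ρ⁻¹)) := by
    rw [← t5]; push_cast; rfl
  have t4 : -(Δ : ℚ) / (((-(q : ℤ) : ℤ) : ℚ) * (((-1 : ℤ) : ℚ) + ρ * ((-(q : ℤ) : ℤ) : ℚ))) =
      -(Δ : ℚ) * (1 / (q : ℚ) - 1 / ((q : ℚ) + ρ⁻¹)) := by
    rw [← t5]
    push_cast
    rw [show (-(q : ℚ)) * (-1 + ρ * -(q : ℚ)) = (q : ℚ) * (1 + ρ * q) by ring]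
  rw [t1, t2, t3, t4]
  split_ifs <;> ring

end Pool.Agent.MTR.TVAL

namespace Pool.Agent.MTR

theorem tval : TVAL_Stmt := by
  rintro ⟨Δ, c, ρ⟩ hx Δ0 hΔ0
  obtain ⟨hΔ, -, -, -, hρ⟩ := hx
  simp only at hΔ hρ
  refine ⟨Δ0 + ⌈|ρ|⌉₊ + ⌈|ρ⁻¹|⌉₊, fun q hq hL => ?_⟩
  have hqρ : |ρ| < (q : ℚ) := by
    have h1 : |ρ| ≤ (⌈|ρ|⌉₊ : ℚ) := Nat.le_ceil _
    have h2 : ((⌈|ρ|⌉₊ : ℕ) : ℚ) < q := by exact_mod_cast (by omega : ⌈|ρ|⌉₊ < q)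
    linarith
  have hqρ' : |ρ⁻¹| < (q : ℚ) := by
    have h1 : |ρ⁻¹| ≤ (⌈|ρ⁻¹|⌉₊ : ℚ) := Nat.le_ceil _
    have h2 : ((⌈|ρ⁻¹|⌉₊ : ℕ) : ℚ) < q := by exact_mod_cast (by omega : ⌈|ρ⁻¹|⌉₊ < q)
    linarith
  have n1 : (q : ℚ) + ρ ≠ 0 := by
    have := neg_abs_le ρ
    intro h
    linarith
  have n2 : (q : ℚ) + ρ⁻¹ ≠ 0 := by
    have := neg_abs_le ρ⁻¹
    intro h
    linarith
  refine ⟨fun hnd => TVAL.part_a Δ c ρ Δ0 hΔ0 hq (by omega) hnd, fun he => ?_⟩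
  simp only at he
  subst he
  exact TVAL.part_b Δ0 c ρ hΔ hρ hq n1 n2

end Pool.Agent.MTR
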