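import Pool.Agent.MTR.Adv
import Pool.Agent.MTR.Cfuo
import Pool.Agent.MTR.Chno
import Pool.Agent.MTR.Comba
import Pool.Agent.MTR.Combb
import Pool.Agent.MTR.Combc
import Pool.Agent.MTR.Data
import Pool.Agent.MTR.Datb
import Pool.Agent.MTR.Datc
import Pool.Agent.MTR.Datd
import Pool.Agent.MTR.Finr
import Pool.Agent.MTR.Invo
import Pool.Agent.MTR.Lat
import Pool.Agent.MTR.Meas
import Pool.Agent.MTR.Ndg
import Pool.Agent.MTR.Pf
import Pool.Agent.MTR.Plift
import Pool.Agent.MTR.Rec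
import Pool.Agent.MTR.Sitz
import Pool.Agent.MTR.Tinv
import Pool.Agent.MTR.Tval

/-!
Montesinos knots, recovery part: assembly.
-/

open scoped BigOperators

namespace Pool.Agent.MTR

/-- COMB from its parts. -/
theorem comb (ha : COMBA_Stmt) (hb : COMBB_Stmt) (hc : COMBC_Stmt) : COMB_Stmt := by
  intro σ x0 X σ' x0' X' hD hD' h3 hN hor h1 h2
  by_cases h0 : x0.inv = x0
  · exact ha σ x0 X σ' x0' X' hD hD' h3 hN h0 h1 h2
  · obtain ⟨e1, e2, -⟩ := hb σ x0 X σ' x0' X' hD hD' h3 h0 h1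
    subst e1 e2
    exact ⟨rfl, hc σ x0 X X' hD hD' hN hor h0 h1 h2⟩

/-- DAT from its parts. -/
theorem dat (hA : DATA_Stmt) (hB : DATB_Stmt) (hC : DATC_Stmt) (hD : DATD_Stmt) : DAT_Stmt := by
  intro e ws hNF
  obtain ⟨a1, a2, a3, a4, a5, a6, -⟩ := hA e ws hNF
    ((Int.sign (DD e ws) * Int.sign (totv e ws).2 : ℤ) : ℚ) rfl
  obtain ⟨b1, b2, b3⟩ := hB e ws hNF
  exact ⟨a1, a2, a3, a4, a5, a6, b1, b2, b3, hC e ws hNF, hD e ws hNF⟩

/-- RECM from its parts. -/
theorem recm_of (hcomb : COMB_Stmt) (hdat : DAT_Stmt) (hndg : NDG_Stmt) (hmeas : MEAS_Stmt)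
    (hfin : FINR_Stmt) : RECM_Stmt := by
  intro e ws e' ws' hNF hNF' h3 hND hor hphi
  obtain ⟨m1, m2⟩ := hmeas e ws e' ws' hNF hNF' hphi
  have hlen : (trs e ws).length = ws.length := by simp [trs]
  have hlen' : (trs e' ws').length = ws'.length := by simp [trs]
  obtain ⟨c1, c2⟩ := hcomb _ _ _ _ _ _ (hdat e ws hNF) (hdat e' ws' hNF')
    (by rw [hlen]; exact h3) (hndg e ws hNF hND)
    (by
      rcases hor with h | h
      · left; rw [hlen, hlen']; exact h
      · right; exact hndg e' ws' hNF' h) m1 m2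
  exact hfin e ws e' ws' hNF hNF' c1 c2

/-- RECM, given SITE. -/
theorem recm (hs : SITE_Stmt) : RECM_Stmt := by
  have hn := chno
  have had := adv hn
  have hi := invo
  have hz := sitz hs
  have hdA := data hs had hn
  have hdB := datb hi hs had hdA
  have hdC := datc hi hs had hn hdA
  have hdD := datd hi hs had hdA hdB
  have hpl := plift had
  exact recm_of (comb (comba hi) (combb hi) (combc hi)) (dat hdA hdB hdC hdD)
    (ndg hi hs had hpl) (meas had hs hz hi (rec_thm hi pf tval (tinv hi)))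
    (finr hn (cfuo hn) had hdA (lat hs) hpl)

end Pool.Agent.MTR
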