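import Pool.Agent.MTR.Stmts

/-!
Module REC: the functions of the triples determine the measure up to the obvious relations.
-/

open scoped BigOperators

namespace Pool.Agent.MTR

open Pool.Agent.TB

namespace REC

/-- the statement for the level `Δ` -/
def Lev (m : Tri →₀ ℤ) (Δ : ℕ) : Prop :=
  (∀ x : Tri, x.ok → x.1 = Δ → m x = m x.inv) ∧
    ∀ k : ℤ, ∑ x ∈ m.support.filter (fun x => (x.1, x.2.1) = (Δ, k)), m x = 0

theorem class_sum {m : Tri →₀ ℤ} {Δ : ℕ} (h : Lev m Δ) (F : Tri → ℚ)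
    (hF : ∀ x ∈ m.support, ∀ y ∈ m.support, x.1 = Δ → y.1 = Δ → x.2.1 = y.2.1 → F x = F y) :
    ∑ x ∈ m.support.filter (fun x => x.1 = Δ), (m x : ℚ) * F x = 0 := by
  classical
  rw [← Finset.sum_fiberwise_of_maps_to (s := m.support.filter (fun x => x.1 = Δ))
    (t := (m.support.filter (fun x => x.1 = Δ)).image fun x => x.2.1) (g := fun x => x.2.1)
    (fun x hx => Finset.mem_image_of_mem _ hx)]
  refine Finset.sum_eq_zero fun k hk => ?_
  obtain ⟨x0, hx0, rfl⟩ := Finset.mem_image.1 hk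
  rw [Finset.mem_filter] at hx0
  have h1 : ∀ x ∈ (m.support.filter (fun x => x.1 = Δ)).filter (fun x => x.2.1 = x0.2.1),
      (m x : ℚ) * F x = (m x : ℚ) * F x0 := by
    intro x hx
    rw [Finset.mem_filter, Finset.mem_filter] at hx
    rw [hF x hx.1.1 x0 hx0.1 hx.1.2 hx0.2 hx.2]
  rw [Finset.sum_congr rfl h1, ← Finset.sum_mul]
  have h2 := h.2 x0.2.1
  have e : (m.support.filter (fun x => x.1 = Δ)).filter (fun x => x.2.1 = x0.2.1) =
      m.support.filter (fun x => (x.1, x.2.1) = (Δ, x0.2.1)) := by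
    ext x
    simp only [Finset.mem_filter, Prod.mk.injEq]
    tauto
  rw [e]
  have h3 : (∑ x ∈ m.support.filter (fun x => (x.1, x.2.1) = (Δ, x0.2.1)), (m x : ℚ)) = 0 := by
    exact_mod_cast h2
  rw [h3, zero_mul]

/-- the sum over a level above -/
theorem above (hi : INVO_Stmt) (htt : TINV_Stmt) {m : Tri →₀ ℤ} (hm : ∀ x ∈ m.support, x.ok)
    {Δ : ℕ} (h : Lev m Δ) (Δ0 : ℕ) (h0 : Odd Δ0) : ∃ L : ℕ, ∀ q : ℕ, q.Prime → L < q →
    ∑ x ∈ m.support.filter (fun x => x.1 = Δ), (m x : ℚ) * x.T ((q : ℚ) / Δ0) = 0 := by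
  classical
  -- a common bound
  have hb : ∀ p : Tri × Tri, ∃ L : ℕ, p.1 ∈ m.support → p.2 ∈ m.support → p.1.1 = p.2.1 →
      p.1.2.1 = p.2.2.1 → ∀ q : ℕ, q.Prime → L < q →
      p.1.T ((q : ℚ) / Δ0) + p.1.inv.T ((q : ℚ) / Δ0) =
        p.2.T ((q : ℚ) / Δ0) + p.2.inv.T ((q : ℚ) / Δ0) := by
    intro p
    by_cases hp : p.1 ∈ m.support ∧ p.2 ∈ m.support ∧ p.1.1 = p.2.1 ∧ p.1.2.1 = p.2.2.1
    · obtain ⟨L, hL⟩ := htt p.1 p.2 (hm _ hp.1) (hm _ hp.2.1) hp.2.2.1 hp.2.2.2 Δ0 h0
      exact ⟨L, fun _ _ _ _ => hL⟩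
    · exact ⟨0, fun h1 h2 h3 h4 => absurd ⟨h1, h2, h3, h4⟩ hp⟩
  choose L hL using hb
  refine ⟨(m.support ×ˢ m.support).sup L, fun q hq hq' => ?_⟩
  have hF : ∀ x ∈ m.support, ∀ y ∈ m.support, x.1 = Δ → y.1 = Δ → x.2.1 = y.2.1 →
      x.T ((q : ℚ) / Δ0) + x.inv.T ((q : ℚ) / Δ0) =
        y.T ((q : ℚ) / Δ0) + y.inv.T ((q : ℚ) / Δ0) := by
    intro x hx y hy h1 h2 h3
    refine hL (x, y) hx hy (h1.trans h2.symm) h3 q hq (lt_of_le_of_lt ?_ hq')
    exact Finset.le_sup (f := L) (Finset.mk_mem_product hx hy)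
  have h1 := class_sum h (fun x => x.T ((q : ℚ) / Δ0) + x.inv.T ((q : ℚ) / Δ0)) hF
  have h2 : ∑ x ∈ m.support.filter (fun x => x.1 = Δ), (m x : ℚ) * x.inv.T ((q : ℚ) / Δ0) =
      ∑ x ∈ m.support.filter (fun x => x.1 = Δ), (m x : ℚ) * x.T ((q : ℚ) / Δ0) := by
    refine Finset.sum_nbij' (fun x => x.inv) (fun x => x.inv) ?_ ?_ ?_ ?_ ?_
    · intro x hx
      rw [Finset.mem_filter] at hx ⊢
      have k := hi x (hm x hx.1)
      refine ⟨?_, by rw [k.2.2.1]; exact hx.2⟩
      rw [Finsupp.mem_support_iff, ← h.1 x (hm x hx.1) hx.2]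
      exact Finsupp.mem_support_iff.1 hx.1
    · intro x hx
      rw [Finset.mem_filter] at hx ⊢
      have k := hi x (hm x hx.1)
      refine ⟨?_, by rw [k.2.2.1]; exact hx.2⟩
      rw [Finsupp.mem_support_iff, ← h.1 x (hm x hx.1) hx.2]
      exact Finsupp.mem_support_iff.1 hx.1
    · intro x hx
      rw [Finset.mem_filter] at hx
      exact (hi x (hm x hx.1)).2.1
    · intro x hx
      rw [Finset.mem_filter] at hx
      exact (hi x (hm x hx.1)).2.1
    · intro x hx
      rw [Finset.mem_filter] at hx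
      rw [← h.1 x (hm x hx.1) hx.2]
  simp only [mul_add, Finset.sum_add_distrib] at h1
  rw [h2] at h1
  linarith

theorem int_eq {Δ : ℕ} {a b : ℤ} (ha : 0 ≤ a) (ha' : a < Δ) (hb : 0 ≤ b) (hb' : b < Δ)
    (h : (Δ : ℤ) ∣ a - b) : a = b := by
  obtain ⟨k, hk⟩ := h
  have h1 : k = 0 := by
    by_contra hk0
    have h2 : (1 : ℤ) ≤ |k| := Int.one_le_abs hk0
    have h3 : |a - b| = (Δ : ℤ) * |k| := by rw [hk, abs_mul]; simp
    have h4 : |a - b| < Δ := by
      rw [abs_lt]
      constructor <;> linarith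
    have h5 : (0 : ℤ) ≤ Δ := by positivity
    nlinarith
  rw [h1, mul_zero] at hk
  linarith

/-- the argument at one level and one class -/
theorem level (hi : INVO_Stmt) (hp : PF_Stmt) (ht : TVAL_Stmt) {m : Tri →₀ ℤ}
    (hm : ∀ x ∈ m.support, x.ok) {Δ0 : ℕ} (h0 : Odd Δ0)
    (hS : ∃ L : ℕ, ∀ q : ℕ, q.Prime → L < q →
      ∑ x ∈ m.support.filter (fun x => x.1 = Δ0), (m x : ℚ) * x.T ((q : ℚ) / Δ0) = 0)
    (y : Tri) (hy : y.ok) (hy0 : y.1 = Δ0) : m y = m y.inv ∧
      ∑ x ∈ m.support.filter (fun x => x.1 = Δ0 ∧ x.inv.2.1 = y.2.1), m x = 0 := by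
  classical
  obtain ⟨L0, hL0⟩ := hS
  set k := y.2.1 with hk
  have hΔ0 : 0 < Δ0 := h0.pos
  have : NeZero Δ0 := ⟨hΔ0.ne'⟩
  -- common bound for the values
  have hb : ∀ x : Tri, ∃ L : ℕ, x ∈ m.support → x.1 = Δ0 → ∀ q : ℕ, q.Prime → L < q →
      x.T ((q : ℚ) / Δ0) = -(2 * (x.1 : ℚ)) *
      ((if (x.1 : ℤ) ∣ q - x.2.1 then 1 / ((q : ℚ) + x.2.2) else 0) +
        (if (x.1 : ℤ) ∣ x.2.1 * q - 1 then 1 / (q : ℚ) - 1 / ((q : ℚ) + x.2.2⁻¹) else 0)) := by
    intro x
    by_cases hx : x ∈ m.support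
    · obtain ⟨L, hL⟩ := ht x (hm x hx) Δ0 h0
      exact ⟨L, fun _ h1 q hq hq' => (hL q hq hq').2 h1.symm⟩
    · exact ⟨0, fun h1 => absurd h1 hx⟩
  choose L1 hL1 using hb
  set s0 := m.support.filter (fun x => x.1 = Δ0) with hs0
  set U := (s0 ∪ s0.image Tri.inv).filter (fun z => z.2.1 = k) with hU
  have okU : ∀ z ∈ U, z.ok ∧ z.1 = Δ0 ∧ z.2.1 = k := by
    intro z hz
    rw [hU, Finset.mem_filter, Finset.mem_union] at hz
    obtain ⟨hz, hzk⟩ := hz
    rcases hz with hz | hz
    · rw [hs0, Finset.mem_filter] at hz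
      exact ⟨hm z hz.1, hz.2, hzk⟩
    · obtain ⟨x, hx, rfl⟩ := Finset.mem_image.1 hz
      rw [hs0, Finset.mem_filter] at hx
      have := hi x (hm x hx.1)
      exact ⟨this.1, by rw [this.2.2.1]; exact hx.2, hzk⟩
  set C0 : ℤ := ∑ x ∈ m.support.filter (fun x => x.1 = Δ0 ∧ x.inv.2.1 = k), m x with hC0
  -- the primes in the class
  set S : Set ℕ := {q : ℕ | q.Prime ∧ max L0 (s0.sup L1) < q ∧ (Δ0 : ℤ) ∣ q - k} with hSdef
  have hSinf : S.Infinite := by
    rw [Set.infinite_iff_frequently_cofinite, Nat.cofinite_eq_atTop, Filter.frequently_atTop]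
    intro N
    have hu : IsUnit ((k : ℤ) : ZMod Δ0) := by
      obtain ⟨a, b, hab⟩ := hy.2.2.2.1
      rw [hy0] at hab
      refine IsUnit.of_mul_eq_one ((a : ℤ) : ZMod Δ0) ?_
      have := congrArg (fun z : ℤ => (z : ZMod Δ0)) hab
      simp only [Int.cast_add, Int.cast_mul, Int.cast_natCast, CharP.cast_eq_zero, mul_zero,
        add_zero, Int.cast_one] at this
      rw [mul_comm]
      exact this
    obtain ⟨q, hq1, hq2, hq3⟩ := Nat.forall_exists_prime_gt_and_eq_mod hu
      (max N (max L0 (s0.sup L1)))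
    refine ⟨q, ?_, hq2, ?_, ?_⟩
    · exact (lt_of_le_of_lt (le_max_left _ _) hq1).le
    · exact lt_of_le_of_lt (le_max_right _ _) hq1
    · rw [← ZMod.intCast_zmod_eq_zero_iff_dvd]
      push_cast
      rw [hq3, sub_self]
  -- the coefficients
  set B : Finset ℚ := insert 0 (U.image fun z => z.2.2) with hB
  set a : ℚ → ℚ := fun b => if b = 0 then (C0 : ℚ) else
    ((m (Δ0, k, b) : ℚ) - m (Tri.inv (Δ0, k, b))) with ha
  have hinj : Set.InjOn (fun z : Tri => z.2.2) (U : Set Tri) := by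
    intro z hz z' hz' h
    have h1 := okU z hz
    have h2 := okU z' hz'
    refine Prod.ext (h1.2.1.trans h2.2.1.symm) (Prod.ext (h1.2.2.trans h2.2.2.symm) h)
  have h0n : (0 : ℚ) ∉ U.image fun z => z.2.2 := by
    intro h
    obtain ⟨z, hz, hz0⟩ := Finset.mem_image.1 h
    exact (okU z hz).1.2.2.2.2 hz0
  have haz : ∀ z ∈ U, a z.2.2 = (m z : ℚ) - m z.inv := by
    intro z hz
    have h1 := okU z hz
    have h2 : (Δ0, k, z.2.2) = z := by
      rw [← h1.2.1, ← h1.2.2]
    simp only [ha]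
    rw [if_neg h1.1.2.2.2.2, h2]
  have key : ∀ q ∈ S, ∑ b ∈ B, a b / ((q : ℚ) + b) = 0 := by
    rintro q ⟨hq, hqL, hqk⟩
    have hq0 : (0 : ℚ) < q := by exact_mod_cast hq.pos
    have e1 := hL0 q hq (lt_of_le_of_lt (le_max_left _ _) hqL)
    -- the conditions
    have cond1 : ∀ x ∈ s0, ((x.1 : ℤ) ∣ q - x.2.1 ↔ x.2.1 = k) := by
      intro x hx
      rw [hs0, Finset.mem_filter] at hx
      have hxo := hm x hx.1
      rw [hx.2]
      constructor
      · intro h
        have h3 : (Δ0 : ℤ) ∣ x.2.1 - k := by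
          have := dvd_sub hqk h
          have e : (q : ℤ) - k - (q - x.2.1) = x.2.1 - k := by ring
          rwa [e] at this
        refine int_eq hxo.2.1 (by rw [← hx.2]; exact hxo.2.2.1) hy.2.1
          (by rw [← hy0]; exact hy.2.2.1) h3
      · intro h
        rw [h]
        exact hqk
    have cond2 : ∀ x ∈ s0, ((x.1 : ℤ) ∣ x.2.1 * q - 1 ↔ x.inv.2.1 = k) := by
      intro x hx
      rw [hs0, Finset.mem_filter] at hx
      have hxo := hm x hx.1
      have kk := hi x hxo
      have h4 : (x.1 : ℤ) ∣ x.2.1 * q - 1 ↔ (x.1 : ℤ) ∣ x.2.1 * k - 1 := by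
        have e : x.2.1 * (q : ℤ) - 1 = (x.2.1 * k - 1) + x.2.1 * (q - k) := by ring
        rw [e]
        refine dvd_add_left ?_
        rw [hx.2]
        exact dvd_mul_of_dvd_right hqk _
      rw [h4]
      constructor
      · intro h
        refine kk.2.2.2.2.2.1 k hy.2.1 ?_ h
        rw [hx.2, ← hy0]
        exact hy.2.2.1
      · intro h
        rw [← h]
        exact kk.2.2.2.2.1
    have e2 : ∀ x ∈ s0, (m x : ℚ) * x.T ((q : ℚ) / Δ0) = -(2 * (Δ0 : ℚ)) *
        ((if x.2.1 = k then (m x : ℚ) / ((q : ℚ) + x.2.2) else 0) +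
          (if x.inv.2.1 = k then (m x : ℚ) / (q : ℚ) - (m x : ℚ) / ((q : ℚ) + x.2.2⁻¹) else 0)) := by
      intro x hx
      have hx' := hx
      rw [hs0, Finset.mem_filter] at hx
      rw [hL1 x hx.1 hx.2 q hq (lt_of_le_of_lt ((Finset.le_sup (f := L1) hx').trans
        (le_max_right _ _)) hqL)]
      simp only [cond1 x hx', cond2 x hx']
      simp only [hx.2]
      split_ifs <;> ring
    rw [Finset.sum_congr rfl e2, ← Finset.mul_sum] at e1
    have hne : -(2 * (Δ0 : ℚ)) ≠ 0 := by
      have : (Δ0 : ℚ) ≠ 0 := by exact_mod_cast hΔ0.ne'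
      intro h
      apply this
      linarith
    have e3 := (mul_eq_zero.1 e1).resolve_left hne
    rw [Finset.sum_add_distrib, ← Finset.sum_filter, ← Finset.sum_filter,
      Finset.sum_sub_distrib] at e3
    -- the first sum
    have t1 : ∑ x ∈ s0.filter (fun x => x.2.1 = k), (m x : ℚ) / ((q : ℚ) + x.2.2) =
        ∑ z ∈ U, (m z : ℚ) / ((q : ℚ) + z.2.2) := by
      refine Finset.sum_subset ?_ ?_
      · intro x hx
        rw [Finset.mem_filter] at hx
        rw [hU, Finset.mem_filter, Finset.mem_union]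
        exact ⟨Or.inl hx.1, hx.2⟩
      · intro z hz hz'
        have h1 := okU z hz
        have h2 : m z = 0 := by
          by_contra h3
          apply hz'
          rw [Finset.mem_filter, hs0, Finset.mem_filter]
          exact ⟨⟨Finsupp.mem_support_iff.2 h3, h1.2.1⟩, h1.2.2⟩
        rw [h2]
        simp
    -- the second sum
    have t2 : ∑ x ∈ s0.filter (fun x => x.inv.2.1 = k), (m x : ℚ) / (q : ℚ) =
        (C0 : ℚ) / (q + 0) := by
      rw [← Finset.sum_div, add_zero, hC0, hs0, Finset.filter_filter]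
      push_cast
      rfl
    -- the third sum
    have t3 : ∑ x ∈ s0.filter (fun x => x.inv.2.1 = k), (m x : ℚ) / ((q : ℚ) + x.2.2⁻¹) =
        ∑ z ∈ U, (m z.inv : ℚ) / ((q : ℚ) + z.2.2) := by
      have t4 : ∑ x ∈ s0.filter (fun x => x.inv.2.1 = k), (m x : ℚ) / ((q : ℚ) + x.2.2⁻¹) =
          ∑ z ∈ (s0.filter (fun x => x.inv.2.1 = k)).image Tri.inv,
            (m z.inv : ℚ) / ((q : ℚ) + z.2.2) := by
        rw [Finset.sum_image]
        · refine Finset.sum_congr rfl fun x hx => ?_
          rw [Finset.mem_filter, hs0, Finset.mem_filter] at hx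
          have kk := hi x (hm x hx.1.1)
          rw [kk.2.1, kk.2.2.2.1]
        · intro x hx x' hx' h
          rw [Finset.mem_coe, Finset.mem_filter, hs0, Finset.mem_filter] at hx hx'
          have k1 := (hi x (hm x hx.1.1)).2.1
          have k2 := (hi x' (hm x' hx'.1.1)).2.1
          rw [← k1, ← k2, h]
      rw [t4]
      refine Finset.sum_subset ?_ ?_
      · intro z hz
        obtain ⟨x, hx, rfl⟩ := Finset.mem_image.1 hz
        rw [Finset.mem_filter] at hx
        rw [hU, Finset.mem_filter, Finset.mem_union]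
        exact ⟨Or.inr (Finset.mem_image_of_mem _ hx.1), hx.2⟩
      · intro z hz hz'
        have h1 := okU z hz
        have kk := hi z h1.1
        have h2 : m z.inv = 0 := by
          by_contra h3
          apply hz'
          refine Finset.mem_image.2 ⟨z.inv, ?_, kk.2.1⟩
          rw [Finset.mem_filter, hs0, Finset.mem_filter, kk.2.1]
          exact ⟨⟨Finsupp.mem_support_iff.2 h3, by rw [kk.2.2.1]; exact h1.2.1⟩, h1.2.2⟩
        rw [h2]
        simp
    rw [t1, t2, t3] at e3
    rw [hB, Finset.sum_insert h0n, Finset.sum_image hinj]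
    have e4 : ∑ z ∈ U, a z.2.2 / ((q : ℚ) + z.2.2) =
        ∑ z ∈ U, (m z : ℚ) / ((q : ℚ) + z.2.2) - ∑ z ∈ U, (m z.inv : ℚ) / ((q : ℚ) + z.2.2) := by
      rw [← Finset.sum_sub_distrib]
      refine Finset.sum_congr rfl fun z hz => ?_
      rw [haz z hz, sub_div]
    rw [e4]
    have e5 : a 0 = (C0 : ℚ) := by simp [ha]
    rw [e5]
    linarith
  have hall := hp B a S hSinf key
  constructor
  · by_cases hyU : y ∈ U
    · have h1 := hall y.2.2 (by
        rw [hB]
        exact Finset.mem_insert_of_mem (Finset.mem_image_of_mem _ hyU))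
      rw [haz y hyU] at h1
      have h2 : (m y : ℚ) = m y.inv := by linarith
      exact_mod_cast h2
    · have kk := hi y hy
      have h1 : m y = 0 := by
        by_contra h3
        apply hyU
        rw [hU, Finset.mem_filter, Finset.mem_union, hs0, Finset.mem_filter]
        exact ⟨Or.inl ⟨Finsupp.mem_support_iff.2 h3, hy0⟩, rfl⟩
      have h2 : m y.inv = 0 := by
        by_contra h3
        apply hyU
        rw [hU, Finset.mem_filter, Finset.mem_union]
        refine ⟨Or.inr (Finset.mem_image.2 ⟨y.inv, ?_, kk.2.1⟩), rfl⟩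
        rw [hs0, Finset.mem_filter]
        exact ⟨Finsupp.mem_support_iff.2 h3, by rw [kk.2.2.1]; exact hy0⟩
      rw [h1, h2]
  · have h1 := hall 0 (by rw [hB]; exact Finset.mem_insert_self _ _)
    have e5 : a 0 = (C0 : ℚ) := by simp [ha]
    rw [e5] at h1
    exact_mod_cast h1

end REC

theorem rec_thm (hi : INVO_Stmt) (hp : PF_Stmt) (ht : TVAL_Stmt) (htt : TINV_Stmt) :
    REC_Stmt := by
  classical
  intro m hm hs
  -- all levels, from above
  have main : ∀ n : ℕ, ∀ Δ : ℕ, (m.support.sup fun x => x.1) < Δ + n → REC.Lev m Δ := by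
    intro n
    induction n with
    | zero =>
      intro Δ hΔ
      have hno : ∀ x : Tri, x.1 = Δ → m x = 0 := by
        intro x hx
        by_contra h
        have h1 := Finset.le_sup (f := fun x : Tri => x.1) (Finsupp.mem_support_iff.2 h)
        omega
      constructor
      · intro x hx hxΔ
        rw [hno x hxΔ, hno x.inv (by rw [(hi x hx).2.2.1]; exact hxΔ)]
      · intro k
        refine Finset.sum_eq_zero fun x hx => ?_
        rw [Finset.mem_filter] at hx
        exact hno x (Prod.mk.inj hx.2).1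
    | succ n ih =>
      intro Δ hΔ
      by_cases hne : ∃ x0 ∈ m.support, x0.1 = Δ
      · obtain ⟨x0, hx0, hx0Δ⟩ := hne
        have hodd : Odd Δ := by rw [← hx0Δ]; exact (hm x0 hx0).1
        obtain ⟨L0, hL0⟩ := hs x0 hx0
        rw [hx0Δ] at hL0
        -- the levels above and below
        have hb : ∀ x : Tri, ∃ L : ℕ, x ∈ m.support → ¬ Δ ∣ x.1 → ∀ q : ℕ, q.Prime → L < q →
            x.T ((q : ℚ) / Δ) = 0 := by
          intro x
          by_cases hx : x ∈ m.support
          · obtain ⟨L, hL⟩ := ht x (hm x hx) Δ hodd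
            exact ⟨L, fun _ h1 q hq hq' => (hL q hq hq').1 h1⟩
          · exact ⟨0, fun h1 => absurd h1 hx⟩
        choose L1 hL1 using hb
        have hab : ∀ Δ' : ℕ, ∃ L : ℕ, Δ < Δ' → ∀ q : ℕ, q.Prime → L < q →
            ∑ x ∈ m.support.filter (fun x => x.1 = Δ'), (m x : ℚ) * x.T ((q : ℚ) / Δ) = 0 := by
          intro Δ'
          by_cases h : Δ < Δ'
          · obtain ⟨L, hL⟩ := REC.above hi htt hm (ih Δ' (by omega)) Δ hodd
            exact ⟨L, fun _ => hL⟩
          · exact ⟨0, fun h1 => absurd h1 h⟩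
        choose L2 hL2 using hab
        have hS : ∃ L : ℕ, ∀ q : ℕ, q.Prime → L < q →
            ∑ x ∈ m.support.filter (fun x => x.1 = Δ), (m x : ℚ) * x.T ((q : ℚ) / Δ) = 0 := by
          refine ⟨max L0 (max (m.support.sup L1) ((m.support.image fun x => x.1).sup L2)),
            fun q hq hq' => ?_⟩
          have h1 := hL0 q hq (lt_of_le_of_lt (le_max_left _ _) hq')
          rw [← Finset.sum_fiberwise_of_maps_to (s := m.support)
            (t := m.support.image fun x => x.1) (g := fun x : Tri => x.1)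
            (fun x hx => Finset.mem_image_of_mem _ hx)] at h1
          rw [← Finset.add_sum_erase _ _ (show Δ ∈ m.support.image fun x => x.1 from
            Finset.mem_image.2 ⟨x0, hx0, hx0Δ⟩)] at h1
          have h2 : ∑ Δ' ∈ (m.support.image fun x => x.1).erase Δ,
              ∑ x ∈ m.support.filter (fun x => x.1 = Δ'), (m x : ℚ) * x.T ((q : ℚ) / Δ) = 0 := by
            refine Finset.sum_eq_zero fun Δ' hΔ' => ?_
            rw [Finset.mem_erase] at hΔ'
            rcases lt_or_gt_of_ne hΔ'.1 with h3 | h3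
            · refine Finset.sum_eq_zero fun x hx => ?_
              rw [Finset.mem_filter] at hx
              have h4 : ¬ Δ ∣ x.1 := by
                intro h5
                have h6 : 0 < x.1 := (hm x hx.1).1.pos
                have := Nat.le_of_dvd h6 h5
                omega
              rw [hL1 x hx.1 h4 q hq (lt_of_le_of_lt ?_ hq'), mul_zero]
              exact ((Finset.le_sup (f := L1) hx.1).trans (le_max_left _ _)).trans
                (le_max_right _ _)
            · refine hL2 Δ' h3 q hq (lt_of_le_of_lt ?_ hq')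
              exact ((Finset.le_sup (f := L2) hΔ'.2).trans (le_max_right _ _)).trans
                (le_max_right _ _)
          rw [h2, add_zero] at h1
          exact h1
        have lev := REC.level hi hp ht hm hodd hS
        constructor
        · intro x hx hxΔ
          exact (lev x hx hxΔ).1
        · intro k
          by_cases hk : ∃ x ∈ m.support, (x.1, x.2.1) = (Δ, k)
          · obtain ⟨x, hx, hxk⟩ := hk
            have hx1 : x.1 = Δ := (Prod.mk.inj hxk).1
            have hx2 : x.2.1 = k := (Prod.mk.inj hxk).2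
            have kx := hi x (hm x hx)
            have h1 := (lev x.inv kx.1 (by rw [kx.2.2.1]; exact hx1)).2
            rw [← h1]
            refine Finset.sum_congr ?_ fun _ _ => rfl
            ext z
            simp only [Finset.mem_filter, Prod.mk.injEq]
            constructor
            · rintro ⟨hz, hz1, hz2⟩
              refine ⟨hz, hz1, ?_⟩
              have kz := hi z (hm z hz)
              refine kz.2.2.2.2.2.1 x.inv.2.1 kx.1.2.1 ?_ ?_
              · rw [hz1, ← hx1, ← kx.2.2.1]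
                exact kx.1.2.2.1
              · rw [hz1, ← hx1, hz2, ← hx2]
                exact kx.2.2.2.2.1
            · rintro ⟨hz, hz1, hz2⟩
              refine ⟨hz, hz1, ?_⟩
              have kz := hi z (hm z hz)
              have kzi := hi z.inv kz.1
              rw [← hx2]
              have e1 : z.inv.inv.2.1 = x.2.1 := by
                refine kzi.2.2.2.2.2.1 x.2.1 (hm x hx).2.1 ?_ ?_
                · rw [kz.2.2.1, hz1, ← hx1]
                  exact (hm x hx).2.2.1
                · rw [kz.2.2.1, hz1, ← hx1, hz2, mul_comm]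
                  exact kx.2.2.2.2.1
              rw [kz.2.1] at e1
              exact e1
          · refine Finset.sum_eq_zero fun x hx => ?_
            rw [Finset.mem_filter] at hx
            exact absurd ⟨x, hx.1, hx.2⟩ hk
      · have hno : ∀ x : Tri, x.1 = Δ → m x = 0 := by
          intro x hx
          by_contra h
          exact hne ⟨x, Finsupp.mem_support_iff.2 h, hx⟩
        constructor
        · intro x hx hxΔ
          rw [hno x hxΔ, hno x.inv (by rw [(hi x hx).2.2.1]; exact hxΔ)]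
        · intro k
          refine Finset.sum_eq_zero fun x hx => ?_
          rw [Finset.mem_filter] at hx
          exact hno x (Prod.mk.inj hx.2).1
  have all : ∀ Δ : ℕ, REC.Lev m Δ := fun Δ =>
    main ((m.support.sup fun x => x.1) + 1) Δ (by omega)
  constructor
  · intro x hx
    exact (all x.1).1 x hx rfl
  · rintro ⟨Δ, k⟩
    exact (all Δ).2 k

end Pool.Agent.MTR
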