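import Pool.Agent.MTR.Stmts

/-!
The triple of a site of a Montesinos knot. See PAPER.md, section 2.
-/

namespace Pool.Agent.MTR

open Pool.Agent.TB

namespace SITE

/-- the coprime parts of `l` -/
theorem parts (B Q : ℤ) (hQ : Q ≠ 0) : ∃ B' Q' : ℤ, 0 < Int.gcd B Q ∧
    B = (Int.gcd B Q : ℤ) * B' ∧ Q = (Int.gcd B Q : ℤ) * Q' ∧ IsCoprime B' Q' := by
  have hg0 : 0 < Int.gcd B Q := Int.gcd_pos_of_ne_zero_right _ hQ
  have hgZ : (0 : ℤ) < (Int.gcd B Q : ℤ) := by exact_mod_cast hg0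
  obtain ⟨B', hB'⟩ : (Int.gcd B Q : ℤ) ∣ B := Int.gcd_dvd_left ..
  obtain ⟨Q', hQ'⟩ : (Int.gcd B Q : ℤ) ∣ Q := Int.gcd_dvd_right ..
  have h := Int.gcd_eq_gcd_ab B Q
  refine ⟨B', Q', hg0, hB', hQ', Int.gcdA B Q, Int.gcdB B Q, ?_⟩
  generalize Int.gcdA B Q = x at *
  generalize Int.gcdB B Q = y at *
  generalize (Int.gcd B Q : ℤ) = g at *
  apply mul_left_cancel₀ hgZ.ne'
  rw [hB', hQ'] at h
  linear_combination -h

theorem core (B' Q' A p r1 r2 ε Δ : ℤ) (h1 : r1 * p - r2 * A = 1)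
    (hD : ε * (B' * p - Q' * A) = Δ) (u w : ℤ) :
    Δ ∣ w - (ε * (B' * r2 - Q' * r1)) * u ↔
      ∃ R : ℤ × ℤ, R.1 * p - R.2 * A = u ∧ ε * (B' * R.2 - Q' * R.1) = w := by
  constructor
  · rintro ⟨z, hz⟩
    refine ⟨(u * r1 + z * A, u * r2 + z * p), ?_, ?_⟩
    · simp only
      linear_combination u * h1
    · simp only
      linear_combination z * hD - hz
  · rintro ⟨⟨a, b⟩, hu, hw⟩
    simp only at hu hw
    refine ⟨r1 * b - r2 * a, ?_⟩
    rw [← hw, ← hu, ← hD]
    linear_combination (-ε * (B' * b - Q' * a)) * h1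

end SITE

theorem site : SITE_Stmt := by
  rintro ⟨B, Q⟩ ⟨A, p⟩ hV hDodd hQ hp
  simp only at hV hQ hp
  obtain ⟨B', Q', hg0, hB, hQ', hcop⟩ := SITE.parts B Q hQ
  have hgZ : (0 : ℤ) < (Int.gcd B Q : ℤ) := by exact_mod_cast hg0
  have hdet : det2 (B, Q) (A, p) = (Int.gcd B Q : ℤ) * (B' * p - Q' * A) := by
    unfold det2
    simp only
    linear_combination p * hB - A * hQ'
  have hD'odd : Odd (B' * p - Q' * A) := by
    rw [hdet] at hDodd
    exact (Int.odd_mul.1 hDodd).2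
  have hD'0 : B' * p - Q' * A ≠ 0 := by
    intro h
    rw [h] at hD'odd
    exact absurd hD'odd (by decide)
  have hsign : Int.sign (det2 (B, Q) (A, p)) = Int.sign (B' * p - Q' * A) := by
    rw [hdet, Int.sign_mul, Int.sign_eq_one_of_pos hgZ, one_mul]
  have hε0 : Int.sign (B' * p - Q' * A) ≠ 0 := fun h => hD'0 (Int.sign_eq_zero_iff_zero.1 h)
  have hεD : Int.sign (B' * p - Q' * A) * (B' * p - Q' * A) =
      ((B' * p - Q' * A).natAbs : ℤ) := Int.sign_mul_self_eq_natAbs _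
  have hε2 : Int.sign (B' * p - Q' * A) * Int.sign (B' * p - Q' * A) = 1 := by
    rcases lt_or_gt_of_ne hD'0 with h | h
    · rw [Int.sign_eq_neg_one_of_neg h]; rfl
    · rw [Int.sign_eq_one_of_pos h]; rfl
  have hΔ : (det2 (B, Q) (A, p)).natAbs / Int.gcd B Q = (B' * p - Q' * A).natAbs := by
    rw [hdet, Int.natAbs_mul, Int.natAbs_natCast, Nat.mul_div_cancel_left _ hg0]
  have hr : Int.gcdA p A * p - (-Int.gcdB p A) * A = 1 := by
    have h := Int.gcd_eq_gcd_ab p A
    have h2 : Int.gcd p A = 1 := by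
      rw [← Int.isCoprime_iff_gcd_eq_one]
      exact hV.symm
    rw [h2] at h
    push_cast at h
    linear_combination -h
  have hc0 : Int.sign (B' * p - Q' * A) * det2 (B, Q) (Int.gcdA p A, -Int.gcdB p A) /
      (Int.gcd B Q : ℤ) = Int.sign (B' * p - Q' * A) *
        (B' * (-Int.gcdB p A) - Q' * Int.gcdA p A) := by
    have h : Int.sign (B' * p - Q' * A) * det2 (B, Q) (Int.gcdA p A, -Int.gcdB p A) =
        (Int.gcd B Q : ℤ) * (Int.sign (B' * p - Q' * A) *
          (B' * (-Int.gcdB p A) - Q' * Int.gcdA p A)) := by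
      unfold det2
      simp only
      linear_combination (-Int.sign (B' * p - Q' * A) * Int.gcdB p A) * hB -
        (Int.sign (B' * p - Q' * A) * Int.gcdA p A) * hQ'
    rw [h, Int.mul_ediv_cancel_left _ hgZ.ne']
  have htri : tri (B, Q) (A, p) = ((B' * p - Q' * A).natAbs,
      (Int.sign (B' * p - Q' * A) * (B' * (-Int.gcdB p A) - Q' * Int.gcdA p A)) %
        ((B' * p - Q' * A).natAbs : ℤ),
      (Int.sign (B' * p - Q' * A) : ℚ) * Q / ((Int.gcd B Q : ℕ) * p)) := by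
    simp only [tri]
    rw [hsign, hΔ, hc0]
  have hΔ0 : (0 : ℤ) < ((B' * p - Q' * A).natAbs : ℤ) := by
    have := Int.natAbs_pos.2 hD'0
    exact_mod_cast this
  have key : ∀ u w : ℤ, ((B' * p - Q' * A).natAbs : ℤ) ∣ w -
      ((Int.sign (B' * p - Q' * A) * (B' * (-Int.gcdB p A) - Q' * Int.gcdA p A)) %
        ((B' * p - Q' * A).natAbs : ℤ)) * u ↔
      ∃ R : ℤ × ℤ, R.1 * p - R.2 * A = u ∧
        Int.sign (B' * p - Q' * A) * (B' * R.2 - Q' * R.1) = w := by
    intro u w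
    rw [← SITE.core B' Q' A p (Int.gcdA p A) (-Int.gcdB p A) (Int.sign (B' * p - Q' * A))
      ((B' * p - Q' * A).natAbs : ℤ) hr hεD u w]
    generalize Int.sign (B' * p - Q' * A) * (B' * (-Int.gcdB p A) - Q' * Int.gcdA p A) = c0
    generalize ((B' * p - Q' * A).natAbs : ℤ) = Δ
    have h := Int.emod_add_mul_ediv c0 Δ
    constructor
    · rintro ⟨z, hz⟩
      refine ⟨z - (c0 / Δ) * u, ?_⟩
      linear_combination hz + u * h
    · rintro ⟨z, hz⟩
      refine ⟨z + (c0 / Δ) * u, ?_⟩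
      linear_combination hz - u * h
  refine ⟨?_, hg0, ?_, ?_⟩
  · rw [htri]
    refine ⟨?_, Int.emod_nonneg _ hΔ0.ne', Int.emod_lt_of_pos _ hΔ0, ?_, ?_⟩
    · simp only
      exact Int.natAbs_odd.2 hD'odd
    · simp only
      obtain ⟨x, y, hxy⟩ := hcop
      have h1 := (key (-(Int.sign (B' * p - Q' * A) * y) * p -
        (Int.sign (B' * p - Q' * A) * x) * A) 1).2
        ⟨(-(Int.sign (B' * p - Q' * A) * y), Int.sign (B' * p - Q' * A) * x), rfl, by
          simp only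
          linear_combination (x * B' + y * Q') * hε2 + hxy⟩
      obtain ⟨z, hz⟩ := h1
      refine ⟨-(Int.sign (B' * p - Q' * A) * y) * p -
        (Int.sign (B' * p - Q' * A) * x) * A, z, ?_⟩
      linear_combination -hz
    · simp only
      have h1 : ((Int.sign (B' * p - Q' * A) : ℤ) : ℚ) ≠ 0 := by exact_mod_cast hε0
      have h2 : (Q : ℚ) ≠ 0 := by exact_mod_cast hQ
      have h3 : ((Int.gcd B Q : ℕ) : ℚ) ≠ 0 := by exact_mod_cast hg0.ne'
      have h4 : (p : ℚ) ≠ 0 := by exact_mod_cast hp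
      exact div_ne_zero (mul_ne_zero h1 h2) (mul_ne_zero h3 h4)
  · rw [htri]
    simp only
    rw [hdet, Int.natAbs_mul, Int.natAbs_natCast, mul_comm]
  · intro u w
    rw [htri]
    simp only
    rw [key u w, hsign]
    constructor
    · rintro ⟨⟨a, b⟩, hu, hw⟩
      simp only at hu hw
      refine ⟨(a, b), ?_, ?_⟩
      · unfold det2
        simp only
        exact hu
      · unfold det2
        simp only
        linear_combination (Int.gcd B Q : ℤ) * hw +
          (Int.sign (B' * p - Q' * A) * b) * hB - (Int.sign (B' * p - Q' * A) * a) * hQ'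
    · rintro ⟨⟨a, b⟩, hu, hw⟩
      unfold det2 at hu hw
      simp only at hu hw
      refine ⟨(a, b), hu, ?_⟩
      simp only
      apply mul_left_cancel₀ hgZ.ne'
      linear_combination hw - (Int.sign (B' * p - Q' * A) * b) * hB +
        (Int.sign (B' * p - Q' * A) * a) * hQ'

end Pool.Agent.MTR
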